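import Mathlib

/-!
# Reducibility at infinity and functions which are algebraic over units: definitions

* `La k r` is the ring of Laurent polynomials in `r` variables over `k`, with exponents in `ℤ ^ r`;
  `mo s b` is the monomial `s ^ b` and `ev s` is the evaluation of Laurent polynomials at the
  point `s` of the torus; `evp s y` is the evaluation of polynomials over `La k r` at `s` and `y`.
* `dt b θ` is the product of the exponent `b` and the direction `θ`.
* `RedE`, `RedH`: reducible (a product of two monic factors) in a direction, in all directions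
  outside an open half space; `SplitsE`, `SplitsH`: the same for splitting into linear factors.
* `pw m` is the substitution `t ↦ t ^ m`; `RedInf` is reducibility at infinity of all divisors.
* `UnitOn`: no zeros on `V(ℂ)`; `SplitOver`: algebraic over units, and reducible at infinity.
-/

set_option autoImplicit false

open Finset

namespace Pool.Agent.H21bl.CC

/-- Laurent polynomials in `r` variables -/
abbrev La (k : Type) [Field k] (r : ℕ) : Type := AddMonoidAlgebra k (Fin r → ℤ)

section basic

variable {k R : Type} [Field k] [CommRing R] [Algebra k R] {r : ℕ}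

/-- monomials in units -/
def mo (s : Fin r → Rˣ) (b : Fin r → ℤ) : Rˣ := ∏ j, s j ^ b j

theorem mo_zero (s : Fin r → Rˣ) : mo s 0 = 1 := by simp [mo]

theorem mo_add (s : Fin r → Rˣ) (b c : Fin r → ℤ) : mo s (b + c) = mo s b * mo s c := by
  unfold mo
  rw [← Finset.prod_mul_distrib]
  exact Finset.prod_congr rfl fun j _ => by rw [Pi.add_apply, zpow_add]

/-- evaluation of Laurent polynomials at units -/
noncomputable def ev (s : Fin r → Rˣ) : La k r →ₐ[k] R :=
  AddMonoidAlgebra.lift k R (Fin r → ℤ)
    { toFun := fun m => (mo s m.toAdd : R)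
      map_one' := by
        show ((mo s 0 : Rˣ) : R) = 1
        rw [mo_zero, Units.val_one]
      map_mul' := fun m m' => by
        show ((mo s (m.toAdd + m'.toAdd) : Rˣ) : R) = _
        rw [mo_add, Units.val_mul] }

/-- the pairing of exponents and directions -/
def dt (b : Fin r → ℤ) (L : Fin r → ℝ) : ℝ := ∑ j, (b j : ℝ) * L j

end basic

section unit

open NumberField
open scoped NumberField

variable {K : Type} [Field K] {n : ℕ} {ι : Type}

/-- the polynomial `f` has no zeros on `V(ℂ)` -/
def UnitOn (σ : K →+* ℂ) (F : ι → MvPolynomial (Fin n) (𝓞 K)) (f : MvPolynomial (Fin n) K) : Prop :=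
  ∀ z : Fin n → ℂ, (∀ i, MvPolynomial.eval₂ (σ.comp (algebraMap (𝓞 K) K)) z (F i) = 0) →
    MvPolynomial.eval₂ σ z f ≠ 0

end unit

end Pool.Agent.H21bl.CC

namespace Pool.Agent.H21bl.TC

open Pool.Agent.H21bl.CC

section basic

variable {k R : Type} [Field k] [CommRing R] [Algebra k R] {r : ℕ} (s : Fin r → Rˣ)

/-- evaluation of polynomials over the ring of Laurent polynomials -/
noncomputable def evp (y : R) : Polynomial (La k r) →+* R :=
  Polynomial.eval₂RingHom (ev s : La k r →ₐ[k] R).toRingHom y

end basic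

variable {k : Type} [Field k] {r : ℕ}

/-- substitution of powers -/
noncomputable def pw (m : ℕ) : La k r →+* La k r :=
  AddMonoidAlgebra.mapDomainRingHom k (DistribSMul.toAddMonoidHom (Fin r → ℤ) m)

/-- the error of an approximate factorization in linear factors -/
noncomputable def err (Φ : Polynomial (La k r)) (d : La k r) {e : ℕ} (Q : Fin e → La k r) :
    Polynomial (La k r) :=
  (∏ i, (Polynomial.C d * Polynomial.X - Polynomial.C (Q i))) - Polynomial.C (d ^ e) * Φ

/-- the data of an approximate factorization: a denominator, numerators, and an exponent of the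
denominator -/
abbrev Dat (k : Type) [Field k] (r e : ℕ) : Type := La k r × (Fin e → La k r) × (Fin r → ℤ)

/-- the polynomial splits in the direction `θ` up to small errors -/
def SplitsE (Φ : Polynomial (La k r)) (e : ℕ) (θ : Fin r → ℝ) : Prop :=
  ∀ N : ℝ, ∃ d : Dat k r e, d.1.coeff d.2.2 ≠ 0 ∧
    ∀ j, ∀ b ∈ ((err Φ d.1 d.2.1).coeff j).coeff.support, dt b θ ≤ e * dt d.2.2 θ - N

/-- `Φ` splits at infinity outside a half space -/
def SplitsH (Φ : Polynomial (La k r)) : Prop :=
  ∃ (μ : Fin r → ℝ) (ε : ℝ), 0 < ε ∧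
    ∀ θ : Fin r → ℝ, θ ≠ 0 → ∑ j, μ j * θ j ≤ ε * ‖θ‖ → SplitsE Φ Φ.natDegree θ

/-- the error of an approximate factorization in two factors -/
noncomputable def errR (Φ : Polynomial (La k r)) (d : La k r) (g : Fin 2 → Polynomial (La k r)) :
    Polynomial (La k r) :=
  g 0 * g 1 - Polynomial.C (d ^ 2) * Φ

/-- the data of an approximate factorization: a leading coefficient, two polynomials, and an
exponent of the leading coefficient -/
abbrev DatR (k : Type) [Field k] (r : ℕ) : Type :=
  La k r × (Fin 2 → Polynomial (La k r)) × (Fin r → ℤ)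

/-- the conditions on the data: the exponent is one of the leading coefficient `d.1`, and the two
factors have degrees less than `e` and leading coefficient `d.1` -/
def OkR (e : ℕ) (d : DatR k r) : Prop :=
  d.1.coeff d.2.2 ≠ 0 ∧ ∀ i, (d.2.1 i).natDegree < e ∧ (d.2.1 i).leadingCoeff = d.1

/-- the monic polynomial `Φ` of degree `e` is reducible in the direction `θ` up to small errors:
it is close to the product of two monic polynomials `g / D` of degree less than `e` -/
def RedE (Φ : Polynomial (La k r)) (e : ℕ) (θ : Fin r → ℝ) : Prop :=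
  ∀ N : ℝ, ∃ d : DatR k r, OkR e d ∧
    ∀ j, ∀ b ∈ ((errR Φ d.1 d.2.1).coeff j).coeff.support, dt b θ ≤ 2 * dt d.2.2 θ - N

/-- `Φ` is reducible at infinity outside a half space -/
def RedH (Φ : Polynomial (La k r)) : Prop :=
  ∃ (μ : Fin r → ℝ) (ε : ℝ), 0 < ε ∧
    ∀ θ : Fin r → ℝ, θ ≠ 0 → ∑ j, μ j * θ j ≤ ε * ‖θ‖ → RedE Φ Φ.natDegree θ

/-- for some `m`, all monic divisors of `Φ(Y; t ^ m)` of degree at least two are reducible at
infinity, or `Φ(Y; t ^ m)` splits into linear factors at infinity -/
def RedInf (Φ : Polynomial (La k r)) : Prop :=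
  ∃ m : ℕ, 0 < m ∧ ((∀ Θ : Polynomial (La k r), Θ.Monic → Θ ∣ Φ.map (pw m) →
    2 ≤ Θ.natDegree → RedH Θ) ∨ SplitsH (Φ.map (pw m)))

section points

open NumberField
open scoped NumberField

variable {K : Type} [Field K] {n : ℕ} {ι κ : Type}

/-- `z` is an `L`-point of `V` outside `V'`, and `u(z) = c * t ^ a` -/
def Over (F : ι → MvPolynomial (Fin n) (𝓞 K)) (G : κ → MvPolynomial (Fin n) (𝓞 K)) {L : Type}
    [Field L] [Algebra K L] {N r : ℕ} (u : Fin N → MvPolynomial (Fin n) K) (c : Fin N → L)
    (a : Fin N → Fin r → ℤ) (z : Fin n → L) (t : Fin r → Lˣ) : Prop :=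
  (∀ l, MvPolynomial.eval₂ ((algebraMap K L).comp (algebraMap (𝓞 K) K)) z (F l) = 0) ∧
    (∃ l, MvPolynomial.eval₂ ((algebraMap K L).comp (algebraMap (𝓞 K) K)) z (G l) ≠ 0) ∧
      ∀ i, MvPolynomial.aeval z (u i) = c i * (mo t (a i) : L)

/-- there are units `u_1, ..., u_N`, `A` and `h ≥ 1` such that over each translate `c * t ^ a` of a
subtorus of the torus of the `u_i`, the function `β` with `f ^ h = A * β ^ h` satisfies
`Ψ(q(t) β; t) = 0`, where `Ψ` is monic and, when the dimension is at least two, the monic divisors of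
some `Ψ(Y; t ^ m)` of degree at least two are reducible at infinity -/
def SplitOver (σ : K →+* ℂ) (F : ι → MvPolynomial (Fin n) (𝓞 K))
    (G : κ → MvPolynomial (Fin n) (𝓞 K)) (f : MvPolynomial (Fin n) K) : Prop :=
  ∃ (N : ℕ) (u : Fin N → MvPolynomial (Fin n) K) (A : MvPolynomial (Fin n) K) (h : ℕ),
    0 < h ∧ (∀ i, UnitOn σ F (u i)) ∧ UnitOn σ F A ∧
    ∀ (L : Type) [Field L] [Algebra K L] [IsAlgClosed L] (r : ℕ) (c : Fin N → L)
      (a : Fin N → Fin r → ℤ), (∀ i, c i ≠ 0) →
      (∀ j, Pi.single j 1 ∈ Submodule.span ℤ (Set.range a)) →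
      ∃ (q : La L r) (Ψ : Polynomial (La L r)), q ≠ 0 ∧ Ψ.Monic ∧ (2 ≤ r → RedInf Ψ) ∧
        ∀ z t, Over F G u c a z t → ∃ β : L,
          MvPolynomial.aeval z f ^ h = MvPolynomial.aeval z A * β ^ h ∧
            evp t (ev t q * β) Ψ = 0

end points

end Pool.Agent.H21bl.TC
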