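import Mathlib
import Pool.Agent.H21bl.LT.AnC
import Pool.Agent.H159R3.NV.StepB

/-!
The curve given by nonzero entire functions, composed with the exponential function.
-/

set_option autoImplicit false
set_option linter.unusedSectionVars false

namespace Pool.Agent.H21bl.TC

open Filter Topology Metric Set
open Pool.Agent.Y192.OG Pool.Agent.Y192.KC Pool.Agent.W603.BP Pool.Agent.Y220.KG
open Pool.Agent.H159R3.NV (Ent ev_ne Dv)
open Pool.Agent.H21bl

theorem ent_ne {y : Ent} (hy : y ≠ 0) : ∃ z, (y : ℂ → ℂ) z ≠ 0 := by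
  have h1 : (y : ℂ → ℂ) ≠ 0 := fun h => hy (Subtype.ext h)
  exact Function.ne_iff.1 h1

/-- composition with the exponential function -/
theorem exp_diff (y : Ent) : Differentiable ℂ fun z => (y : ℂ → ℂ) (Complex.exp z) :=
  y.2.comp Complex.differentiable_exp

theorem exp_ne {y : Ent} (hy : y ≠ 0) : ∃ z, (y : ℂ → ℂ) (Complex.exp z) ≠ 0 := by
  obtain ⟨x, hx⟩ := ent_ne hy
  obtain ⟨u, hu1, hu2⟩ := ((ev_ne y.2 hx 0).and self_mem_nhdsWithin).exists
  refine ⟨Complex.log u, ?_⟩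
  rw [Complex.exp_log (show u ≠ 0 from hu2)]
  exact hu1

variable {N : ℕ} (f : Fin N → Ent) (hf : ∀ i, f i ≠ 0)

include hf in
theorem UU_nz (i : Fin (N + 1)) : ∃ z, UU f i z ≠ 0 := by
  refine Fin.cases ?_ (fun j => ?_) i
  · exact ⟨0, by rw [UU_zero]; exact one_ne_zero⟩
  · exact ent_ne (hf j)

/-- the curve -/
noncomputable def cv : Curve N := ecurve (UU f) (UU_diff f) (UU_ncz f) (UU_nz f hf)

theorem cv_r0 : (cv f hf).r0 = 1 := rfl

theorem cv_X (i : Fin (N + 1)) (z : ℂ) : (cv f hf).X i z = UU f i (Complex.exp z) := rfl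

theorem cv_X0 (z : ℂ) : (cv f hf).X 0 z = 1 := rfl

theorem cv_Xs (i : Fin N) (z : ℂ) : (cv f hf).X i.succ z = (f i : ℂ → ℂ) (Complex.exp z) := rfl

theorem cv_xf (i : Fin N) (z : ℂ) : (cv f hf).xf i z = (f i : ℂ → ℂ) (Complex.exp z) := by
  unfold Curve.xf
  rw [cv_Xs, cv_X0, div_one]

/-- functions on the exterior of the disc -/
noncomputable def ps0 : Ent →ₐ[ℂ] ((cv f hf).U → ℂ) where
  toFun := fun (y : Ent) (z : (cv f hf).U) => (y : ℂ → ℂ) (Complex.exp z)
  map_one' := rfl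
  map_mul' := fun _ _ => rfl
  map_zero' := rfl
  map_add' := fun _ _ => rfl
  commutes' := fun _ => rfl

/-- functions on the exterior of the disc -/
noncomputable def ps : Ent →ₐ[ℂ] (cv f hf).Mr :=
  (ps0 f hf).codRestrict (cv f hf).Mr (fun y =>
    ((cv f hf).mr (fun z => (y : ℂ → ℂ) (Complex.exp z))
      (fun z _ => ((exp_diff y).analyticAt z).meromorphicAt)
      (fun z _ => (exp_diff y).analyticAt z)).2)

theorem val_ps (y : Ent) {z : ℂ} (hz : z ∈ (cv f hf).U) :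
    (cv f hf).val (ps f hf y) z = (y : ℂ → ℂ) (Complex.exp z) := by
  unfold Curve.val
  rw [(cv f hf).ext_of_mem _ hz]
  rfl

theorem val_ps_ev (y : Ent) {z : ℂ} (hz : z ∈ Ext (cv f hf).r0) :
    (cv f hf).val (ps f hf y) =ᶠ[𝓝[≠] z] fun z => (y : ℂ → ℂ) (Complex.exp z) := by
  filter_upwards [(cv f hf).U_punct hz] with w hw
  exact val_ps f hf y hw

theorem val_ps_nhds (y : Ent) {z : ℂ} (hz : z ∈ (cv f hf).U) :
    (cv f hf).val (ps f hf y) =ᶠ[𝓝 z] fun z => (y : ℂ → ℂ) (Complex.exp z) := by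
  filter_upwards [(cv f hf).U_open.mem_nhds hz] with w hw
  exact val_ps f hf y hw

theorem ps_ne {y : Ent} (hy : y ≠ 0) : ps f hf y ≠ 0 := by
  intro h0
  obtain ⟨x, hx⟩ := exp_ne hy
  have h1 : ∀ᶠ z in 𝓝[≠] (2 : ℂ), (y : ℂ → ℂ) (Complex.exp z) ≠ 0 := ev_ne (exp_diff y) hx 2
  have h2 : (2 : ℂ) ∈ Ext (cv f hf).r0 := by
    show (1 : ℝ) < ‖(2 : ℂ)‖
    norm_num
  obtain ⟨z, hz1, hz2⟩ := (h1.and ((cv f hf).U_punct h2)).exists
  have h3 := val_ps f hf y hz2
  rw [h0, val_zero'] at h3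
  exact hz1 h3.symm

theorem ps_inj : Function.Injective (ps f hf) := by
  rw [injective_iff_map_eq_zero]
  intro y hy
  by_contra hne
  exact ps_ne f hf hne hy

/-- the order of an entire function is not negative -/
theorem ord_ps_nonneg (y : Ent) {z : ℂ} (hz : z ∈ Ext (cv f hf).r0) :
    0 ≤ (cv f hf).ord z (ps f hf y) := by
  unfold Curve.ord
  rw [meromorphicOrderAt_congr (val_ps_ev f hf y hz)]
  exact ((exp_diff y).analyticAt z).meromorphicOrderAt_nonneg

theorem ord_ps_unit (u : Entˣ) {z : ℂ} (hz : z ∈ Ext (cv f hf).r0) :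
    (cv f hf).ord z (ps f hf (u : Ent)) = 0 := by
  unfold Curve.ord
  rw [meromorphicOrderAt_congr (val_ps_ev f hf (u : Ent) hz)]
  have han := (exp_diff (u : Ent)).analyticAt z
  refine (tendsto_ne_zero_iff_meromorphicOrderAt_eq_zero han.meromorphicAt).1
    ⟨((u : Ent) : ℂ → ℂ) (Complex.exp z), unit_ne u _, ?_⟩
  exact (han.continuousAt.tendsto).mono_left nhdsWithin_le_nhds

theorem ps_mon (i : Fin N) : ps f hf (f i) = (cv f hf).mon (Pi.single i 1) := by
  apply (cv f hf).val_inj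
  intro z hz
  rw [val_ps f hf _ hz, (cv f hf).val_mon _ hz]
  unfold Curve.monf
  rw [Finset.prod_eq_single i]
  · rw [Pi.single_eq_same, zpow_one, cv_xf]
  · intro j _ hj
    rw [Pi.single_eq_of_ne hj, zpow_zero]
  · intro h
    exact absurd (Finset.mem_univ _) h

/-- the operator `z d/dz` -/
noncomputable def th : Ent →ₗ[ℂ] Ent where
  toFun y := ⟨fun z => z, differentiable_id⟩ * Dv y
  map_add' a b := by
    rw [map_add, mul_add]
  map_smul' c a := by
    rw [Derivation.map_smul, mul_smul_comm]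
    rfl

theorem th_coe (y : Ent) (z : ℂ) : ((th y : Ent) : ℂ → ℂ) z = z * deriv (y : ℂ → ℂ) z := rfl

theorem Dr_ps (y : Ent) : (cv f hf).Dr (ps f hf y) = ps f hf (th y) := by
  apply (cv f hf).val_inj
  intro z hz
  rw [(cv f hf).val_Dr _ hz, val_ps f hf _ hz, (val_ps_nhds f hf y hz).deriv_eq, th_coe]
  have h1 : HasDerivAt (fun z => (y : ℂ → ℂ) (Complex.exp z))
      (deriv (y : ℂ → ℂ) (Complex.exp z) * Complex.exp z) z :=
    (y.2 (Complex.exp z)).hasDerivAt.comp z (Complex.hasDerivAt_exp z)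
  rw [h1.deriv, mul_comm]

theorem Dr_iter_ps (l : ℕ) (y : Ent) :
    ((cv f hf).Dr : (cv f hf).Mr → (cv f hf).Mr)^[l] (ps f hf y) =
      ps f hf ((th : Ent → Ent)^[l] y) := by
  induction l generalizing y with
  | zero => rfl
  | succ l ih => rw [Function.iterate_succ_apply, Function.iterate_succ_apply, Dr_ps, ih]

/-- the Wronskian of entire functions -/
noncomputable def wrE {M : ℕ} (g : Fin M → Ent) : Ent :=
  (Matrix.of fun b l : Fin M => ((th : Ent → Ent)^[(l : ℕ)]) (g b)).det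

theorem wrd_ps {M : ℕ} (g : Fin M → Ent) :
    (cv f hf).wrd (fun b => ps f hf (g b)) = ps f hf (wrE g) := by
  unfold Curve.wrd wrE
  have h1 : (ps f hf) (Matrix.of fun b l : Fin M => ((th : Ent → Ent)^[(l : ℕ)]) (g b)).det =
      ((ps f hf : Ent →ₐ[ℂ] (cv f hf).Mr) : Ent →+* (cv f hf).Mr)
      (Matrix.of fun b l : Fin M => ((th : Ent → Ent)^[(l : ℕ)]) (g b)).det := rfl
  rw [h1, RingHom.map_det]
  congr 1
  ext b l
  simp only [RingHom.mapMatrix_apply, Matrix.map_apply, Matrix.of_apply]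
  rw [Dr_iter_ps]
  rfl

theorem wrE_ne {F : (cv f hf).Mr} (R : Rad (cv f hf) F) {M : ℕ} (g : Fin M → Ent)
    (hg : LinearIndependent ℂ g) : wrE g ≠ 0 := by
  intro h0
  have h1 := wrd_ps f hf g
  rw [h0, map_zero] at h1
  refine (a_wr N (cv f hf) F R M (fun b => ps f hf (g b))).1 ?_ h1
  exact hg.map' (ps f hf).toLinearMap (LinearMap.ker_eq_bot.2 (ps_inj f hf))

/-- change of basis -/
theorem wrE_change {M : ℕ} (g g' : Fin M → Ent) (A : Matrix (Fin M) (Fin M) ℂ)
    (h : ∀ b, g b = ∑ a, A b a • g' a) : wrE g = algebraMap ℂ Ent A.det * wrE g' := by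
  unfold wrE
  rw [RingHom.map_det, ← Matrix.det_mul]
  congr 1
  ext1 b l
  rw [Matrix.mul_apply]
  simp only [Matrix.of_apply, RingHom.mapMatrix_apply, Matrix.map_apply]
  have h1 : ∀ (l : ℕ) (y : Ent), (th : Ent → Ent)^[l] y = (th ^ l : Module.End ℂ Ent) y := by
    intro l y
    rw [Module.End.pow_apply]
  rw [h1, h b, map_sum]
  refine Finset.sum_congr rfl fun a _ => ?_
  rw [map_smul, Algebra.smul_def, h1]

end Pool.Agent.H21bl.TC
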