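import Mathlib
import Pool.Agent.N754.LT.Dc

/-!
Absolute values and negligible functions, without a subspace theorem.
-/

set_option autoImplicit false
set_option linter.unusedSectionVars false
set_option linter.overlappingInstances false

open Finset Filter Module

namespace Pool.Agent.H21bl.TC

open Pool.Agent.N754.LT

/-- A domain `R` over a field of constants `k`, with absolute values `A x : Ω → ℝ`, and a notion
`Neg` of functions which are negligible from above. -/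
structure Dz (k R : Type) [Field k] [CommRing R] [Algebra k R] where
  Ω : Type
  ev : Filter Ω
  A : R → Ω → ℝ
  Neg : (Ω → ℝ) → Prop
  A_zero : ∀ᶠ ω in ev, A 0 ω = 0
  A_pos : ∀ x, x ≠ 0 → ∀ᶠ ω in ev, 0 < A x ω
  A_mul : ∀ x y, ∀ᶠ ω in ev, A (x * y) ω = A x ω * A y ω
  A_add : ∀ x y, ∀ᶠ ω in ev, A (x + y) ω ≤ A x ω + A y ω
  A_const : ∀ c : k, ∃ C : ℝ, ∀ᶠ ω in ev, A (algebraMap k R c) ω ≤ C
  neg_mono : ∀ f g : Ω → ℝ, (∀ᶠ ω in ev, g ω ≤ f ω) → Neg f → Neg g
  neg_add : ∀ f g, Neg f → Neg g → Neg (fun ω => f ω + g ω)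
  neg_smul : ∀ f (c : ℝ), 0 ≤ c → Neg f → Neg (fun ω => c * f ω)
  neg_const : ∀ c : ℝ, Neg (fun _ => c)
  unit_neg : ∀ u : Rˣ, Neg (fun ω => Real.log (A u ω))

/-- forget the subspace theorem -/
def ofDc {k R : Type} [Field k] [CommRing R] [Algebra k R] (D : Dc k R) : Dz k R where
  Ω := D.Ω
  ev := D.ev
  A := D.A
  Neg := D.Neg
  A_zero := D.A_zero
  A_pos := D.A_pos
  A_mul := D.A_mul
  A_add := D.A_add
  A_const := D.A_const
  neg_mono := D.neg_mono
  neg_add := D.neg_add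
  neg_smul := D.neg_smul
  neg_const := D.neg_const
  unit_neg := D.unit_neg

namespace Dz

variable {k R : Type} [Field k] [CommRing R] [IsDomain R] [Algebra k R] (D : Dz k R)

theorem neg_sum {ι : Type} (s : Finset ι) (f : ι → D.Ω → ℝ) (h : ∀ i ∈ s, D.Neg (f i)) :
    D.Neg (fun ω => ∑ i ∈ s, f i ω) := by
  classical
  induction s using Finset.induction_on with
  | empty => simpa using D.neg_const 0
  | insert i s hi ih =>
    simp only [Finset.sum_insert hi]
    exact D.neg_add _ _ (h i (Finset.mem_insert_self _ _))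
      (ih fun j hj => h j (Finset.mem_insert_of_mem hj))

theorem A_one : ∀ᶠ ω in D.ev, D.A 1 ω = 1 := by
  filter_upwards [D.A_pos 1 one_ne_zero, D.A_mul 1 1] with ω h1 h2
  rw [mul_one] at h2
  have h3 : D.A 1 ω * (D.A 1 ω - 1) = 0 := by linarith
  rcases mul_eq_zero.1 h3 with h | h
  · linarith
  · linarith

theorem A_pow (x : R) (n : ℕ) : ∀ᶠ ω in D.ev, D.A (x ^ n) ω = D.A x ω ^ n := by
  induction n with
  | zero => simpa using D.A_one
  | succ n ih =>
    filter_upwards [ih, D.A_mul (x ^ n) x] with ω h1 h2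
    rw [pow_succ, pow_succ, h2, h1]

theorem A_prod {ι : Type} (s : Finset ι) (x : ι → R) :
    ∀ᶠ ω in D.ev, D.A (∏ i ∈ s, x i) ω = ∏ i ∈ s, D.A (x i) ω := by
  classical
  induction s using Finset.induction_on with
  | empty => simpa using D.A_one
  | insert i s hi ih =>
    filter_upwards [ih, D.A_mul (x i) (∏ i ∈ s, x i)] with ω h1 h2
    rw [Finset.prod_insert hi, Finset.prod_insert hi, h2, h1]

theorem A_nonneg (x : R) : ∀ᶠ ω in D.ev, 0 ≤ D.A x ω := by
  by_cases hx : x = 0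
  · subst hx
    filter_upwards [D.A_zero] with ω h
    rw [h]
  · filter_upwards [D.A_pos x hx] with ω h
    exact h.le

theorem A_sum {ι : Type} (s : Finset ι) (x : ι → R) :
    ∀ᶠ ω in D.ev, D.A (∑ i ∈ s, x i) ω ≤ ∑ i ∈ s, D.A (x i) ω := by
  classical
  induction s using Finset.induction_on with
  | empty =>
    filter_upwards [D.A_zero] with ω h
    simp [h]
  | insert i s hi ih =>
    filter_upwards [ih, D.A_add (x i) (∑ i ∈ s, x i)] with ω h1 h2
    rw [Finset.sum_insert hi, Finset.sum_insert hi]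
    linarith

/-- the logarithm -/
noncomputable def lg (x : R) (ω : D.Ω) : ℝ := Real.log (D.A x ω)

theorem lg_mul (x y : R) (hx : x ≠ 0) (hy : y ≠ 0) :
    ∀ᶠ ω in D.ev, D.lg (x * y) ω = D.lg x ω + D.lg y ω := by
  filter_upwards [D.A_mul x y, D.A_pos x hx, D.A_pos y hy] with ω h1 h2 h3
  unfold lg
  rw [h1, Real.log_mul h2.ne' h3.ne']

theorem lg_one : ∀ᶠ ω in D.ev, D.lg 1 ω = 0 := by
  filter_upwards [D.A_one] with ω h
  unfold lg
  rw [h, Real.log_one]

theorem lg_inv (u : Rˣ) : ∀ᶠ ω in D.ev, D.lg (u⁻¹ : Rˣ) ω = -D.lg u ω := by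
  filter_upwards [D.lg_mul (u : R) (u⁻¹ : Rˣ) u.ne_zero (Units.ne_zero _), D.lg_one] with ω h1 h2
  rw [Units.mul_inv, h2] at h1
  linarith

theorem lg_pow (x : R) (n : ℕ) : ∀ᶠ ω in D.ev, D.lg (x ^ n) ω = n * D.lg x ω := by
  filter_upwards [D.A_pow x n] with ω h1
  unfold lg
  rw [h1, Real.log_pow]

theorem lg_prod {ι : Type} (s : Finset ι) (x : ι → R) (hx : ∀ i ∈ s, x i ≠ 0) :
    ∀ᶠ ω in D.ev, D.lg (∏ i ∈ s, x i) ω = ∑ i ∈ s, D.lg (x i) ω := by
  have h1 : ∀ᶠ ω in D.ev, ∀ i ∈ s, 0 < D.A (x i) ω :=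
    (Filter.eventually_all_finset s).2 fun i hi => D.A_pos _ (hx i hi)
  filter_upwards [D.A_prod s x, h1] with ω h2 h3
  unfold lg
  rw [h2, Real.log_prod (fun i hi => (h3 i hi).ne')]

theorem lg_zpow (u : Rˣ) (n : ℤ) : ∀ᶠ ω in D.ev, D.lg ((u ^ n : Rˣ) : R) ω = n * D.lg u ω := by
  obtain ⟨m, rfl | rfl⟩ := n.eq_nat_or_neg
  · filter_upwards [D.lg_pow (u : R) m] with ω h
    rw [zpow_natCast, Units.val_pow_eq_pow_val, h]
    push_cast
    ring
  · filter_upwards [D.lg_pow (u : R) m, D.lg_inv (u ^ m)] with ω h h'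
    rw [zpow_neg, zpow_natCast, h', Units.val_pow_eq_pow_val, h]
    push_cast
    ring

theorem unit_neg' (u : Rˣ) : D.Neg (fun ω => D.lg u ω) := D.unit_neg u

theorem unit_neg_inv (u : Rˣ) : D.Neg (fun ω => -D.lg u ω) := by
  refine D.neg_mono _ _ ?_ (D.unit_neg' u⁻¹)
  filter_upwards [D.lg_inv u] with ω h
  rw [h]

end Dz

end Pool.Agent.H21bl.TC
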