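import Mathlib
import Pool.Agent.H21bl.TC.An1
import Pool.Agent.H21bl.TC.Dz

/-!
Absolute values on the ring of entire functions given by the points of good circles.
-/

set_option autoImplicit false
set_option linter.unusedSectionVars false

namespace Pool.Agent.H21bl.TC

open Filter Topology Metric Set
open Pool.Agent.Y192.OG Pool.Agent.Y192.KC Pool.Agent.W603.BP Pool.Agent.Y220.KG
open Pool.Agent.H159R3.NV (Ent ev_ne Dv ne_cod ci_log mero_of_diff avg_le_cod)
open Pool.Agent.H21bl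

variable {N : ℕ} (f : Fin N → Ent) (hf : ∀ i, f i ≠ 0)

/-- the curve is transcendental -/
theorem cv_trans (j0 : Fin N) (hnc : ∀ a : ℂ, f j0 ≠ algebraMap ℂ Ent a) :
    ¬ ∀ j, ∃ R : ℂ → ℂ, MeromorphicAt (fun w => R w⁻¹) 0 ∧ ∃ R0 : ℝ, ∀ z, R0 < ‖z‖ →
      (cv f hf).X j z = R z * (cv f hf).X 0 z := by
  intro h
  obtain ⟨R, hR, R0, hR0⟩ := h j0.succ
  obtain ⟨L, hL⟩ := const_of_per hR
  have h1 : ∀ z, z ≠ 0 → (f j0 : ℂ → ℂ) z = L := by
    intro z hz
    refine hL z _ hz ⟨R0, fun x hx hxz => ?_⟩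
    have h2 := hR0 x hx
    rw [cv_X0, mul_one, cv_Xs, hxz] at h2
    exact h2.symm
  apply hnc L
  apply Subtype.ext
  funext z
  show (f j0 : ℂ → ℂ) z = L
  have h2 : Dense ({0}ᶜ : Set ℂ) := dense_compl_singleton 0
  exact congrFun (Continuous.ext_on h2 (f j0).2.continuous continuous_const
    (fun z hz => h1 z hz)) z

theorem exists_Rad (j0 : Fin N) (hnc : ∀ a : ℂ, f j0 ≠ algebraMap ℂ Ent a) :
    Nonempty (Rad (cv f hf) ((cv f hf).ev 1)) := by
  refine a_rad N (cv f hf) 1 ?_ (cv_trans f hf j0 hnc)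
  rw [map_one]
  have h1 : (1 : (cv f hf).Mr) = ps f hf 1 := (map_one _).symm
  rw [h1]
  exact ps_ne f hf one_ne_zero

section rad

variable {f hf} {F : (cv f hf).Mr} (R : Rad (cv f hf) F)

theorem s_ge (n : ℕ) : 3 ≤ R.s n := by
  have := R.hs n
  rw [cv_r0] at this
  linarith

theorem s_U (n : ℕ) {z : ℂ} (hz : ‖z‖ = R.s n) : z ∈ (cv f hf).U :=
  R.ne n z hz z (mem_closedBall_self (R.he n).1.le)

/-- means of logarithms of entire functions -/
noncomputable def mn (y : Ent) (ρ : ℝ) : ℝ :=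
  Real.circleAverage (fun z => Real.log ‖(y : ℂ → ℂ) (Complex.exp z)‖) 0 ρ

theorem mn_eq (y : Ent) (n : ℕ) : mn y (R.s n) =
    Real.circleAverage (fun z => Real.log ‖(cv f hf).val (ps f hf y) z‖) 0 (R.s n) := by
  unfold mn
  refine Real.circleAverage_congr_sphere fun z hz => ?_
  rw [mem_sphere_zero_iff_norm, abs_of_pos (by linarith [s_ge R n])] at hz
  show Real.log ‖(y : ℂ → ℂ) (Complex.exp z)‖ = _
  rw [val_ps f hf y (s_U R n hz)]

theorem ci_exp (y : Ent) (ρ : ℝ) :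
    CircleIntegrable (fun z => Real.log ‖(y : ℂ → ℂ) (Complex.exp z)‖) 0 ρ :=
  ci_log (mero_of_diff (exp_diff y)) ρ

/-- the counting function of the zeros of an entire function -/
noncomputable def ct (f : Fin N → Ent) (hf : ∀ i, f i ≠ 0) (y : Ent) (ρ : ℝ) : ℝ :=
  (cv f hf).cnt (fun z => (((cv f hf).ord z (ps f hf y)).untop₀ : ℤ)) ρ

theorem untop_nonneg (y : Ent) {z : ℂ} (hz : (cv f hf).r0 + 1 ≤ ‖z‖) :
    0 ≤ ((cv f hf).ord z (ps f hf y)).untop₀ := by
  have h1 : z ∈ Ext (cv f hf).r0 := by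
    show (cv f hf).r0 < ‖z‖
    linarith
  have h2 := ord_ps_nonneg f hf y h1
  by_cases h : (cv f hf).ord z (ps f hf y) = ⊤
  · rw [h]
    simp
  · obtain ⟨a, ha⟩ := WithTop.ne_top_iff_exists.1 h
    rw [← ha] at h2 ⊢
    exact WithTop.coe_le_coe.1 h2

theorem cnt_nonneg' (c : Curve N) (E : ℂ → ℝ) (ρ : ℝ)
    (hE : ∀ z, c.r0 + 1 ≤ ‖z‖ → 0 ≤ E z) : 0 ≤ c.cnt E ρ := by
  unfold Curve.cnt
  refine finsum_nonneg fun z => finsum_nonneg fun hz => ?_
  refine mul_nonneg (hE z hz.1) (Real.log_nonneg ?_)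
  have h1 := c.hr0
  have h2 : 0 < ‖z‖ := by linarith [hz.1]
  rw [le_div_iff₀ h2, one_mul]
  exact hz.2

theorem ct_nonneg (y : Ent) (ρ : ℝ) : 0 ≤ ct f hf y ρ := by
  refine cnt_nonneg' _ _ _ fun z hz => ?_
  have h1 := untop_nonneg (f := f) (hf := hf) y hz
  exact_mod_cast h1

theorem ct_unit (u : Entˣ) (ρ : ℝ) : ct f hf (u : Ent) ρ = 0 := by
  unfold ct Curve.cnt
  refine finsum_mem_eq_zero_of_forall_eq_zero fun z hz => ?_
  have h1 : z ∈ Ext (cv f hf).r0 := by
    show (cv f hf).r0 < ‖z‖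
    linarith [hz.1]
  show ((((cv f hf).ord z (ps f hf (u : Ent))).untop₀ : ℤ) : ℝ) * _ = 0
  rw [ord_ps_unit f hf u h1]
  simp

theorem jen (y : Ent) (hy : y ≠ 0) : ∃ C : ℝ, 0 ≤ C ∧ ∀ n,
    |mn y (R.s n) - ct f hf y (R.s n)| ≤ C * (1 + Real.log (R.s n)) := by
  obtain ⟨C, hC⟩ := a_jen N (cv f hf) (ps f hf y) (ps_ne f hf hy)
  refine ⟨|C|, abs_nonneg C, fun n => ?_⟩
  rw [mn_eq]
  refine (hC (R.s n) (R.hs n)).trans ?_
  refine mul_le_mul_of_nonneg_right (le_abs_self C) ?_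
  have := Real.log_nonneg (show (1 : ℝ) ≤ R.s n by linarith [s_ge R n])
  linarith

/-- the characteristic dominates constants and logarithms -/
theorem ch_large (C : ℝ) (δ : ℝ) (hδ : 0 < δ) : ∀ᶠ n in atTop,
    C * (1 + Real.log (R.s n)) + C * Real.log (1 / R.e n) + C ≤ δ * (cv f hf).ch (R.s n) := by
  have hlog : Tendsto (fun n => Real.log (R.s n)) atTop atTop := Real.tendsto_log_atTop.comp R.lim
  have hδ' : 0 < δ / (4 * (|C| + 1)) := by positivity
  filter_upwards [R.small _ hδ', hlog.eventually_ge_atTop 1] with n h1 h2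
  have h3 := le_abs_self C
  have h4 := abs_nonneg C
  have h5 : 0 ≤ Real.log (1 / R.e n) := Real.log_nonneg (by
    rw [le_div_iff₀ (R.he n).1, one_mul]
    exact (R.he n).2)
  have h6 : δ / (4 * (|C| + 1)) * (cv f hf).ch (R.s n) * (|C| + 1) * 4 =
      δ * (cv f hf).ch (R.s n) := by
    field_simp
  have e1 : C * (1 + Real.log (R.s n)) ≤ |C| * (1 + Real.log (R.s n)) :=
    mul_le_mul_of_nonneg_right h3 (by linarith)
  have e2 : C * Real.log (1 / R.e n) ≤ |C| * Real.log (1 / R.e n) :=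
    mul_le_mul_of_nonneg_right h3 h5
  set X := δ / (4 * (|C| + 1)) * (cv f hf).ch (R.s n) with hX
  have e3 : |C| * Real.log (R.s n) ≤ |C| * X := mul_le_mul_of_nonneg_left h1.1 h4
  have e4 : |C| * Real.log (1 / R.e n) ≤ |C| * X := mul_le_mul_of_nonneg_left h1.2 h4
  have e5 : |C| ≤ |C| * Real.log (R.s n) := by nlinarith
  nlinarith [h1.1]

theorem ch_nonneg' (n : ℕ) : 0 ≤ (cv f hf).ch (R.s n) := ((a_ht N (cv f hf)).1 _ (R.hs n)).2.2.2.2.1

/-- codiscrete sets of points of the circles -/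
noncomputable def evE : Filter (ℕ × ℂ) :=
  ⨆ n, Filter.map (Prod.mk n) (codiscreteWithin (sphere (0 : ℂ) |R.s n|))

theorem ev_evE {p : ℕ × ℂ → Prop} : (∀ᶠ ω in evE R, p ω) ↔
    ∀ n, ∀ᶠ z in codiscreteWithin (sphere (0 : ℂ) |R.s n|), p (n, z) := by
  unfold evE
  rw [Filter.eventually_iSup]
  simp only [Filter.eventually_map]

/-- functions with small means -/
def NegE (g : ℕ × ℂ → ℝ) : Prop :=
  ∀ δ : ℝ, 0 < δ → ∀ᶠ n in atTop, ∃ h : ℂ → ℝ, CircleIntegrable h 0 (R.s n) ∧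
    (∀ᶠ z in codiscreteWithin (sphere (0 : ℂ) |R.s n|), g (n, z) ≤ h z) ∧
    Real.circleAverage h 0 (R.s n) ≤ δ * (cv f hf).ch (R.s n)

theorem ne_exp_cod {y : Ent} (hy : y ≠ 0) (ρ : ℝ) :
    ∀ᶠ z in codiscreteWithin (sphere (0 : ℂ) |ρ|), (y : ℂ → ℂ) (Complex.exp z) ≠ 0 := by
  obtain ⟨x, hx⟩ := exp_ne hy
  exact ne_cod (exp_diff y) hx ρ

theorem NegE_unit (u : Entˣ) :
    NegE R fun ω => Real.log ‖((u : Ent) : ℂ → ℂ) (Complex.exp ω.2)‖ := by
  intro δ hδ
  obtain ⟨C, hC0, hC⟩ := jen R (u : Ent) (Units.ne_zero u)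
  filter_upwards [ch_large R C δ hδ] with n hn
  refine ⟨fun z => Real.log ‖((u : Ent) : ℂ → ℂ) (Complex.exp z)‖, ci_exp _ _,
    Eventually.of_forall fun z => le_rfl, ?_⟩
  have h1 := (abs_le.1 (hC n)).2
  rw [ct_unit, sub_zero] at h1
  have h5 : 0 ≤ Real.log (1 / R.e n) := Real.log_nonneg (by
    rw [le_div_iff₀ (R.he n).1, one_mul]
    exact (R.he n).2)
  have h6 : 0 ≤ C * Real.log (1 / R.e n) := mul_nonneg hC0 h5
  have h7 : mn (u : Ent) (R.s n) = Real.circleAverage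
    (fun z => Real.log ‖((u : Ent) : ℂ → ℂ) (Complex.exp z)‖) 0 (R.s n) := rfl
  rw [← h7]
  linarith

/-- the absolute values -/
noncomputable def DzE : Dz ℂ Ent where
  Ω := ℕ × ℂ
  ev := evE R
  A := fun y ω => ‖(y : ℂ → ℂ) (Complex.exp ω.2)‖
  Neg := NegE R
  A_zero := Eventually.of_forall fun ω => by
    show ‖((0 : Ent) : ℂ → ℂ) (Complex.exp ω.2)‖ = 0
    exact norm_zero
  A_pos := fun y hy => (ev_evE R).2 fun n => by
    filter_upwards [ne_exp_cod hy (R.s n)] with z hz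
    exact norm_pos_iff.2 hz
  A_mul := fun x y => Eventually.of_forall fun ω => norm_mul _ _
  A_add := fun x y => Eventually.of_forall fun ω => norm_add_le _ _
  A_const := fun c => ⟨‖c‖, Eventually.of_forall fun ω => le_rfl⟩
  neg_mono := fun g g' hg h δ hδ => by
    filter_upwards [h δ hδ] with n hn
    obtain ⟨h0, h1, h2, h3⟩ := hn
    refine ⟨h0, h1, ?_, h3⟩
    filter_upwards [h2, (ev_evE R).1 hg n] with z h4 h5
    exact h5.trans h4
  neg_add := fun g g' h h' δ hδ => by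
    filter_upwards [h (δ / 2) (by positivity), h' (δ / 2) (by positivity)] with n hn hn'
    obtain ⟨h0, h1, h2, h3⟩ := hn
    obtain ⟨h0', h1', h2', h3'⟩ := hn'
    refine ⟨fun z => h0 z + h0' z, h1.add h1', ?_, ?_⟩
    · filter_upwards [h2, h2'] with z h4 h5
      exact add_le_add h4 h5
    · rw [Real.circleAverage_fun_add h1 h1']
      linarith
  neg_smul := fun g c hc h δ hδ => by
    filter_upwards [h (δ / (c + 1)) (by positivity)] with n hn
    obtain ⟨h0, h1, h2, h3⟩ := hn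
    refine ⟨fun z => c * h0 z, h1.const_smul (a := c), ?_, ?_⟩
    · filter_upwards [h2] with z h4
      exact mul_le_mul_of_nonneg_left h4 hc
    · have h4 : Real.circleAverage (fun z => c * h0 z) 0 (R.s n) =
          c * Real.circleAverage h0 0 (R.s n) := Real.circleAverage_fun_smul (a := c)
      rw [h4]
      have h5 := ch_nonneg' R n
      have h6 := mul_le_mul_of_nonneg_left h3 hc
      have h7 : c * (δ / (c + 1) * (cv f hf).ch (R.s n)) ≤ δ * (cv f hf).ch (R.s n) := by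
        rw [← mul_assoc]
        refine mul_le_mul_of_nonneg_right ?_ h5
        rw [← mul_div_assoc, div_le_iff₀ (by linarith)]
        nlinarith
      exact h6.trans h7
  neg_const := fun c δ hδ => by
    filter_upwards [ch_large R |c| δ hδ] with n hn
    refine ⟨fun _ => c, circleIntegrable_const _ _ _, Eventually.of_forall fun z => le_rfl, ?_⟩
    rw [Real.circleAverage_const]
    have h5 : 0 ≤ Real.log (1 / R.e n) := Real.log_nonneg (by
      rw [le_div_iff₀ (R.he n).1, one_mul]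
      exact (R.he n).2)
    have h6 := Real.log_nonneg (show (1 : ℝ) ≤ R.s n by linarith [s_ge R n])
    have h7 := abs_nonneg c
    have h8 := le_abs_self c
    have h9 : 0 ≤ |c| * Real.log (1 / R.e n) := mul_nonneg h7 h5
    have h10 : 0 ≤ |c| * (1 + Real.log (R.s n)) := mul_nonneg h7 (by linarith)
    linarith
  unit_neg := fun u => NegE_unit R u

/-- **the second main theorem** -/
theorem smtE {M : ℕ} {κ : Type} [Finite κ] (B : κ → Fin M → Ent)
    (hB : ∀ c, LinearIndependent ℂ (B c))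
    (hspan : ∀ c c', Submodule.span ℂ (Set.range (B c)) = Submodule.span ℂ (Set.range (B c')))
    (hfB : ∀ c a, ∃ i, f i = B c a) (sel : ℕ × ℂ → κ) :
    (DzE R).Neg fun ω => -∑ a, (DzE R).lg (B (sel ω) a) ω := by
  classical
  have := Fintype.ofFinite κ
  intro δ hδ
  let c0 : κ := sel (0, 0)
  -- the determinants
  have hdet : ∀ c, ∃ d : ℂ, d ≠ 0 ∧ wrE (B c) = algebraMap ℂ Ent d * wrE (B c0) := by
    intro c
    have h1 : ∀ b, ∃ A : Fin M → ℂ, B c b = ∑ a, A a • B c0 a := by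
      intro b
      have h2 : B c b ∈ Submodule.span ℂ (Set.range (B c0)) := by
        rw [hspan c0 c]
        exact Submodule.subset_span ⟨b, rfl⟩
      obtain ⟨A, hA⟩ := (Submodule.mem_span_range_iff_exists_fun ℂ).1 h2
      exact ⟨A, hA.symm⟩
    choose A hA using h1
    have h3 := wrE_change (B c) (B c0) (Matrix.of A) hA
    refine ⟨(Matrix.of A).det, fun h0 => ?_, h3⟩
    rw [h0, map_zero, zero_mul] at h3
    exact wrE_ne f hf R (B c) (hB c) h3
  choose d hd0 hd using hdet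
  -- the upper bound for the Wronskians
  have hup : ∀ c, ∃ C : ℝ, 0 < C ∧ ∀ n z, ‖z‖ = R.s n →
      ‖((wrE (B c) : Ent) : ℂ → ℂ) (Complex.exp z)‖ ≤
        C * Real.exp (∑ a, Real.log ‖(B c a : ℂ → ℂ) (Complex.exp z)‖) *
          (1 / R.e n) ^ (M ^ 2) := by
    intro c
    choose i hi using hfB c
    have h1 : ∀ a, Ctl R (ps f hf (B c a)) (fun z => (cv f hf).lam z (Pi.single (i a) 1))
        (fun z => (cv f hf).del z (Pi.single (i a) 1)) ∅ 0 := by
      intro a
      rw [← hi a, ps_mon]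
      exact (a_ctl N (cv f hf) F R ∅).1 _
    obtain ⟨C, hC0, hC⟩ := (a_wr N (cv f hf) F R M (fun b => ps f hf (B c b))).2.2.2 ∅ 0
      (fun a z => (cv f hf).lam z (Pi.single (i a) 1))
      (fun a z => (cv f hf).del z (Pi.single (i a) 1)) h1
    refine ⟨C, hC0, fun n z hz => ?_⟩
    have h2 := hC n z hz
    rw [wrd_ps, val_ps f hf _ (s_U R n hz)] at h2
    refine h2.trans (le_of_eq ?_)
    congr 1
    · congr 2
      rw [Finset.sum_empty, mul_zero, add_zero]
      refine Finset.sum_congr rfl fun a _ => ?_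
      unfold Curve.lam
      rw [Finset.sum_eq_single (i a)]
      · rw [Pi.single_eq_same, Int.cast_one, one_mul, cv_X0, cv_Xs, norm_one, Real.log_one,
          sub_zero, hi a]
      · intro j _ hj
        rw [Pi.single_eq_of_ne hj, Int.cast_zero, zero_mul]
      · intro h
        exact absurd (Finset.mem_univ _) h
    · congr 1
      ring
  choose C hC0 hC using hup
  obtain ⟨CJ, hCJ0, hCJ⟩ := jen R (wrE (B c0)) (wrE_ne f hf R (B c0) (hB c0))
  let K : ℝ := ∑ c, (|Real.log (C c)| + |Real.log ‖d c‖|)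
  have hK : ∀ c, |Real.log (C c)| + |Real.log ‖d c‖| ≤ K := fun c =>
    Finset.single_le_sum (f := fun c => |Real.log (C c)| + |Real.log ‖d c‖|)
      (fun c _ => by positivity) (Finset.mem_univ c)
  have hK0 : 0 ≤ K := Finset.sum_nonneg fun c _ => by positivity
  have hW0 := wrE_ne f hf R (B c0) (hB c0)
  have hci : ∀ ρ, CircleIntegrable
      (fun z => -Real.log ‖((wrE (B c0) : Ent) : ℂ → ℂ) (Complex.exp z)‖) 0 ρ := fun ρ =>
    (ci_exp (wrE (B c0)) ρ).neg
  filter_upwards [ch_large R (CJ + K + (M : ℝ) ^ 2) δ hδ] with n hn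
  refine ⟨fun z => -Real.log ‖((wrE (B c0) : Ent) : ℂ → ℂ) (Complex.exp z)‖ +
    (K + (M : ℝ) ^ 2 * Real.log (1 / R.e n)), (hci _).add
      (circleIntegrable_const _ _ _), ?_, ?_⟩
  · have hsph : ∀ᶠ z in codiscreteWithin (sphere (0 : ℂ) |R.s n|), z ∈ sphere (0 : ℂ) |R.s n| :=
      Filter.self_mem_codiscreteWithin _
    have hBne : ∀ᶠ z in codiscreteWithin (sphere (0 : ℂ) |R.s n|),
        ∀ c ∈ (Finset.univ : Finset κ), ∀ a ∈ (Finset.univ : Finset (Fin M)),
        (B c a : ℂ → ℂ) (Complex.exp z) ≠ 0 := by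
      refine (Filter.eventually_all_finset _).2 fun c _ => ?_
      refine (Filter.eventually_all_finset _).2 fun a _ => ?_
      exact ne_exp_cod ((hB c).ne_zero a) _
    filter_upwards [hsph, ne_exp_cod hW0 (R.s n), hBne] with z h1 h2 h3
    rw [mem_sphere_zero_iff_norm, abs_of_pos (by linarith [s_ge R n])] at h1
    set c := sel (n, z) with hc
    have h4 := hC c n z h1
    have h5 : ((wrE (B c) : Ent) : ℂ → ℂ) (Complex.exp z) =
        d c * ((wrE (B c0) : Ent) : ℂ → ℂ) (Complex.exp z) := by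
      rw [hd c]
      rfl
    rw [h5, norm_mul] at h4
    have hd0' : 0 < ‖d c‖ := norm_pos_iff.2 (hd0 c)
    have hw0' : 0 < ‖((wrE (B c0) : Ent) : ℂ → ℂ) (Complex.exp z)‖ := norm_pos_iff.2 h2
    have he0 : 0 < 1 / R.e n := by
      have := (R.he n).1
      positivity
    have h6 := Real.log_le_log (mul_pos hd0' hw0') h4
    rw [Real.log_mul hd0'.ne' hw0'.ne', Real.log_mul (mul_pos (hC0 c) (Real.exp_pos _)).ne'
      (pow_pos he0 _).ne', Real.log_mul (hC0 c).ne' (Real.exp_pos _).ne', Real.log_exp,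
      Real.log_pow] at h6
    have h7 := hK c
    have h8 := le_abs_self (Real.log (C c))
    have h9 := neg_abs_le (Real.log ‖d c‖)
    show -∑ a, Real.log ‖(B c a : ℂ → ℂ) (Complex.exp z)‖ ≤ _
    push_cast at h6
    linarith
  · rw [Real.circleAverage_fun_add (hci _) (circleIntegrable_const _ _ _),
      Real.circleAverage_const]
    have h1 : Real.circleAverage
        (fun z => -Real.log ‖((wrE (B c0) : Ent) : ℂ → ℂ) (Complex.exp z)‖) 0 (R.s n) =
        -mn (wrE (B c0)) (R.s n) := by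
      have h2 : Real.circleAverage
        (fun z => (-1 : ℝ) • Real.log ‖((wrE (B c0) : Ent) : ℂ → ℂ) (Complex.exp z)‖) 0 (R.s n) =
        (-1 : ℝ) • mn (wrE (B c0)) (R.s n) := Real.circleAverage_fun_smul (a := (-1 : ℝ))
      simpa using h2
    rw [h1]
    have h2 := (abs_le.1 (hCJ n)).1
    have h3 := ct_nonneg (f := f) (hf := hf) (wrE (B c0)) (R.s n)
    have h5 : 0 ≤ Real.log (1 / R.e n) := Real.log_nonneg (by
      rw [le_div_iff₀ (R.he n).1, one_mul]
      exact (R.he n).2)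
    have h6 := Real.log_nonneg (show (1 : ℝ) ≤ R.s n by linarith [s_ge R n])
    have e1 : 0 ≤ K * Real.log (R.s n) := mul_nonneg hK0 h6
    have e2 : 0 ≤ (M : ℝ) ^ 2 * Real.log (R.s n) := mul_nonneg (by positivity) h6
    have e3 : 0 ≤ CJ * Real.log (1 / R.e n) := mul_nonneg hCJ0 h5
    have e4 : 0 ≤ K * Real.log (1 / R.e n) := mul_nonneg hK0 h5
    have e5 : (0 : ℝ) ≤ (M : ℝ) ^ 2 := by positivity
    nlinarith

end rad

end Pool.Agent.H21bl.TC
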