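import Mathlib
import Pool.Agent.H21bl.TC.Dz
import Pool.Agent.H21bl.CC.Bas

/-!
Sizes of Laurent polynomials in units and of roots of monic polynomials.
-/

set_option autoImplicit false
set_option linter.unusedSectionVars false

open Finset Filter

namespace Pool.Agent.H21bl.TC

open Pool.Agent.N754.LT Pool.Agent.H21bl.CC

section sizes

variable {k R : Type} [Field k] [CommRing R] [IsDomain R] [Algebra k R] (D : Dz k R) {r : ℕ}
  (s : Fin r → Rˣ)

/-- the logarithms of the units -/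
noncomputable def LZ (ω : D.Ω) : Fin r → ℝ := fun j => D.lg (s j : R) ω

theorem lg_mo (b : Fin r → ℤ) : ∀ᶠ ω in D.ev, D.lg (mo s b : R) ω = dt b (LZ D s ω) := by
  have h1 : ∀ᶠ ω in D.ev, ∀ j ∈ (Finset.univ : Finset (Fin r)),
      D.lg ((s j ^ b j : Rˣ) : R) ω = b j * D.lg (s j) ω :=
    (Filter.eventually_all_finset _).2 fun j _ => D.lg_zpow (s j) (b j)
  have h2 := D.lg_prod Finset.univ (fun j => ((s j ^ b j : Rˣ) : R)) fun j _ => Units.ne_zero _
  filter_upwards [h1, h2] with ω h3 h4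
  unfold mo
  rw [Units.coe_prod, h4]
  unfold dt LZ
  exact Finset.sum_congr rfl fun j hj => h3 j hj

theorem A_mo (b : Fin r → ℤ) : ∀ᶠ ω in D.ev, D.A (mo s b : R) ω = Real.exp (dt b (LZ D s ω)) := by
  filter_upwards [lg_mo D s b, D.A_pos (mo s b : R) (Units.ne_zero _)] with ω h1 h2
  rw [← h1]
  unfold Dz.lg
  rw [Real.exp_log h2]

theorem A_ev (p : La k r) : ∃ C : ℝ, 0 < C ∧ ∀ᶠ ω in D.ev, ∀ w : ℝ,
    (∀ b ∈ p.coeff.support, dt b (LZ D s ω) ≤ w) → D.A (ev s p) ω ≤ C * Real.exp w := by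
  classical
  choose C hC using fun b => D.A_const (p.coeff b)
  refine ⟨∑ b ∈ p.coeff.support, |C b| + 1, by positivity, ?_⟩
  have h1 : ∀ᶠ ω in D.ev, ∀ b ∈ p.coeff.support,
      D.A (p.coeff b • (mo s b : R)) ω ≤ |C b| * D.A (mo s b : R) ω := by
    refine (Filter.eventually_all_finset _).2 fun b _ => ?_
    filter_upwards [hC b, D.A_mul (algebraMap k R (p.coeff b)) (mo s b : R),
      D.A_nonneg (mo s b : R)] with ω h1 h2 h3
    rw [Algebra.smul_def, h2]
    exact mul_le_mul_of_nonneg_right (h1.trans (le_abs_self _)) h3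
  have h2 : ∀ᶠ ω in D.ev, ∀ b ∈ p.coeff.support,
      D.A (mo s b : R) ω = Real.exp (dt b (LZ D s ω)) :=
    (Filter.eventually_all_finset _).2 fun b _ => A_mo D s b
  filter_upwards [h1, h2, D.A_sum p.coeff.support (fun b => p.coeff b • (mo s b : R))]
    with ω g1 g2 g3 w hw
  rw [ev_apply]
  refine g3.trans ?_
  have h4 : ∑ b ∈ p.coeff.support, D.A (p.coeff b • (mo s b : R)) ω ≤
      ∑ b ∈ p.coeff.support, |C b| * Real.exp w := by
    refine Finset.sum_le_sum fun b hb => (g1 b hb).trans ?_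
    rw [g2 b hb]
    exact mul_le_mul_of_nonneg_left (Real.exp_le_exp.2 (hw b hb)) (abs_nonneg _)
  refine h4.trans ?_
  rw [← Finset.sum_mul]
  have := Real.exp_pos w
  nlinarith

theorem neg_dt (b : Fin r → ℤ) : D.Neg fun ω => dt b (LZ D s ω) := by
  refine D.neg_mono _ _ ?_ (D.unit_neg' (mo s b))
  filter_upwards [lg_mo D s b] with ω h
  rw [h]

theorem neg_lin (μ : Fin r → ℝ) : D.Neg fun ω => ∑ j, μ j * LZ D s ω j := by
  refine D.neg_sum Finset.univ (fun j ω => μ j * LZ D s ω j) fun j _ => ?_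
  rcases le_total 0 (μ j) with h | h
  · exact D.neg_smul _ _ h (D.unit_neg' (s j))
  · refine D.neg_mono _ _ (Eventually.of_forall fun ω => ?_)
      (D.neg_smul _ (-μ j) (by linarith) (D.unit_neg_inv (s j)))
    show μ j * D.lg (s j : R) ω ≤ -μ j * -D.lg (s j : R) ω
    linarith

omit [IsDomain R] in
theorem evp_C (y : R) (p : La k r) : evp s y (Polynomial.C p) = ev s p := by
  unfold evp
  rw [Polynomial.coe_eval₂RingHom, Polynomial.eval₂_C]
  rfl

omit [IsDomain R] in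
theorem evp_X (y : R) : evp (k := k) s y Polynomial.X = y := by
  unfold evp
  rw [Polynomial.coe_eval₂RingHom, Polynomial.eval₂_X]

omit [IsDomain R] in
theorem evp_sum (y : R) (E : Polynomial (La k r)) (e : ℕ) (hE : E.natDegree ≤ e) :
    evp s y E = ∑ j ∈ Finset.range (e + 1), ev s (E.coeff j) * y ^ j := by
  conv_lhs => rw [E.as_sum_range' (e + 1) (by omega)]
  rw [map_sum]
  refine Finset.sum_congr rfl fun j _ => ?_
  rw [← Polynomial.C_mul_X_pow_eq_monomial, map_mul, map_pow, evp_C, evp_X]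

/-- a constant which bounds exponents -/
theorem exists_C0 (Φ : Polynomial (La k r)) :
    ∃ C0 : ℝ, 0 ≤ C0 ∧ ∀ j, ∀ b ∈ (Φ.coeff j).coeff.support, ∀ L : Fin r → ℝ,
      dt b L ≤ C0 * ‖L‖ := by
  classical
  let T : Finset (Fin r → ℤ) := (Finset.range (Φ.natDegree + 1)).biUnion fun j =>
    (Φ.coeff j).coeff.support
  refine ⟨∑ b ∈ T, ∑ j, |(b j : ℝ)|, Finset.sum_nonneg fun _ _ => Finset.sum_nonneg fun _ _ =>
    abs_nonneg _, fun j b hb L => ?_⟩
  have hbT : b ∈ T := by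
    refine Finset.mem_biUnion.2 ⟨j, Finset.mem_range.2 ?_, hb⟩
    by_contra hcon
    push Not at hcon
    rw [Polynomial.coeff_eq_zero_of_natDegree_lt (by omega)] at hb
    simp at hb
  refine (le_abs_self _).trans ((abs_dt_le b L).trans ?_)
  refine mul_le_mul_of_nonneg_right ?_ (norm_nonneg _)
  exact Finset.single_le_sum (f := fun b : Fin r → ℤ => ∑ j, |(b j : ℝ)|)
        (fun b _ => Finset.sum_nonneg fun j _ => abs_nonneg _) hbT

/-- the size of a root of a monic polynomial -/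
theorem A_y (Φ : Polynomial (La k r)) (hΦ : Φ.Monic) (he : 0 < Φ.natDegree) (y : R)
    (hy : evp s y Φ = 0) (C0 : ℝ) (hC0 : 0 ≤ C0)
    (hC : ∀ j, ∀ b ∈ (Φ.coeff j).coeff.support, ∀ L : Fin r → ℝ, dt b L ≤ C0 * ‖L‖) :
    ∃ C1 : ℝ, 1 ≤ C1 ∧ ∀ᶠ ω in D.ev, D.A y ω ≤ C1 * Real.exp (C0 * ‖LZ D s ω‖) := by
  classical
  set e := Φ.natDegree with hedef
  choose C hCpos hCb using fun j => A_ev D s (-(Φ.coeff j))
  refine ⟨∑ j ∈ Finset.range e, C j + 1, ?_, ?_⟩
  · have : 0 ≤ ∑ j ∈ Finset.range e, C j := Finset.sum_nonneg fun j _ => (hCpos j).le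
    linarith
  have hye : y ^ e = ∑ j ∈ Finset.range e, ev s (-(Φ.coeff j)) * y ^ j := by
    have h1 := evp_sum s y Φ e le_rfl
    rw [hy, Finset.sum_range_succ] at h1
    have h2 : Φ.coeff e = 1 := hΦ
    rw [h2, map_one, one_mul] at h1
    have h3 : y ^ e = -∑ j ∈ Finset.range e, ev s (Φ.coeff j) * y ^ j := by
      rw [eq_neg_iff_add_eq_zero, add_comm]
      exact h1.symm
    rw [h3, ← Finset.sum_neg_distrib]
    refine Finset.sum_congr rfl fun j _ => ?_
    rw [map_neg, neg_mul]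
  have ev1 : ∀ᶠ ω in D.ev, ∀ j ∈ Finset.range e,
      (∀ w : ℝ, (∀ b ∈ (-(Φ.coeff j)).coeff.support, dt b (LZ D s ω) ≤ w) →
        D.A (ev s (-(Φ.coeff j))) ω ≤ C j * Real.exp w) ∧
      D.A (ev s (-(Φ.coeff j)) * y ^ j) ω = D.A (ev s (-(Φ.coeff j))) ω * D.A y ω ^ j := by
    refine (Filter.eventually_all_finset _).2 fun j _ => ?_
    filter_upwards [hCb j, D.A_mul (ev s (-(Φ.coeff j))) (y ^ j), D.A_pow y j] with ω h1 h2 h3
    exact ⟨h1, by rw [h2, h3]⟩
  filter_upwards [ev1, D.A_sum (Finset.range e) (fun j => ev s (-(Φ.coeff j)) * y ^ j),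
    D.A_pow y e, D.A_nonneg y] with ω h1 h2 h3 h4
  set X := Real.exp (C0 * ‖LZ D s ω‖) with hX
  have hX1 : 1 ≤ X := Real.one_le_exp (by positivity)
  have hS : 0 ≤ ∑ j ∈ Finset.range e, C j := Finset.sum_nonneg fun j _ => (hCpos j).le
  rcases le_total (D.A y ω) 1 with hle | hge
  · refine hle.trans ?_
    nlinarith
  · rw [← hye, h3] at h2
    have h5 : ∀ j ∈ Finset.range e, D.A (ev s (-(Φ.coeff j)) * y ^ j) ω ≤
        C j * X * D.A y ω ^ (e - 1) := by
      intro j hj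
      obtain ⟨g1, g2⟩ := h1 j hj
      rw [g2]
      have h6 := g1 (C0 * ‖LZ D s ω‖) (fun b hb => hC j b (by
        have h7 : (-(Φ.coeff j)).coeff.support = (Φ.coeff j).coeff.support := by
          ext b
          rw [Finsupp.mem_support_iff, Finsupp.mem_support_iff, AddMonoidAlgebra.coeff_neg,
            Finsupp.neg_apply, neg_ne_zero]
        rwa [h7] at hb) _)
      refine mul_le_mul h6 ?_ (pow_nonneg h4 _) (mul_nonneg (hCpos j).le (Real.exp_pos _).le)
      exact pow_le_pow_right₀ hge (by have := Finset.mem_range.1 hj; omega)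
    have h6 := h2.trans (Finset.sum_le_sum h5)
    rw [← Finset.sum_mul, ← Finset.sum_mul] at h6
    have h7 : D.A y ω ^ e = D.A y ω * D.A y ω ^ (e - 1) := by
      rw [← pow_succ']
      congr 1
      omega
    rw [h7] at h6
    have h8 := le_of_mul_le_mul_right h6 (pow_pos (by linarith) _)
    nlinarith

/-- the size of the value of a polynomial -/
theorem A_eval (E : Polynomial (La k r)) (e : ℕ) (hE : E.natDegree ≤ e) (y : R) (C0 C1 : ℝ)
    (hC0 : 0 ≤ C0) (hC1 : 1 ≤ C1)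
    (hy : ∀ᶠ ω in D.ev, D.A y ω ≤ C1 * Real.exp (C0 * ‖LZ D s ω‖)) :
    ∃ C : ℝ, 0 < C ∧ ∀ᶠ ω in D.ev, ∀ m : ℝ,
      (∀ j, ∀ b ∈ (E.coeff j).coeff.support, dt b (LZ D s ω) ≤ m) →
      D.A (evp s y E) ω ≤ C * Real.exp (m + e * C0 * ‖LZ D s ω‖) := by
  classical
  choose C hCpos hCb using fun j => A_ev D s (E.coeff j)
  refine ⟨∑ j ∈ Finset.range (e + 1), C j * C1 ^ e + 1, ?_, ?_⟩
  · have : 0 ≤ ∑ j ∈ Finset.range (e + 1), C j * C1 ^ e :=
      Finset.sum_nonneg fun j _ => mul_nonneg (hCpos j).le (by positivity)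
    linarith
  have ev1 : ∀ᶠ ω in D.ev, ∀ j ∈ Finset.range (e + 1),
      (∀ w : ℝ, (∀ b ∈ (E.coeff j).coeff.support, dt b (LZ D s ω) ≤ w) →
        D.A (ev s (E.coeff j)) ω ≤ C j * Real.exp w) ∧
      D.A (ev s (E.coeff j) * y ^ j) ω = D.A (ev s (E.coeff j)) ω * D.A y ω ^ j := by
    refine (Filter.eventually_all_finset _).2 fun j _ => ?_
    filter_upwards [hCb j, D.A_mul (ev s (E.coeff j)) (y ^ j), D.A_pow y j] with ω h1 h2 h3
    exact ⟨h1, by rw [h2, h3]⟩
  filter_upwards [ev1, D.A_sum (Finset.range (e + 1)) (fun j => ev s (E.coeff j) * y ^ j),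
    hy, D.A_nonneg y] with ω h1 h2 h3 h4 m hm
  rw [evp_sum s y E e hE]
  refine h2.trans ?_
  set X := Real.exp (C0 * ‖LZ D s ω‖) with hX
  have hX1 : 1 ≤ X := Real.one_le_exp (by positivity)
  have hCX : 1 ≤ C1 * X := by nlinarith
  have h5 : ∀ j ∈ Finset.range (e + 1), D.A (ev s (E.coeff j) * y ^ j) ω ≤
      C j * C1 ^ e * Real.exp (m + e * C0 * ‖LZ D s ω‖) := by
    intro j hj
    obtain ⟨g1, g2⟩ := h1 j hj
    rw [g2]
    have h6 := g1 m (hm j)
    have h7 : D.A y ω ^ j ≤ (C1 * X) ^ e :=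
      (pow_le_pow_left₀ h4 h3 j).trans (pow_le_pow_right₀ hCX (by
        have := Finset.mem_range.1 hj; omega))
    have h8 := mul_le_mul h6 h7 (pow_nonneg h4 _) (mul_nonneg (hCpos j).le (Real.exp_pos _).le)
    refine h8.trans (le_of_eq ?_)
    rw [mul_pow, hX, ← Real.exp_nat_mul, Real.exp_add]
    have h9 : (e : ℝ) * (C0 * ‖LZ D s ω‖) = e * C0 * ‖LZ D s ω‖ := by ring
    rw [h9]
    ring
  refine (Finset.sum_le_sum h5).trans ?_
  rw [← Finset.sum_mul]
  have := Real.exp_pos (m + e * C0 * ‖LZ D s ω‖)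
  nlinarith

/-- the algebra generated by `y` and the units -/
def adj (y : R) : Subalgebra k R := Algebra.adjoin k
  (insert y (Set.range (fun j => (s j : R)) ∪ Set.range (fun j => (((s j)⁻¹ : Rˣ) : R))))

omit [IsDomain R] in
theorem y_mem_adj (y : R) : y ∈ adj (k := k) s y := Algebra.subset_adjoin (Set.mem_insert _ _)

omit [IsDomain R] in
theorem mo_mem_adj (y : R) (b : Fin r → ℤ) : (mo s b : R) ∈ adj (k := k) s y := by
  unfold mo
  rw [Units.coe_prod]
  refine Subalgebra.prod_mem _ fun j _ => ?_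
  obtain ⟨m, h | h⟩ := (b j).eq_nat_or_neg
  · rw [h, zpow_natCast, Units.val_pow_eq_pow_val]
    have h1 : (s j : R) ∈ adj (k := k) s y :=
      Algebra.subset_adjoin (Set.mem_insert_of_mem _ (Or.inl ⟨j, rfl⟩))
    exact pow_mem h1 m
  · rw [h, zpow_neg, zpow_natCast, ← inv_pow, Units.val_pow_eq_pow_val]
    have h1 : (((s j)⁻¹ : Rˣ) : R) ∈ adj (k := k) s y :=
      Algebra.subset_adjoin (Set.mem_insert_of_mem _ (Or.inr ⟨j, rfl⟩))
    exact pow_mem h1 m

omit [IsDomain R] in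
theorem ev_mem_adj (y : R) (p : La k r) : ev s p ∈ adj (k := k) s y := by
  rw [ev_apply]
  exact Subalgebra.sum_mem _ fun b _ => Subalgebra.smul_mem _ (mo_mem_adj s y b) _

/-- the size of the elements of the algebra -/
theorem A_adj (y : R) (C0 C1 : ℝ) (hC0 : 0 ≤ C0) (hC1 : 1 ≤ C1)
    (hy : ∀ᶠ ω in D.ev, D.A y ω ≤ C1 * Real.exp (C0 * ‖LZ D s ω‖)) (x : R)
    (hx : x ∈ adj (k := k) s y) :
    ∃ C : ℝ, 1 ≤ C ∧ ∀ᶠ ω in D.ev, D.A x ω ≤ C * Real.exp (C * ‖LZ D s ω‖) := by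
  have hunit : ∀ (b : Fin r → ℤ), ∃ C : ℝ, 1 ≤ C ∧ ∀ᶠ ω in D.ev,
      D.A (mo s b : R) ω ≤ C * Real.exp (C * ‖LZ D s ω‖) := by
    intro b
    refine ⟨∑ j, |(b j : ℝ)| + 1, ?_, ?_⟩
    · have : 0 ≤ ∑ j, |(b j : ℝ)| := Finset.sum_nonneg fun _ _ => abs_nonneg _
      linarith
    filter_upwards [A_mo D s b] with ω h
    rw [h]
    have h0 : 0 ≤ ∑ j, |(b j : ℝ)| := Finset.sum_nonneg fun _ _ => abs_nonneg _
    have h1 := (le_abs_self _).trans (abs_dt_le b (LZ D s ω))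
    have h2 : dt b (LZ D s ω) ≤ (∑ j, |(b j : ℝ)| + 1) * ‖LZ D s ω‖ := by
      have := norm_nonneg (LZ D s ω)
      nlinarith
    have h3 := Real.exp_le_exp.2 h2
    have h4 := Real.exp_pos ((∑ j, |(b j : ℝ)| + 1) * ‖LZ D s ω‖)
    nlinarith
  have hsingle : ∀ (j : Fin r) (n : ℤ), mo s (Pi.single j n) = s j ^ n := by
    intro j n
    unfold mo
    rw [Finset.prod_eq_single j]
    · rw [Pi.single_eq_same]
    · intro i _ hi
      rw [Pi.single_eq_of_ne hi, zpow_zero]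
    · intro h
      exact absurd (Finset.mem_univ _) h
  induction hx using Algebra.adjoin_induction with
  | mem x hx =>
    rcases hx with rfl | ⟨j, rfl⟩ | ⟨j, rfl⟩
    · refine ⟨C0 + C1, by linarith, ?_⟩
      filter_upwards [hy] with ω h
      refine h.trans ?_
      have h1 : Real.exp (C0 * ‖LZ D s ω‖) ≤ Real.exp ((C0 + C1) * ‖LZ D s ω‖) := by
        apply Real.exp_le_exp.2
        have := norm_nonneg (LZ D s ω)
        nlinarith
      have h2 := Real.exp_pos (C0 * ‖LZ D s ω‖)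
      have h3 := Real.exp_pos ((C0 + C1) * ‖LZ D s ω‖)
      nlinarith
    · have h1 := hunit (Pi.single j 1)
      rw [hsingle, zpow_one] at h1
      exact h1
    · have h1 := hunit (Pi.single j (-1))
      rw [hsingle, zpow_neg_one] at h1
      exact h1
  | algebraMap c =>
    obtain ⟨C, hC⟩ := D.A_const c
    refine ⟨|C| + 1, by have := abs_nonneg C; linarith, ?_⟩
    filter_upwards [hC] with ω h
    have h1 := le_abs_self C
    have h2 := abs_nonneg C
    have h3 : 1 ≤ Real.exp ((|C| + 1) * ‖LZ D s ω‖) := Real.one_le_exp (by positivity)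
    nlinarith
  | add x y _ _ hx hy =>
    obtain ⟨C, h1, h2⟩ := hx
    obtain ⟨C', h1', h2'⟩ := hy
    refine ⟨C + C', by linarith, ?_⟩
    filter_upwards [h2, h2', D.A_add x y] with ω g1 g2 g3
    refine g3.trans ((add_le_add g1 g2).trans ?_)
    have hn := norm_nonneg (LZ D s ω)
    have e1 : Real.exp (C * ‖LZ D s ω‖) ≤ Real.exp ((C + C') * ‖LZ D s ω‖) :=
      Real.exp_le_exp.2 (by nlinarith)
    have e2 : Real.exp (C' * ‖LZ D s ω‖) ≤ Real.exp ((C + C') * ‖LZ D s ω‖) :=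
      Real.exp_le_exp.2 (by nlinarith)
    nlinarith
  | mul x y _ _ hx hy =>
    obtain ⟨C, h1, h2⟩ := hx
    obtain ⟨C', h1', h2'⟩ := hy
    refine ⟨C * C' + C + C', by nlinarith, ?_⟩
    filter_upwards [h2, h2', D.A_mul x y, D.A_nonneg x, D.A_nonneg y] with ω g1 g2 g3 g4 g5
    rw [g3]
    have hn := norm_nonneg (LZ D s ω)
    refine (mul_le_mul g1 g2 g5 (mul_nonneg (by linarith) (Real.exp_pos _).le)).trans ?_
    have e1 : C * Real.exp (C * ‖LZ D s ω‖) * (C' * Real.exp (C' * ‖LZ D s ω‖)) =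
        C * C' * Real.exp ((C + C') * ‖LZ D s ω‖) := by
      rw [add_mul, Real.exp_add]
      ring
    rw [e1]
    have e2 : Real.exp ((C + C') * ‖LZ D s ω‖) ≤ Real.exp ((C * C' + C + C') * ‖LZ D s ω‖) := by
      apply Real.exp_le_exp.2
      have : 0 ≤ C * C' := by nlinarith
      nlinarith [mul_nonneg this hn]
    have h5 : 0 ≤ C * C' := by nlinarith
    have h6 := Real.exp_pos ((C + C') * ‖LZ D s ω‖)
    have h7 := Real.exp_pos ((C * C' + C + C') * ‖LZ D s ω‖)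
    have h8 := mul_le_mul_of_nonneg_left e2 h5
    nlinarith

end sizes

end Pool.Agent.H21bl.TC
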