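import Mathlib
import Pool.Agent.H21bl.TC.Siz

/-!
The key estimate: roots of monic polynomials over the ring of Laurent polynomials in units, which
are split at infinity.
-/

set_option autoImplicit false
set_option linter.unusedSectionVars false

open Finset Filter Module

namespace Pool.Agent.H21bl.TC

open Pool.Agent.N754.LT Pool.Agent.H21bl.CC

section err

variable {k R : Type} [Field k] [CommRing R] [IsDomain R] [Algebra k R] {r : ℕ} (s : Fin r → Rˣ)

theorem err_deg (Φ : Polynomial (La k r)) (d : La k r) {e : ℕ} (Q : Fin e → La k r)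
    (he : Φ.natDegree = e) : (err Φ d Q).natDegree ≤ e := by
  unfold err
  refine (Polynomial.natDegree_sub_le _ _).trans (max_le ?_ ?_)
  · refine (Polynomial.natDegree_prod_le _ _).trans ?_
    have h1 : ∀ i ∈ (Finset.univ : Finset (Fin e)),
        (Polynomial.C d * Polynomial.X - Polynomial.C (Q i)).natDegree ≤ 1 := by
      intro i _
      refine (Polynomial.natDegree_sub_le _ _).trans (max_le ?_ ?_)
      · exact (Polynomial.natDegree_C_mul_le _ _).trans Polynomial.natDegree_X_le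
      · rw [Polynomial.natDegree_C]
        exact zero_le_one
    refine (Finset.sum_le_sum h1).trans ?_
    simp
  · exact (Polynomial.natDegree_C_mul_le _ _).trans he.le

theorem evp_err (Φ : Polynomial (La k r)) (y : R) (hy : evp s y Φ = 0) (d : La k r) {e : ℕ}
    (Q : Fin e → La k r) :
    ∏ i, (ev s d * y - ev s (Q i)) = evp s y (err Φ d Q) := by
  unfold err
  rw [map_sub, map_mul, hy, mul_zero, sub_zero, map_prod]
  refine Finset.prod_congr rfl fun i _ => ?_
  rw [map_sub, map_mul, evp_C, evp_C, evp_X]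

/-- the error is small in the direction `L` -/
def Good (Φ : Polynomial (La k r)) {e : ℕ} (N : ℝ) (d : Dat k r e) (L : Fin r → ℝ) : Prop :=
  ∀ j, ∀ b ∈ ((err Φ d.1 d.2.1).coeff j).coeff.support, dt b L ≤ e * dt d.2.2 L - N * ‖L‖

end err

section key

variable {k R : Type} [Field k] [CommRing R] [IsDomain R] [Algebra k R] {r : ℕ} (s : Fin r → Rˣ)

theorem key_fin (Φ : Polynomial (La k r)) {e : ℕ} (he : Φ.natDegree = e) (hΦ : Φ.Monic)
    (he0 : 0 < e) (y : R) (hy : evp s y Φ = 0) (C0 : ℝ) (hC0 : 0 ≤ C0)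
    (hC : ∀ j, ∀ b ∈ (Φ.coeff j).coeff.support, ∀ L : Fin r → ℝ, dt b L ≤ C0 * ‖L‖)
    (μ : Fin r → ℝ) (ε : ℝ) (hε : 0 < ε) (N : ℝ)
    (hN : e * C0 + 1 + ((e * C0 + 1) / ε) * ∑ j, |μ j| ≤ N)
    {ι : Type} [Fintype ι] (d : ι → Dat k r e) (hd : ∀ i, (d i).1.coeff (d i).2.2 ≠ 0)
    (hcov : ∀ L : Fin r → ℝ, (∃ i, Good Φ N (d i) L) ∨ ε * ‖L‖ ≤ ∑ j, μ j * L j)
    (hind : ∀ p q : La k r, ev s q * y = ev s p → q = 0) :
    ∃ (n : ℕ) (κ : Type) (_ : Finite κ) (fam : κ → Fin n → R),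
      (∀ c, LinearIndependent k (fam c)) ∧
      (∀ c c', Submodule.span k (Set.range (fam c)) = Submodule.span k (Set.range (fam c'))) ∧
      (∀ c i, fam c i ∈ adj (k := k) s y) ∧
      ∀ D : Dz k R, (∀ sel : D.Ω → κ, D.Neg fun ω => -∑ i, D.lg (fam (sel ω) i) ω) →
        D.Neg fun ω => ‖LZ D s ω‖ := by
  classical
  have hy0 : y ≠ 0 := by
    intro h
    have h1 := hind 0 1 (by rw [h, mul_zero, map_zero])
    exact one_ne_zero h1
  let K0 : ℝ := e * C0
  have hK0 : 0 ≤ K0 := by positivity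
  let Cm : ℝ := ∑ j, |μ j|
  have hCm : 0 ≤ Cm := Finset.sum_nonneg fun _ _ => abs_nonneg _
  have hCm' : ∀ L : Fin r → ℝ, -(Cm * ‖L‖) ≤ ∑ j, μ j * L j := by
    intro L
    have h1 : |∑ j, μ j * L j| ≤ Cm * ‖L‖ := by
      refine (Finset.abs_sum_le_sum_abs _ _).trans ?_
      rw [Finset.sum_mul]
      refine Finset.sum_le_sum fun j _ => ?_
      rw [abs_mul]
      exact mul_le_mul_of_nonneg_left (norm_le_pi_norm L j) (abs_nonneg _)
    exact (abs_le.1 h1).1
  let lam : ℝ := (K0 + 1) / ε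
  have hlam : 0 ≤ lam := by positivity
  have hlam' : lam * ε = K0 + 1 := div_mul_cancel₀ _ hε.ne'
  have hN' : K0 + 1 + lam * Cm ≤ N := hN
  let T : Finset (Fin r → ℤ) := Finset.univ.biUnion fun i => (d i).1.coeff.support
  let gg : ι → Fin e → R := fun i j => ev s (d i).1 * y - ev s ((d i).2.1 j)
  -- the index set
  let κs : Finset (ι × Fin e × (Fin r → ℤ)) :=
    ((Finset.univ : Finset ι) ×ˢ ((Finset.univ : Finset (Fin e)) ×ˢ T)).filter fun c =>
      ∃ L : Fin r → ℝ, Lead L (d c.1).1 c.2.2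
  let f : Option κs → La k r := fun o => o.elim 1 fun c => (d c.1.1).1
  let h : Option κs → La k r := fun o => o.elim 0 fun c => (d c.1.1).2.1 c.1.2.1
  let v : Option κs → Fin r → ℤ := fun o => o.elim 0 fun c => c.1.2.2
  let g' : Option κs → R := fun o => o.elim y fun c => gg c.1.1 c.1.2.1
  have hg' : ∀ o, ev s (f o) * y - ev s (h o) = g' o := by
    rintro (_ | c)
    · show ev s (1 : La k r) * y - ev s 0 = y
      rw [map_one, one_mul, map_zero, sub_zero]
    · rfl
  have hκ : ∀ c : κs, ∃ L : Fin r → ℝ, Lead L (d c.1.1).1 c.1.2.2 := fun c =>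
    (Finset.mem_filter.1 c.2).2
  have hlead : ∀ c : Option κs, ∃ L : Fin r → ℝ, Lead L (f c) (v c) := by
    rintro (_ | c)
    · exact ⟨0, Lead.one 0⟩
    · exact hκ c
  -- the boxes
  obtain ⟨K, hK⟩ := exists_bound (Finset.univ.biUnion fun c : Option κs => (f c).coeff.support)
  obtain ⟨K2, hK2⟩ := exists_bound (Finset.univ.biUnion fun c : Option κs => (h c).coeff.support)
  obtain ⟨n, hn1, hn⟩ := exists_size K r (2 * K0 + 1) (by positivity)
  let B' : Finset (Fin r → ℤ) := box K (n + K)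
  let B : Finset (Fin r → ℤ) := box 0 (n + 2 * K)
  let A : Finset (Fin r → ℤ) := box (K - K2) (n + K + K2)
  have hf : ∀ c, ∀ β ∈ B', ∀ b ∈ (f c).coeff.support, b + β ∈ B := by
    intro c β hβ b hb
    have h1 := hK b (Finset.mem_biUnion.2 ⟨c, Finset.mem_univ _, hb⟩)
    rw [mem_box] at hβ ⊢
    intro j
    have h2 := hβ j
    have h3 := abs_le.1 (h1 j)
    rw [Pi.add_apply]
    omega
  have hh : ∀ c, ∀ β ∈ B', ∀ b ∈ (h c).coeff.support, b + β ∈ A := by
    intro c β hβ b hb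
    have h1 := hK2 b (Finset.mem_biUnion.2 ⟨c, Finset.mem_univ _, hb⟩)
    rw [mem_box] at hβ ⊢
    intro j
    have h2 := hβ j
    have h3 := abs_le.1 (h1 j)
    rw [Pi.add_apply]
    omega
  have hvB : ∀ c, ∀ β ∈ B', v c + β ∈ B := by
    intro c β hβ
    obtain ⟨L, hL⟩ := hlead c
    exact hf c β hβ (v c) (Finsupp.mem_support_iff.2 hL.1)
  let E := Fintype.equivFin (A ⊕ B)
  have hrange : ∀ c, Set.range (fun i => bas s y A B B' (f c) (h c) (v c) (E.symm i)) =
      Set.range (bas s y A B B' (f c) (h c) (v c)) := fun c =>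
    E.symm.surjective.range_comp (bas s y A B B' (f c) (h c) (v c))
  refine ⟨Fintype.card (A ⊕ B), Option κs, inferInstance,
    fun c i => bas s y A B B' (f c) (h c) (v c) (E.symm i), fun c => ?_, fun c c' => ?_,
    fun c i => ?_, fun D hsmt => ?_⟩
  · obtain ⟨L, hL⟩ := hlead c
    exact (span_eq s hind hL (hf c) (hh c)).2.comp _ E.symm.injective
  · obtain ⟨L, hL⟩ := hlead c
    obtain ⟨L', hL'⟩ := hlead c'
    rw [hrange, hrange, ← (span_eq s hind hL (hf c) (hh c)).1,
      ← (span_eq s hind hL' (hf c') (hh c')).1]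
  · show bas s y A B B' (f c) (h c) (v c) (E.symm i) ∈ adj (k := k) s y
    rcases E.symm i with α | γ
    · simp only [bas, Sum.elim_inl]
      exact mo_mem_adj s y _
    · simp only [bas, Sum.elim_inr]
      split_ifs
      · exact mul_mem (sub_mem (mul_mem (ev_mem_adj s y _) (y_mem_adj s y)) (ev_mem_adj s y _))
          (mo_mem_adj s y _)
      · exact mul_mem (y_mem_adj s y) (mo_mem_adj s y _)
  -- the selection
  have hsel : ∀ ω : D.Ω, ∃ o : Option κs, (∃ c : κs, o = some c ∧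
      Good Φ N (d c.1.1) (LZ D s ω) ∧ Lead (LZ D s ω) (d c.1.1).1 c.1.2.2 ∧
      ∀ j, D.A (gg c.1.1 c.1.2.1) ω ≤ D.A (gg c.1.1 j) ω) ∨
      (o = none ∧ ε * ‖LZ D s ω‖ ≤ ∑ j, μ j * LZ D s ω j) := by
    intro ω
    rcases hcov (LZ D s ω) with ⟨i, hi⟩ | h1
    · obtain ⟨j, -, h4⟩ := (Finset.univ : Finset (Fin e)).exists_min_image
        (fun j => D.A (gg i j) ω) ⟨⟨0, he0⟩, Finset.mem_univ _⟩
      obtain ⟨v, hv⟩ := exists_lead (LZ D s ω) (d i).1 (by
        intro h0
        apply hd i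
        rw [h0]
        rfl)
      refine ⟨some ⟨(i, j, v), ?_⟩, Or.inl ⟨_, rfl, hi, hv, fun j' => h4 j' (Finset.mem_univ _)⟩⟩
      refine Finset.mem_filter.2 ⟨Finset.mem_product.2 ⟨Finset.mem_univ _,
        Finset.mem_product.2 ⟨Finset.mem_univ _, ?_⟩⟩, LZ D s ω, hv⟩
      exact Finset.mem_biUnion.2 ⟨i, Finset.mem_univ _, Finsupp.mem_support_iff.2 hv.1⟩
    · exact ⟨none, Or.inr ⟨rfl, h1⟩⟩
  choose sel hsel using hsel
  have hsmt' : D.Neg fun ω =>
      -∑ i, D.lg (bas s y A B B' (f (sel ω)) (h (sel ω)) (v (sel ω)) i) ω := by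
    refine D.neg_mono _ _ (Eventually.of_forall fun ω => ?_) (hsmt sel)
    rw [neg_le_neg_iff]
    refine le_of_eq ?_
    exact (E.symm.sum_comp fun i =>
      D.lg (bas s y A B B' (f (sel ω)) (h (sel ω)) (v (sel ω)) i) ω)
  -- nonvanishing
  have hg0 : ∀ c : Option κs, g' c ≠ 0 := by
    intro c h0
    rw [← hg'] at h0
    have h1 := hind _ _ (sub_eq_zero.1 h0)
    obtain ⟨L, hL⟩ := hlead c
    refine hL.1 ?_
    rw [h1]
    rfl
  obtain ⟨C1, hC1, hyb⟩ := A_y D s Φ hΦ (he ▸ he0) y hy C0 hC0 hC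
  choose CZ hCZ0 hCZ using fun i => A_eval D s (err Φ (d i).1 (d i).2.1) e
    (err_deg Φ _ _ he) y C0 C1 hC0 hC1 hyb
  let CC : ℝ := ∑ i, CZ i + 1
  have hCC : ∀ i, CZ i ≤ CC := by
    intro i
    have h1 := Finset.single_le_sum (f := CZ) (fun i _ => (hCZ0 i).le) (Finset.mem_univ i)
    simp only [CC]
    linarith
  have hCC0 : 0 < CC := by
    have h1 : 0 ≤ ∑ i, CZ i := Finset.sum_nonneg fun i _ => (hCZ0 i).le
    simp only [CC]
    linarith
  have ev1 : ∀ᶠ ω in D.ev, ∀ c ∈ (Finset.univ : Finset κs),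
      (∏ j, D.A (gg c.1.1 j) ω = D.A (evp s y (err Φ (d c.1.1).1 (d c.1.1).2.1)) ω ∧
      (∀ j ∈ (Finset.univ : Finset (Fin e)), 0 ≤ D.A (gg c.1.1 j) ω) ∧
      0 < D.A (gg c.1.1 c.1.2.1) ω ∧
      ∀ m : ℝ, (∀ j, ∀ b ∈ ((err Φ (d c.1.1).1 (d c.1.1).2.1).coeff j).coeff.support,
        dt b (LZ D s ω) ≤ m) →
      D.A (evp s y (err Φ (d c.1.1).1 (d c.1.1).2.1)) ω ≤
        CZ c.1.1 * Real.exp (m + e * C0 * ‖LZ D s ω‖)) := by
    refine (Filter.eventually_all_finset _).2 fun c _ => ?_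
    filter_upwards [hCZ c.1.1, D.A_prod Finset.univ (gg c.1.1),
      (Filter.eventually_all_finset (Finset.univ : Finset (Fin e))).2
        (fun j _ => D.A_nonneg (gg c.1.1 j)), D.A_pos _ (hg0 (some c))] with ω h1 h2 h3 h4
    refine ⟨?_, h3, h4, h1⟩
    rw [← h2]
    congr 1
    exact evp_err s Φ y hy _ _
  have ev2 : ∀ᶠ ω in D.ev, ∀ c ∈ (Finset.univ : Finset (Option κs)),
      ∀ i ∈ (Finset.univ : Finset (A ⊕ B)),
      D.lg (bas s y A B B' (f c) (h c) (v c) i) ω =
        Sum.elim (fun α => dt α.1 (LZ D s ω))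
          (fun γ => dt γ.1 (LZ D s ω) + if γ.1 - v c ∈ B' then
            D.lg (g' c) ω - dt (v c) (LZ D s ω) else D.lg y ω) i := by
    refine (Filter.eventually_all_finset _).2 fun c _ => ?_
    refine (Filter.eventually_all_finset _).2 fun i _ => ?_
    rcases i with α | γ
    · simp only [bas, Sum.elim_inl]
      exact lg_mo D s α.1
    · simp only [bas, Sum.elim_inr]
      by_cases hγ : γ.1 - v c ∈ B'
      · simp only [if_pos hγ]
        filter_upwards [D.lg_mul (g' c) (mo s (γ.1 - v c) : R) (hg0 c)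
          (Units.ne_zero _), lg_mo D s (γ.1 - v c)] with ω h1 h2
        rw [hg', h1, h2, dt_sub]
        ring
      · simp only [if_neg hγ]
        filter_upwards [D.lg_mul y (mo s γ.1 : R) hy0 (Units.ne_zero _), lg_mo D s γ.1]
          with ω h1 h2
        rw [h1, h2]
        ring
  -- cardinalities
  have hcB' : (B'.card : ℝ) = (n : ℝ) ^ r := by
    simp only [B']
    rw [card_box]
    have : ((n : ℤ) + K - K).toNat = n := by omega
    rw [this]
    push_cast
    rfl
  have hcB : (B.card : ℝ) = ((n + 2 * K : ℕ) : ℝ) ^ r := by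
    simp only [B]
    rw [card_box]
    have : ((n : ℤ) + 2 * K - 0).toNat = n + 2 * K := by omega
    rw [this]
    push_cast
    rfl
  have hcard : ∀ c : Option κs, (B.filter fun γ => γ - v c ∈ B').card = B'.card := fun c =>
    card_filter_box (v c) (hvB c)
  have hsum : ∀ (c : Option κs) (a b : ℝ), ∑ γ : B, (if γ.1 - v c ∈ B' then a else b) =
      B'.card * a + ((B.card : ℝ) - B'.card) * b := by
    intro c a b
    rw [Finset.sum_coe_sort B (fun γ => if γ - v c ∈ B' then a else b), Finset.sum_ite,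
      Finset.sum_const, Finset.sum_const, hcard c, nsmul_eq_mul, nsmul_eq_mul]
    congr 2
    have h1 := Finset.card_filter_add_card_filter_not (s := B) (fun γ => γ - v c ∈ B')
    rw [hcard c] at h1
    rw [← h1]
    push_cast
    ring
  have hBB' : 0 ≤ (B.card : ℝ) - B'.card := by
    rw [sub_nonneg, hcB, hcB']
    refine pow_le_pow_left₀ (by positivity) ?_ r
    push_cast
    have : (0 : ℝ) ≤ K := by positivity
    linarith
  have hBB'' : ((B.card : ℝ) - B'.card) * (2 * K0) ≤ B'.card := by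
    have h1 : ((B.card : ℝ) - B'.card) * (2 * K0 + 1) ≤ B'.card := by
      rw [hcB, hcB']
      exact hn
    nlinarith
  have hB1 : (1 : ℝ) ≤ B'.card := by
    rw [hcB']
    exact one_le_pow₀ (by exact_mod_cast hn1)
  have he' : (0 : ℝ) < e := by exact_mod_cast he0
  -- the final estimate
  have hlC1 : 0 ≤ Real.log C1 := Real.log_nonneg hC1
  let c1 : ℝ := |Real.log CC| + e * Real.log C1
  let cst : ℝ := B'.card * c1 + ((B.card : ℝ) - B'.card) * (e * Real.log C1)
  have hfin : ∀ᶠ ω in D.ev, ‖LZ D s ω‖ ≤ (2 * e) *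
      ((-∑ i, D.lg (bas s y A B B' (f (sel ω)) (h (sel ω)) (v (sel ω)) i) ω) +
      (dt (∑ α ∈ A, α) (LZ D s ω) + dt (∑ γ ∈ B, γ) (LZ D s ω))) +
      (2 * B'.card * lam * (∑ j, μ j * LZ D s ω j) + 2 * cst) := by
    filter_upwards [ev1, ev2, hyb, D.A_pos y hy0] with ω h1 h2 h3 h5
    have hselω := hsel ω
    set L := LZ D s ω with hL
    set o := sel ω with ho
    have hLn : 0 ≤ ‖L‖ := norm_nonneg _
    -- the sum
    have e1 : ∑ i, D.lg (bas s y A B B' (f o) (h o) (v o) i) ω =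
        dt (∑ α ∈ A, α) L + dt (∑ γ ∈ B, γ) L +
        (B'.card * (D.lg (g' o) ω - dt (v o) L) +
          ((B.card : ℝ) - B'.card) * D.lg y ω) := by
      rw [Finset.sum_congr rfl fun i hi => h2 o (Finset.mem_univ _) i hi, Fintype.sum_sum_type]
      simp only [Sum.elim_inl, Sum.elim_inr]
      rw [Finset.sum_add_distrib, hsum, dt_sum, dt_sum, Finset.sum_coe_sort A (fun α => dt α L),
        Finset.sum_coe_sort B (fun α => dt α L)]
      ring
    have e3 : (e : ℝ) * D.lg y ω ≤ e * Real.log C1 + K0 * ‖L‖ := by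
      have m2 := Real.log_le_log h5 h3
      rw [Real.log_mul (by linarith) (Real.exp_pos _).ne', Real.log_exp] at m2
      have m3 := mul_le_mul_of_nonneg_left m2 he'.le
      simp only [K0]
      have m4 : D.lg y ω = Real.log (D.A y ω) := rfl
      rw [m4]
      nlinarith
    -- the approximation
    have e2 : (e : ℝ) * (D.lg (g' o) ω - dt (v o) L) ≤
        c1 + lam * (∑ j, μ j * L j) - ‖L‖ := by
      have hlC := abs_nonneg (Real.log CC)
      have hlF : 0 ≤ (e : ℝ) * Real.log C1 := by positivity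
      rcases hselω with ⟨c, hoc, k1, k2, k3⟩ | ⟨hoc, k1⟩
      · rw [hoc]
        obtain ⟨g1, g2, g3, g4⟩ := h1 c (Finset.mem_univ _)
        have m1 := g4 (e * dt (d c.1.1).2.2 L - N * ‖L‖) k1
        have m2 : D.A (gg c.1.1 c.1.2.1) ω ^ e ≤ ∏ j, D.A (gg c.1.1 j) ω := by
          have m3 : D.A (gg c.1.1 c.1.2.1) ω ^ e =
              ∏ _j : Fin e, D.A (gg c.1.1 c.1.2.1) ω := by
            rw [Finset.prod_const, Finset.card_univ, Fintype.card_fin]
          rw [m3]
          exact Finset.prod_le_prod (fun j _ => g3.le) fun j _ => k3 j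
        have m3 : D.A (gg c.1.1 c.1.2.1) ω ^ e ≤
            CC * Real.exp (e * dt (d c.1.1).2.2 L - N * ‖L‖ + e * C0 * ‖L‖) := by
          refine (m2.trans (g1.le.trans m1)).trans ?_
          exact mul_le_mul_of_nonneg_right (hCC _) (Real.exp_pos _).le
        have m4 := Real.log_le_log (pow_pos g3 e) m3
        rw [Real.log_pow, Real.log_mul hCC0.ne' (Real.exp_pos _).ne', Real.log_exp] at m4
        have m5 : v (some c) = c.1.2.2 := rfl
        have m6 : dt (d c.1.1).2.2 L ≤ dt c.1.2.2 L :=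
          k2.le _ (Finsupp.mem_support_iff.2 (hd _))
        have m6' := mul_le_mul_of_nonneg_left m6 he'.le
        have m7 : (K0 + 1 + lam * Cm) * ‖L‖ ≤ N * ‖L‖ := mul_le_mul_of_nonneg_right hN' hLn
        have m8 := le_abs_self (Real.log CC)
        have m9 := mul_le_mul_of_nonneg_left (hCm' L) hlam
        have m10 : D.lg (g' (some c)) ω = Real.log (D.A (gg c.1.1 c.1.2.1) ω) := rfl
        rw [m5, m10]
        simp only [c1, K0] at *
        nlinarith
      · rw [hoc]
        have m1 : dt (v none) L = 0 := dt_zero L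
        have m2 : D.lg (g' none) ω = D.lg y ω := rfl
        rw [m1, m2, sub_zero]
        have m3 := mul_le_mul_of_nonneg_left k1 hlam
        rw [← mul_assoc, hlam'] at m3
        simp only [c1]
        nlinarith
    rw [e1]
    have e4 : (B'.card : ℝ) * ((e : ℝ) * (D.lg (g' o) ω - dt (v o) L)) ≤
        B'.card * (c1 + lam * (∑ j, μ j * L j) - ‖L‖) :=
      mul_le_mul_of_nonneg_left e2 (by linarith)
    have e5 : ((B.card : ℝ) - B'.card) * ((e : ℝ) * D.lg y ω) ≤
        ((B.card : ℝ) - B'.card) * (e * Real.log C1 + K0 * ‖L‖) :=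
      mul_le_mul_of_nonneg_left e3 hBB'
    have e6 : ((B.card : ℝ) - B'.card) * (2 * K0) * ‖L‖ ≤ B'.card * ‖L‖ :=
      mul_le_mul_of_nonneg_right hBB'' hLn
    have e7 : 1 * ‖L‖ ≤ B'.card * ‖L‖ := mul_le_mul_of_nonneg_right hB1 hLn
    simp only [cst]
    nlinarith
  refine D.neg_mono _ _ hfin ?_
  refine D.neg_add _ _ ?_ (D.neg_add _ _ ?_ (D.neg_const _))
  · refine D.neg_smul _ _ (by positivity) ?_
    refine D.neg_add _ _ hsmt' ?_
    exact D.neg_add _ _ (neg_dt D s _) (neg_dt D s _)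
  · exact D.neg_smul _ _ (by positivity) (neg_lin D s μ)

end key

end Pool.Agent.H21bl.TC
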