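import Mathlib
import Pool.Agent.H21bl.TC.KeyF

/-!
Splitting in a direction, and compactness of the set of directions.
-/

set_option autoImplicit false
set_option linter.unusedSectionVars false

open Finset Filter Topology

namespace Pool.Agent.H21bl.TC

open Pool.Agent.N754.LT Pool.Agent.H21bl.CC

variable {k : Type} [Field k] {r : ℕ}

/-- only finitely many exponents -/
theorem exists_supp (E : Polynomial (La k r)) :
    ∃ T : Finset (Fin r → ℤ), ∀ j, ∀ b ∈ (E.coeff j).coeff.support, b ∈ T := by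
  classical
  refine ⟨(Finset.range (E.natDegree + 1)).biUnion fun j => (E.coeff j).coeff.support,
    fun j b hb => Finset.mem_biUnion.2 ⟨j, Finset.mem_range.2 ?_, hb⟩⟩
  by_contra hcon
  push Not at hcon
  rw [Polynomial.coeff_eq_zero_of_natDegree_lt (by omega)] at hb
  simp at hb

theorem exists_cover (Φ : Polynomial (La k r)) (e : ℕ) (μ : Fin r → ℝ) (ε : ℝ)
    (h : ∀ θ : Fin r → ℝ, θ ≠ 0 → ∑ j, μ j * θ j ≤ ε * ‖θ‖ → SplitsE Φ e θ) (N : ℝ) :
    ∃ l : List (Dat k r e), (∀ d ∈ l, d.1.coeff d.2.2 ≠ 0) ∧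
      ∀ L : Fin r → ℝ, (∃ d ∈ l, Good Φ N d L) ∨ ε * ‖L‖ ≤ ∑ j, μ j * L j := by
  classical
  have hμc : Continuous fun L : Fin r → ℝ => ∑ j, μ j * L j := by fun_prop
  have hsph : ∃ l : List (Dat k r e), (∀ d ∈ l, d.1.coeff d.2.2 ≠ 0) ∧
      ∀ L ∈ Metric.sphere (0 : Fin r → ℝ) 1, (∃ d ∈ l, ∀ j,
        ∀ b ∈ ((err Φ d.1 d.2.1).coeff j).coeff.support, dt b L ≤ e * dt d.2.2 L - N) ∨
        ε ≤ ∑ j, μ j * L j := by
    refine (isCompact_sphere (0 : Fin r → ℝ) 1).induction_on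
      (p := fun s => ∃ l : List (Dat k r e), (∀ d ∈ l, d.1.coeff d.2.2 ≠ 0) ∧
        ∀ L ∈ s, (∃ d ∈ l, ∀ j,
        ∀ b ∈ ((err Φ d.1 d.2.1).coeff j).coeff.support, dt b L ≤ e * dt d.2.2 L - N) ∨
        ε ≤ ∑ j, μ j * L j) ?_ ?_ ?_ ?_
    · exact ⟨[], by simp, fun L hL => absurd hL (Set.notMem_empty L)⟩
    · rintro s t hst ⟨l, hl, h⟩
      exact ⟨l, hl, fun L hL => h L (hst hL)⟩
    · rintro s t ⟨l1, hl1, h1⟩ ⟨l2, hl2, h2⟩
      refine ⟨l1 ++ l2, fun d hd => ?_, fun L hL => ?_⟩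
      · rcases List.mem_append.1 hd with hd | hd
        · exact hl1 d hd
        · exact hl2 d hd
      · rcases hL with hL | hL
        · rcases h1 L hL with ⟨d, hd, h⟩ | h
          · exact Or.inl ⟨d, List.mem_append.2 (Or.inl hd), h⟩
          · exact Or.inr h
        · rcases h2 L hL with ⟨d, hd, h⟩ | h
          · exact Or.inl ⟨d, List.mem_append.2 (Or.inr hd), h⟩
          · exact Or.inr h
    · intro x hx
      rw [mem_sphere_zero_iff_norm] at hx
      have hx0 : x ≠ 0 := by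
        rintro rfl
        rw [norm_zero] at hx
        exact zero_ne_one hx
      by_cases hμx : ∑ j, μ j * x j ≤ ε * ‖x‖
      · obtain ⟨d, hd, hd2⟩ := h x hx0 hμx (N + 1)
        obtain ⟨T, hT⟩ := exists_supp (err Φ d.1 d.2.1)
        refine ⟨{L | ∀ j, ∀ b ∈ ((err Φ d.1 d.2.1).coeff j).coeff.support,
          dt b L ≤ e * dt d.2.2 L - N}, ?_, [d], by simpa using hd,
          fun L hL => Or.inl ⟨d, by simp, hL⟩⟩
        refine nhdsWithin_le_nhds ?_
        have h4 : ∀ᶠ L in 𝓝 x, ∀ b ∈ T, dt b x ≤ e * dt d.2.2 x - (N + 1) →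
            dt b L ≤ e * dt d.2.2 L - N := by
          refine (Filter.eventually_all_finset _).2 fun b _ => ?_
          by_cases hb : dt b x ≤ e * dt d.2.2 x - (N + 1)
          · have h5 : Continuous fun L => e * dt d.2.2 L - N :=
              (continuous_const.mul (dt_cont _)).sub continuous_const
            have h6 := ((dt_cont b).tendsto x).eventually_lt (h5.tendsto x) (by linarith)
            filter_upwards [h6] with L hL _
            exact hL.le
          · exact Eventually.of_forall fun L h => absurd h hb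
        filter_upwards [h4] with L hL j b hb
        exact hL b (hT j b hb) (hd2 j b hb)
      · push Not at hμx
        rw [hx, mul_one] at hμx
        refine ⟨{L | ε ≤ ∑ j, μ j * L j}, nhdsWithin_le_nhds ?_, [], by simp,
          fun L hL => Or.inr hL⟩
        filter_upwards [(hμc.tendsto x).eventually (lt_mem_nhds hμx)] with L hL
        exact hL.le
  obtain ⟨l, hl, hsph⟩ := hsph
  refine ⟨l, hl, fun L => ?_⟩
  by_cases hL : L = 0
  · subst hL
    right
    simp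
  · have hn : 0 < ‖L‖ := norm_pos_iff.2 hL
    rcases hsph (‖L‖⁻¹ • L) (by
      rw [mem_sphere_zero_iff_norm, norm_smul, norm_inv, norm_norm, inv_mul_cancel₀ hn.ne']) with
      ⟨d, hd, h1⟩ | h1
    · left
      refine ⟨d, hd, fun j b hb => ?_⟩
      have h2 := h1 j b hb
      rw [dt_smul, dt_smul] at h2
      have h3 := mul_le_mul_of_nonneg_left h2 hn.le
      have h4 : ‖L‖ * (‖L‖⁻¹ * dt b L) = dt b L := by
        field_simp
      have h5 : ‖L‖ * (e * (‖L‖⁻¹ * dt d.2.2 L) - N) = e * dt d.2.2 L - N * ‖L‖ := by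
        field_simp
      rw [h4, h5] at h3
      exact h3
    · right
      have h2 : ∑ j, μ j * (‖L‖⁻¹ • L) j = ‖L‖⁻¹ * ∑ j, μ j * L j := by
        rw [Finset.mul_sum]
        refine Finset.sum_congr rfl fun j _ => ?_
        rw [Pi.smul_apply, smul_eq_mul]
        ring
      rw [h2] at h1
      have h3 := mul_le_mul_of_nonneg_left h1 hn.le
      rw [← mul_assoc, mul_inv_cancel₀ hn.ne', one_mul] at h3
      linarith

/-- the finite data of a polynomial which splits at infinity -/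
structure FD (Φ : Polynomial (La k r)) (e : ℕ) where
  deg : Φ.natDegree = e
  C0 : ℝ
  hC0 : 0 ≤ C0
  hC : ∀ j, ∀ b ∈ (Φ.coeff j).coeff.support, ∀ L : Fin r → ℝ, dt b L ≤ C0 * ‖L‖
  μ : Fin r → ℝ
  ε : ℝ
  hε : 0 < ε
  N : ℝ
  hN : e * C0 + 1 + ((e * C0 + 1) / ε) * ∑ j, |μ j| ≤ N
  l : List (Dat k r e)
  hl : ∀ d ∈ l, d.1.coeff d.2.2 ≠ 0
  hcov : ∀ L : Fin r → ℝ, (∃ d ∈ l, Good Φ N d L) ∨ ε * ‖L‖ ≤ ∑ j, μ j * L j

theorem exists_FD (Φ : Polynomial (La k r)) (h : SplitsH Φ) : Nonempty (FD Φ Φ.natDegree) := by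
  obtain ⟨μ, ε, hε, h⟩ := h
  obtain ⟨C0, hC0, hC⟩ := exists_C0 Φ
  obtain ⟨l, hl, hcov⟩ := exists_cover Φ Φ.natDegree μ ε h
    (Φ.natDegree * C0 + 1 + ((Φ.natDegree * C0 + 1) / ε) * ∑ j, |μ j|)
  exact ⟨{ deg := rfl, C0 := C0, hC0 := hC0, hC := hC, μ := μ, ε := ε, hε := hε, N := _,
           hN := le_rfl, l := l, hl := hl, hcov := hcov }⟩

theorem key_FD {R : Type} [CommRing R] [IsDomain R] [Algebra k R] (s : Fin r → Rˣ)
    (Φ : Polynomial (La k r)) {e : ℕ} (F : FD Φ e) (hΦ : Φ.Monic) (he0 : 0 < e) (y : R)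
    (hy : evp s y Φ = 0) (hind : ∀ p q : La k r, ev s q * y = ev s p → q = 0) :
    ∃ (n : ℕ) (κ : Type) (_ : Finite κ) (fam : κ → Fin n → R),
      (∀ c, LinearIndependent k (fam c)) ∧
      (∀ c c', Submodule.span k (Set.range (fam c)) = Submodule.span k (Set.range (fam c'))) ∧
      (∀ c i, fam c i ∈ adj (k := k) s y) ∧
      ∀ D : Dz k R, (∀ sel : D.Ω → κ, D.Neg fun ω => -∑ i, D.lg (fam (sel ω) i) ω) →
        D.Neg fun ω => ‖LZ D s ω‖ := by
  refine key_fin s Φ F.deg hΦ he0 y hy F.C0 F.hC0 F.hC F.μ F.ε F.hε F.N F.hN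
    (ι := Fin F.l.length) (fun i => F.l.get i) (fun i => F.hl _ (List.get_mem _ _))
    (fun L => ?_) hind
  rcases F.hcov L with ⟨d, hd, h⟩ | h
  · obtain ⟨i, hi⟩ := List.mem_iff_get.1 hd
    exact Or.inl ⟨i, by rw [hi]; exact h⟩
  · exact Or.inr h

end Pool.Agent.H21bl.TC
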