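import Mathlib
import Pool.Agent.H21bl.TC.Cmp
import Pool.Agent.H21bl.CC.Lift

/-!
The ring of Laurent polynomials is integrally closed.
-/

set_option autoImplicit false
set_option linter.unusedSectionVars false

open Finset Filter Topology

namespace Pool.Agent.H21bl.TC

open Pool.Agent.N754.LT Pool.Agent.H21bl.CC

theorem dvd_of_monic {A : Type} [CommRing A] [IsDomain A] [IsIntegrallyClosed A] (e : ℕ)
    (c : ℕ → A) (x y : A) (hy : y ≠ 0)
    (h : x ^ e + ∑ j ∈ range e, c j * x ^ j * y ^ (e - j) = 0) : y ∣ x := by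
  classical
  let z : FractionRing A := algebraMap A (FractionRing A) x / algebraMap A (FractionRing A) y
  have hy' : algebraMap A (FractionRing A) y ≠ 0 := by
    rw [Ne, FaithfulSMul.algebraMap_eq_zero_iff]
    exact hy
  have hz : IsIntegral A z := by
    refine ⟨Polynomial.X ^ e + ∑ j ∈ range e, Polynomial.C (c j) * Polynomial.X ^ j, ?_, ?_⟩
    · apply Polynomial.monic_X_pow_add
      rw [← Polynomial.mem_degreeLT]
      refine Submodule.sum_mem _ fun j hj => ?_
      rw [Polynomial.mem_degreeLT]
      refine (Polynomial.degree_C_mul_X_pow_le _ _).trans_lt ?_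
      exact_mod_cast Finset.mem_range.1 hj
    · have h1 := congrArg (algebraMap A (FractionRing A)) h
      rw [map_add, map_pow, map_sum, map_zero] at h1
      rw [Polynomial.eval₂_add, Polynomial.eval₂_X_pow, Polynomial.eval₂_finsetSum]
      have h2 : algebraMap A (FractionRing A) y ^ e ≠ 0 := pow_ne_zero _ hy'
      apply mul_left_cancel₀ h2
      rw [mul_zero, ← h1, mul_add, Finset.mul_sum]
      congr 1
      · simp only [z]
        rw [div_pow]
        field_simp
      · refine Finset.sum_congr rfl fun j hj => ?_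
        have hj' := Finset.mem_range.1 hj
        rw [Polynomial.eval₂_mul, Polynomial.eval₂_C, Polynomial.eval₂_X_pow, map_mul, map_mul,
          map_pow, map_pow]
        simp only [z]
        have h3 : algebraMap A (FractionRing A) y ^ e =
            algebraMap A (FractionRing A) y ^ (e - j) * algebraMap A (FractionRing A) y ^ j := by
          rw [← pow_add]
          congr 1
          omega
        rw [h3, div_pow]
        field_simp
  obtain ⟨w, hw⟩ := IsIntegrallyClosed.isIntegral_iff.1 hz
  refine ⟨w, ?_⟩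
  apply FaithfulSMul.algebraMap_injective A (FractionRing A)
  rw [map_mul, hw]
  simp only [z]
  field_simp

variable {k : Type} [Field k] {r : ℕ}

theorem dvd_of_root (e : ℕ) (a : ℕ → La k r) (p q : La k r) (hq : q ≠ 0)
    (h : p ^ e + ∑ j ∈ range e, a j * p ^ j * q ^ (e - j) = 0) : q ∣ p := by
  classical
  obtain ⟨K, hK⟩ := exists_bound (p.coeff.support ∪ q.coeff.support ∪
    (range e).biUnion fun j => (a j).coeff.support)
  let b : Fin r → ℤ := fun _ => (K : ℤ)
  let m : La k r := AddMonoidAlgebra.single b 1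
  have hm : IsUnit m := by
    refine IsUnit.of_mul_eq_one (AddMonoidAlgebra.single (-b) 1) ?_
    rw [AddMonoidAlgebra.single_mul_single, add_neg_cancel, one_mul]
    rfl
  have hio : ∀ f : La k r, f.coeff.support ⊆ p.coeff.support ∪ q.coeff.support ∪
      ((range e).biUnion fun j => (a j).coeff.support) →
      ∃ g : MvPolynomial (Fin r) k, io g = f * m := by
    intro f hf
    refine exists_io _ fun c hc j => ?_
    obtain ⟨c', hc', rfl⟩ := supp_mul_single f b c hc
    have h1 := (abs_le.1 (hK c' (hf hc') j)).1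
    rw [Pi.add_apply]
    show 0 ≤ c' j + (K : ℤ)
    omega
  obtain ⟨p1, hp1⟩ := hio p (by
    intro b hb
    exact Finset.mem_union_left _ (Finset.mem_union_left _ hb))
  obtain ⟨q1, hq1⟩ := hio q (by
    intro b hb
    exact Finset.mem_union_left _ (Finset.mem_union_right _ hb))
  have hA : ∀ j, ∃ g : MvPolynomial (Fin r) k, j ∈ range e → io g = a j * m := by
    intro j
    by_cases hj : j ∈ range e
    · obtain ⟨g, hg⟩ := hio (a j) (by
        intro b hb
        exact Finset.mem_union_right _ (Finset.mem_biUnion.2 ⟨j, hj, hb⟩))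
      exact ⟨g, fun _ => hg⟩
    · exact ⟨0, fun h => absurd h hj⟩
  choose A hA using hA
  obtain ⟨m1, hm1⟩ : ∃ g : MvPolynomial (Fin r) k, io g = m := by
    refine exists_io _ fun c hc j => ?_
    rw [AddMonoidAlgebra.coeff_single] at hc
    have h2 := Finset.mem_singleton.1 (Finsupp.support_single_subset hc)
    rw [h2]
    exact Int.natCast_nonneg K
  have h1 : (p1 * m1) ^ e + ∑ j ∈ range e, (A j * m1 ^ (e - j - 1)) * (p1 * m1) ^ j *
      q1 ^ (e - j) = 0 := by
    apply io_inj
    rw [map_add, map_zero, map_pow, map_sum, map_mul, hp1, hm1]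
    have h2 : ∀ j ∈ range e, io (A j * m1 ^ (e - j - 1) * (p1 * m1) ^ j * q1 ^ (e - j)) =
        (m ^ e * m ^ e) * (a j * p ^ j * q ^ (e - j)) := by
      intro j hj
      have hj' := Finset.mem_range.1 hj
      rw [map_mul, map_mul, map_mul, map_pow, map_pow, map_mul, map_pow, hA j hj, hp1, hm1, hq1]
      have h3 : m ^ e = m ^ j * (m ^ (e - j - 1) * m) := by
        rw [← pow_succ, ← pow_add]
        congr 1
        omega
      have h4 : m ^ e = m ^ j * m ^ (e - j) := by
        rw [← pow_add]
        congr 1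
        omega
      calc a j * m * m ^ (e - j - 1) * (p * m * m) ^ j * (q * m) ^ (e - j) =
          (m ^ j * (m ^ (e - j - 1) * m)) * (m ^ j * m ^ (e - j)) *
            (a j * p ^ j * q ^ (e - j)) := by
            rw [mul_pow, mul_pow, mul_pow]
            ring
        _ = _ := by rw [← h3, ← h4]
    rw [Finset.sum_congr rfl h2, ← Finset.mul_sum]
    have h5 : (p * m * m) ^ e = (m ^ e * m ^ e) * p ^ e := by
      rw [mul_pow, mul_pow]
      ring
    rw [h5, ← mul_add, h, mul_zero]
  have hq1' : q1 ≠ 0 := by
    rintro rfl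
    rw [map_zero] at hq1
    exact hq (by
      have h2 : q * m = 0 * m := by rw [zero_mul, ← hq1]
      exact hm.mul_left_injective h2)
  obtain ⟨c, hc⟩ := dvd_of_monic e _ (p1 * m1) q1 hq1' h1
  have h3 : p * m * m = q * m * io c := by
    rw [← hp1, ← hq1]
    conv_lhs => rw [← hm1]
    rw [← map_mul, hc, map_mul]
  rw [← hm.dvd_mul_right]
  refine ⟨io c, ?_⟩
  apply hm.mul_left_injective
  show p * m * m = q * io c * m
  rw [h3]
  ring

/-- a rational function of the units which is integral is a Laurent polynomial -/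
theorem exists_of_ratio {R : Type} [CommRing R] [IsDomain R] [Algebra k R] (s : Fin r → Rˣ)
    (hinj : ∀ p : La k r, ev s p = 0 → p = 0) (Φ : Polynomial (La k r)) (hΦ : Φ.Monic) (y : R)
    (hy : evp s y Φ = 0) (p q : La k r) (hq : q ≠ 0) (h : ev s q * y = ev s p) :
    ∃ P : La k r, y = ev s P := by
  have hinj' : Function.Injective (ev s : La k r →ₐ[k] R) :=
    (injective_iff_map_eq_zero _).2 hinj
  have h0 : q ∣ p := by
    refine dvd_of_root Φ.natDegree Φ.coeff p q hq ?_
    apply hinj'
    have h1 := evp_sum s y Φ Φ.natDegree le_rfl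
    rw [hy, Finset.sum_range_succ] at h1
    have h2 : Φ.coeff Φ.natDegree = 1 := hΦ
    rw [h2, map_one, one_mul] at h1
    rw [map_zero, map_add, map_pow, map_sum, ← h, mul_pow]
    have h3 : ∀ j ∈ range Φ.natDegree, ev s (Φ.coeff j * p ^ j * q ^ (Φ.natDegree - j)) =
        ev s q ^ Φ.natDegree * (ev s (Φ.coeff j) * y ^ j) := by
      intro j hj
      have hj' := Finset.mem_range.1 hj
      rw [map_mul, map_mul, map_pow, map_pow, ← h, mul_pow]
      have h4 : ev s q ^ Φ.natDegree = ev s q ^ j * ev s q ^ (Φ.natDegree - j) := by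
        rw [← pow_add]
        congr 1
        omega
      rw [h4]
      ring
    rw [Finset.sum_congr rfl h3, ← Finset.mul_sum, ← mul_add, add_comm, ← h1, mul_zero]
  obtain ⟨P, hP⟩ := h0
  refine ⟨P, ?_⟩
  have h3 : ev s q ≠ 0 := fun h => hq (hinj q h)
  apply mul_left_cancel₀ h3
  rw [h, hP, map_mul]

end Pool.Agent.H21bl.TC
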