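import Mathlib
import Pool.Agent.H21bl.TC.An2
import Pool.Agent.H21bl.TC.Dvd

/-!
Entire functions which are roots of polynomials over the ring of Laurent polynomials in units.
-/

set_option autoImplicit false
set_option linter.unusedSectionVars false

namespace Pool.Agent.H21bl.TC

open Filter Topology Metric Set
open Pool.Agent.Y192.OG Pool.Agent.Y192.KC Pool.Agent.W603.BP Pool.Agent.Y220.KG
open Pool.Agent.H159R3.NV (Ent ev_ne Dv ne_cod ci_log mero_of_diff avg_le_cod ci_abs)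
open Pool.Agent.H21bl Pool.Agent.H21bl.CC

variable {N : ℕ} {f : Fin N → Ent} {hf : ∀ i, f i ≠ 0} {F : (cv f hf).Mr} (R : Rad (cv f hf) F)

theorem lam_single (i : Fin N) (z : ℂ) : (cv f hf).lam z (Pi.single i 1) =
    Real.log ‖(f i : ℂ → ℂ) (Complex.exp z)‖ := by
  unfold Curve.lam
  rw [Finset.sum_eq_single i]
  · rw [Pi.single_eq_same, Int.cast_one, one_mul, cv_X0, cv_Xs, norm_one, Real.log_one, sub_zero]
  · intro j _ hj
    rw [Pi.single_eq_of_ne hj, Int.cast_zero, zero_mul]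
  · intro h
    exact absurd (Finset.mem_univ _) h

theorem del_single (i : Fin N) {z : ℂ} (hz : (cv f hf).r0 + 1 ≤ ‖z‖) :
    |(cv f hf).del z (Pi.single i 1)| = ((cv f hf).ord z (ps f hf (f i))).untop₀ := by
  have h1 : z ∈ Ext (cv f hf).r0 := by
    show (cv f hf).r0 < ‖z‖
    linarith
  have h2 := ((a_ord N (cv f hf)).1 z h1).2.2.2.2.2 (Pi.single i 1)
  have h3 := untop_nonneg (f := f) (hf := hf) (f i) hz
  rw [ps_mon, h2] at h3 ⊢
  rw [WithTop.untop₀_coe] at h3 ⊢
  exact abs_of_nonneg h3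

theorem ht_single (i : Fin N) (ρ : ℝ) : (cv f hf).ht (Pi.single i 1) ρ =
    Real.circleAverage (fun z => |Real.log ‖(f i : ℂ → ℂ) (Complex.exp z)‖|) 0 ρ +
      ct f hf (f i) ρ := by
  unfold Curve.ht ct
  simp only [lam_single]
  congr 1
  unfold Curve.cnt
  refine finsum_mem_congr rfl fun z hz => ?_
  show ((|(cv f hf).del z (Pi.single i 1)| : ℤ) : ℝ) * _ = _
  rw [del_single i hz.1]

/-- the size of the characteristic -/
theorem ch_bound (s : ℕ × ℂ → ℝ) (hs : ∀ ω, 0 ≤ s ω) (hneg : (DzE R).Neg s)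
    (hgr : ∀ i, ∃ C : ℝ, 1 ≤ C ∧ ∀ᶠ ω in (DzE R).ev,
      (DzE R).A (f i) ω ≤ C * Real.exp (C * s ω)) : False := by
  classical
  choose C hC1 hC using hgr
  choose CJ hCJ0 hCJ using fun i => jen R (f i) (hf i)
  let Cs : ℝ := ∑ i, C i
  have hCs : 0 ≤ Cs := Finset.sum_nonneg fun i _ => by linarith [hC1 i]
  let K : ℝ := ∑ i, (3 * Real.log (C i) + 2 * CJ i)
  have hδ : 0 < 1 / (6 * (Cs + 1)) := by positivity
  obtain ⟨n, ⟨h, h1, h2, h3⟩, h4, h5⟩ := ((hneg _ hδ).and ((ch_large R K (1 / 4) (by norm_num)).and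
    (ch_large R 1 1 one_pos))).exists
  set c0 := (cv f hf).ch (R.s n) with hc0
  have hRn : (R.s n) ≠ 0 := by
    have := s_ge R n
    linarith
  have hln : 0 ≤ Real.log (R.s n) := Real.log_nonneg (by linarith [s_ge R n])
  have hle : 0 ≤ Real.log (1 / R.e n) := Real.log_nonneg (by
    rw [le_div_iff₀ (R.he n).1, one_mul]
    exact (R.he n).2)
  have hlC : ∀ i, 0 ≤ Real.log (C i) := fun i => Real.log_nonneg (hC1 i)
  have hi : ∀ i, (cv f hf).ht (Pi.single i 1) (R.s n) ≤
      3 * Real.log (C i) + 3 * C i * (1 / (6 * (Cs + 1)) * c0) +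
        2 * CJ i * (1 + Real.log (R.s n)) := by
    intro i
    have hCh : CircleIntegrable (fun z => C i * h z) 0 (R.s n) := h1.const_smul (a := C i)
    have hGi : CircleIntegrable (fun z => Real.log (C i) + C i * h z) 0 (R.s n) :=
      (circleIntegrable_const _ _ _).add hCh
    have hG2 : CircleIntegrable (fun z => 2 * (Real.log (C i) + C i * h z)) 0 (R.s n) :=
      hGi.const_smul (a := (2 : ℝ))
    have hGavg : Real.circleAverage (fun z => Real.log (C i) + C i * h z) 0 (R.s n) ≤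
        Real.log (C i) + C i * (1 / (6 * (Cs + 1)) * c0) := by
      rw [Real.circleAverage_fun_add (circleIntegrable_const _ _ _) hCh,
        Real.circleAverage_const]
      have h6 : Real.circleAverage (fun z => C i * h z) 0 (R.s n) =
          C i * Real.circleAverage h 0 (R.s n) := Real.circleAverage_fun_smul (a := C i)
      rw [h6]
      have := mul_le_mul_of_nonneg_left h3 (show 0 ≤ C i by linarith [hC1 i])
      linarith
    have hcod : ∀ᶠ z in codiscreteWithin (sphere (0 : ℂ) |R.s n|),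
        Real.log ‖(f i : ℂ → ℂ) (Complex.exp z)‖ ≤ Real.log (C i) + C i * h z ∧
        0 ≤ Real.log (C i) + C i * h z := by
      filter_upwards [h2, (ev_evE R).1 (hC i) n, ne_exp_cod (hf i) (R.s n)] with z g1 g2 g3
      have g4 : 0 ≤ s (n, z) := hs _
      have g5 : 0 < ‖(f i : ℂ → ℂ) (Complex.exp z)‖ := norm_pos_iff.2 g3
      have g6 : ‖(f i : ℂ → ℂ) (Complex.exp z)‖ ≤ C i * Real.exp (C i * s (n, z)) := g2
      have g7 := Real.log_le_log g5 g6
      rw [Real.log_mul (by linarith [hC1 i]) (Real.exp_pos _).ne', Real.log_exp] at g7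
      have g8 := mul_le_mul_of_nonneg_left g1 (show 0 ≤ C i by linarith [hC1 i])
      have g9 : 0 ≤ C i * s (n, z) := mul_nonneg (by linarith [hC1 i]) g4
      exact ⟨by linarith, by linarith [hlC i]⟩
    have hmn : mn (f i) (R.s n) ≤ Real.log (C i) + C i * (1 / (6 * (Cs + 1)) * c0) := by
      refine le_trans ?_ hGavg
      refine avg_le_cod (ci_exp (f i) _) hGi hRn ?_
      filter_upwards [hcod] with z hz
      exact hz.1
    have habs : Real.circleAverage (fun z => |Real.log ‖(f i : ℂ → ℂ) (Complex.exp z)‖|) 0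
        (R.s n) ≤ 2 * (Real.log (C i) + C i * (1 / (6 * (Cs + 1)) * c0)) - mn (f i) (R.s n) := by
      have h6 : Real.circleAverage (fun z => 2 * (Real.log (C i) + C i * h z) -
          Real.log ‖(f i : ℂ → ℂ) (Complex.exp z)‖) 0 (R.s n) =
          2 * Real.circleAverage (fun z => Real.log (C i) + C i * h z) 0 (R.s n) -
            mn (f i) (R.s n) := by
        rw [Real.circleAverage_fun_sub hG2 (ci_exp (f i) _)]
        congr 1
        exact Real.circleAverage_fun_smul (a := (2 : ℝ))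
      have h7 : Real.circleAverage (fun z => |Real.log ‖(f i : ℂ → ℂ) (Complex.exp z)‖|) 0
          (R.s n) ≤ Real.circleAverage (fun z => 2 * (Real.log (C i) + C i * h z) -
          Real.log ‖(f i : ℂ → ℂ) (Complex.exp z)‖) 0 (R.s n) := by
        refine avg_le_cod (ci_abs (ci_exp (f i) _))
          (hG2.sub (ci_exp (f i) _)) hRn ?_
        filter_upwards [hcod] with z hz
        rw [abs_le]
        constructor <;> linarith [hz.1, hz.2]
      rw [h6] at h7
      linarith
    rw [ht_single]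
    have h8 := abs_le.1 (hCJ i n)
    have h9 := ct_nonneg (f := f) (hf := hf) (f i) (R.s n)
    linarith [h8.1, h8.2]
  have hsum : c0 ≤ ∑ i, (3 * Real.log (C i) + 3 * C i * (1 / (6 * (Cs + 1)) * c0) +
        2 * CJ i * (1 + Real.log (R.s n))) := by
    rw [hc0]
    unfold Curve.ch
    exact Finset.sum_le_sum fun i _ => hi i
  have hsum2 : ∑ i, (3 * Real.log (C i) + 3 * C i * (1 / (6 * (Cs + 1)) * c0) +
        2 * CJ i * (1 + Real.log (R.s n))) ≤
      3 * Cs * (1 / (6 * (Cs + 1)) * c0) + K * (1 + Real.log (R.s n)) := by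
    have h6 : ∀ i, 3 * Real.log (C i) + 3 * C i * (1 / (6 * (Cs + 1)) * c0) +
        2 * CJ i * (1 + Real.log (R.s n)) ≤ 3 * C i * (1 / (6 * (Cs + 1)) * c0) +
        (3 * Real.log (C i) + 2 * CJ i) * (1 + Real.log (R.s n)) := by
      intro i
      have h7 : 0 ≤ 3 * Real.log (C i) * Real.log (R.s n) := by
        have := hlC i
        positivity
      linarith
    refine (Finset.sum_le_sum fun i _ => h6 i).trans (le_of_eq ?_)
    rw [Finset.sum_add_distrib, ← Finset.sum_mul, ← Finset.sum_mul, ← Finset.mul_sum]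
  have hc0n : 0 ≤ c0 := ch_nonneg' R n
  have h6 : 3 * Cs * (1 / (6 * (Cs + 1)) * c0) ≤ 1 / 2 * c0 := by
    rw [← mul_assoc]
    refine mul_le_mul_of_nonneg_right ?_ hc0n
    rw [mul_one_div, div_le_iff₀ (by positivity)]
    linarith
  have hK0 : 0 ≤ K := Finset.sum_nonneg fun i _ => by
    have := hlC i
    have := hCJ0 i
    positivity
  have h7 : 0 ≤ K * Real.log (1 / R.e n) := mul_nonneg hK0 hle
  linarith

theorem not_hindE {r : ℕ} (hr : 0 < r) (s : Fin r → Entˣ)
    (hne : ∀ b : Fin r → ℤ, b ≠ 0 → ∀ c : ℂ, (mo s b : Ent) ≠ algebraMap ℂ Ent c)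
    (Φ : Polynomial (La ℂ r)) {e : ℕ} (FDΦ : FD Φ e) (hΦ : Φ.Monic) (he0 : 0 < e) (y : Ent)
    (hy : evp s y Φ = 0) : ¬ ∀ p q : La ℂ r, ev s q * y = ev s p → q = 0 := by
  classical
  intro hind
  obtain ⟨n, κ, _, fam, h1, h2, h3, h4⟩ := key_FD s Φ FDΦ hΦ he0 y hy hind
  have := Fintype.ofFinite κ
  let j0 : Fin r := ⟨0, hr⟩
  let E := Fintype.equivFin ((κ × Fin n) ⊕ Unit)
  let g : (κ × Fin n) ⊕ Unit → Ent := Sum.elim (fun p => fam p.1 p.2) fun _ => (s j0 : Ent)
  let f : Fin (Fintype.card ((κ × Fin n) ⊕ Unit)) → Ent := fun i => g (E.symm i)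
  have hg : ∀ i, g i ≠ 0 := by
    rintro (p | p)
    · exact (h1 p.1).ne_zero p.2
    · exact Units.ne_zero _
  have hf : ∀ i, f i ≠ 0 := fun i => hg _
  have hnc : ∀ a : ℂ, f (E (Sum.inr ())) ≠ algebraMap ℂ Ent a := by
    intro a ha
    have h5 : f (E (Sum.inr ())) = s j0 := by
      simp only [f, g, Equiv.symm_apply_apply, Sum.elim_inr]
    rw [h5] at ha
    refine hne (Pi.single j0 1) ?_ a ?_
    · intro h0
      have h6 := congrFun h0 j0
      rw [Pi.single_eq_same] at h6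
      exact one_ne_zero h6
    · rw [← ha]
      congr 1
      unfold mo
      rw [Finset.prod_eq_single j0]
      · rw [Pi.single_eq_same, zpow_one]
      · intro i _ hi
        rw [Pi.single_eq_of_ne hi, zpow_zero]
      · intro h
        exact absurd (Finset.mem_univ _) h
  obtain ⟨R⟩ := exists_Rad f hf (E (Sum.inr ())) hnc
  have h5 := h4 (DzE R) fun sel => smtE R fam h1 h2 (fun c a => ⟨E (Sum.inl (c, a)), by
    simp only [f, g, Equiv.symm_apply_apply, Sum.elim_inl]⟩) sel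
  obtain ⟨C1, hC1, hyb⟩ := A_y (DzE R) s Φ hΦ (by rw [FDΦ.deg]; exact he0) y hy FDΦ.C0 FDΦ.hC0
    FDΦ.hC
  refine ch_bound R (fun ω => ‖LZ (DzE R) s ω‖) (fun ω => norm_nonneg _) h5 fun i => ?_
  refine A_adj (DzE R) s y FDΦ.C0 C1 FDΦ.hC0 hC1 hyb (f i) ?_
  simp only [f]
  rcases E.symm i with p | p
  · exact h3 p.1 p.2
  · exact Algebra.subset_adjoin (Set.mem_insert_of_mem _ (Or.inl ⟨j0, rfl⟩))

end Pool.Agent.H21bl.TC
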