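import Mathlib
import Pool.Agent.H21bl.TC.Siz

/-!
The bases for the subspace theorem, for elements of higher degree over the field of the units.
-/

set_option autoImplicit false
set_option linter.unusedSectionVars false

open Finset Filter Module

namespace Pool.Agent.H21bl.TC

open Pool.Agent.N754.LT Pool.Agent.H21bl.CC

variable {k R : Type} [Field k] [CommRing R] [IsDomain R] [Algebra k R] {r : ℕ}
  (s : Fin r → Rˣ)

/-- the standard family -/
noncomputable def br0 (y : R) (e : ℕ) (B : Finset (Fin r → ℤ)) : Fin e × B → R :=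
  fun p => y ^ (p.1 : ℕ) * (mo s p.2.1 : R)

open Classical in
/-- the family adapted to a factor `g` of degree `d` -/
noncomputable def br (y : R) (e : ℕ) (B B' : Finset (Fin r → ℤ)) (g : Polynomial (La k r)) (d : ℕ)
    (v : Fin r → ℤ) : Fin e × B → R :=
  fun p => if (p.1 : ℕ) = d ∧ p.2.1 - v ∈ B' then evp s y g * (mo s (p.2.1 - v) : R)
    else y ^ (p.1 : ℕ) * (mo s p.2.1 : R)

theorem evR_inj {y : R} {e : ℕ} (he : 0 < e)
    (hind : ∀ P : Polynomial (La k r), P.natDegree < e → evp s y P = 0 → P = 0) (p : La k r)
    (hp : ev s p = 0) : p = 0 := by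
  have h1 := hind (Polynomial.C p) (by rw [Polynomial.natDegree_C]; exact he) (by
    rw [evp_C, hp])
  exact Polynomial.C_eq_zero.1 h1

theorem indR0 {y : R} {e : ℕ}
    (hind : ∀ P : Polynomial (La k r), P.natDegree < e → evp s y P = 0 → P = 0)
    (B : Finset (Fin r → ℤ)) : LinearIndependent k (br0 s y e B) := by
  classical
  rw [Fintype.linearIndependent_iff]
  intro g hg
  let q : Fin e → La k r := fun j => ∑ γ : B, AddMonoidAlgebra.single γ.1 (g (j, γ))
  let P : Polynomial (La k r) := ∑ j : Fin e, Polynomial.C (q j) * Polynomial.X ^ (j : ℕ)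
  have hq : ∀ j, ev s (q j) = ∑ γ : B, g (j, γ) • (mo s γ.1 : R) := by
    intro j
    simp only [q, map_sum, ev_single]
  have hP : evp s y P = 0 := by
    simp only [P]
    rw [map_sum, ← hg, Fintype.sum_prod_type]
    refine Finset.sum_congr rfl fun j _ => ?_
    rw [map_mul, map_pow, evp_C, evp_X, hq, Finset.sum_mul]
    refine Finset.sum_congr rfl fun γ _ => ?_
    simp only [br0]
    rw [smul_mul_assoc, mul_comm]
  have hcP : ∀ i : Fin e, P.coeff i = q i := by
    intro i
    simp only [P]
    rw [Polynomial.finsetSum_coeff, Finset.sum_eq_single i]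
    · rw [Polynomial.coeff_C_mul, Polynomial.coeff_X_pow, if_pos rfl, mul_one]
    · intro j _ hj
      rw [Polynomial.coeff_C_mul, Polynomial.coeff_X_pow, if_neg, mul_zero]
      exact fun h => hj (Fin.ext h.symm)
    · intro h
      exact absurd (Finset.mem_univ _) h
  have hdP : P = 0 := by
    rcases Nat.eq_zero_or_pos e with he | he
    · subst he
      simp only [P]
      exact Finset.sum_of_isEmpty _
    · refine hind P ?_ hP
      have h1 : P.degree < e := by
        simp only [P]
        rw [← Polynomial.mem_degreeLT]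
        refine Submodule.sum_mem _ fun j _ => ?_
        rw [Polynomial.mem_degreeLT]
        refine (Polynomial.degree_C_mul_X_pow_le _ _).trans_lt ?_
        exact_mod_cast j.2
      by_cases hP0 : P = 0
      · rw [hP0, Polynomial.natDegree_zero]
        exact he
      · exact (Polynomial.natDegree_lt_iff_degree_lt hP0).2 h1
  rintro ⟨j, γ⟩
  have h1 : q j = 0 := by
    rw [← hcP, hdP, Polynomial.coeff_zero]
  have h2 : (∑ α : B, AddMonoidAlgebra.single α.1 (g (j, α)) : La k r).coeff γ.1 = g (j, γ) := by
    rw [AddMonoidAlgebra.coeff_sum, Finsupp.finsetSum_apply, Finset.sum_eq_single γ]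
    · rw [AddMonoidAlgebra.coeff_single, Finsupp.single_eq_same]
    · intro b _ hb
      rw [AddMonoidAlgebra.coeff_single, Finsupp.single_apply, if_neg]
      exact fun h => hb (Subtype.ext h)
    · intro h
      exact absurd (Finset.mem_univ γ) h
  rw [← h2]
  show (q j).coeff γ.1 = 0
  rw [h1]
  rfl

theorem spanR_le {y : R} {e : ℕ} {B B' : Finset (Fin r → ℤ)} {g : Polynomial (La k r)}
    {v : Fin r → ℤ} {L : Fin r → ℝ} (hge : g.natDegree < e) (hlead : Lead L g.leadingCoeff v)
    (hf : ∀ β ∈ B', ∀ j, ∀ c ∈ (g.coeff j).coeff.support, c + β ∈ B) :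
    Submodule.span k (Set.range (br0 s y e B)) ≤
      Submodule.span k (Set.range (br s y e B B' g g.natDegree v)) := by
  classical
  set d := g.natDegree with hd
  set W := Submodule.span k (Set.range (br s y e B B' g d v)) with hW
  have hlead' : Lead L (g.coeff d) v := hlead
  have hvv : v ∈ (g.coeff d).coeff.support := Finsupp.mem_support_iff.2 hlead'.1
  have hlow : ∀ (j : Fin e) (γ : B), (j : ℕ) ≠ d → y ^ (j : ℕ) * (mo s γ.1 : R) ∈ W := by
    intro j γ hj
    have hmem : br s y e B B' g d v (j, γ) ∈ W := Submodule.subset_span ⟨(j, γ), rfl⟩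
    have h0 : br s y e B B' g d v (j, γ) = y ^ (j : ℕ) * (mo s γ.1 : R) := by
      simp only [br]
      rw [if_neg fun h => hj h.1]
    rwa [h0] at hmem
  let dd : Fin e := ⟨d, hge⟩
  have hinr : ∀ γ : B, y ^ d * (mo s γ.1 : R) ∈ W := by
    have hwf : WellFounded (fun a b : B => Lt L a.1 b.1) := by
      haveI : IsTrans B (fun a b : B => Lt L a.1 b.1) := ⟨fun _ _ _ h1 h2 => Lt_trans h1 h2⟩
      haveI : Std.Irrefl (fun a b : B => Lt L a.1 b.1) := ⟨fun a => Lt_irrefl L a.1⟩
      exact Finite.wellFounded_of_trans_of_irrefl _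
    intro γ
    induction γ using hwf.induction with
    | _ γ ih =>
      have hmem : br s y e B B' g d v (dd, γ) ∈ W := Submodule.subset_span ⟨(dd, γ), rfl⟩
      by_cases hγ : γ.1 - v ∈ B'
      · have h0 : br s y e B B' g d v (dd, γ) = evp s y g * (mo s (γ.1 - v) : R) := by
          simp only [br]
          rw [if_pos ⟨rfl, hγ⟩]
        rw [h0, evp_sum s y g d le_rfl, Finset.sum_range_succ, add_mul, Finset.sum_mul] at hmem
        have h1 : ∑ j ∈ range d, ev s (g.coeff j) * y ^ j * (mo s (γ.1 - v) : R) ∈ W := by
          refine Submodule.sum_mem _ fun j hj => ?_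
          have hj' := Finset.mem_range.1 hj
          refine ev_mo_mem s B W (g.coeff j) (y ^ j) (γ.1 - v) fun c hc => ?_
          exact hlow ⟨j, by omega⟩ ⟨c + (γ.1 - v), hf _ hγ j c hc⟩ (by
            show j ≠ d
            omega)
        have h3 : ev s (g.coeff d) * y ^ d * (mo s (γ.1 - v) : R) =
            (g.coeff d).coeff v • (y ^ d * (mo s γ.1 : R)) +
            ∑ c ∈ (g.coeff d).coeff.support.erase v,
              (g.coeff d).coeff c • (y ^ d * (mo s (c + (γ.1 - v)) : R)) := by
          rw [ev_apply, Finset.sum_mul, Finset.sum_mul,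
            ← Finset.add_sum_erase _ _ hvv]
          congr 1
          · have h4 : mo s γ.1 = mo s v * mo s (γ.1 - v) := by
              rw [← mo_add]
              congr 1
              abel
            rw [h4, Units.val_mul, smul_mul_assoc, smul_mul_assoc]
            congr 1
            ring
          · refine Finset.sum_congr rfl fun c _ => ?_
            rw [mo_add, Units.val_mul, smul_mul_assoc, smul_mul_assoc]
            congr 1
            ring
        have h5 : ∑ c ∈ (g.coeff d).coeff.support.erase v,
              (g.coeff d).coeff c • (y ^ d * (mo s (c + (γ.1 - v)) : R)) ∈ W := by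
          refine Submodule.sum_mem _ fun c hc => Submodule.smul_mem _ _ ?_
          have hc' := Finset.mem_erase.1 hc
          refine ih ⟨c + (γ.1 - v), hf _ hγ d c hc'.2⟩ ?_
          have h6 := Lt_add (hlead'.2 c hc'.2 hc'.1) (γ.1 - v)
          rw [add_sub_cancel] at h6
          exact h6
        have h6 : (g.coeff d).coeff v • (y ^ d * (mo s γ.1 : R)) ∈ W := by
          have h7 : (g.coeff d).coeff v • (y ^ d * (mo s γ.1 : R)) =
              (∑ j ∈ range d, ev s (g.coeff j) * y ^ j * (mo s (γ.1 - v) : R) +
                ev s (g.coeff d) * y ^ d * (mo s (γ.1 - v) : R)) -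
              ∑ j ∈ range d, ev s (g.coeff j) * y ^ j * (mo s (γ.1 - v) : R) -
              ∑ c ∈ (g.coeff d).coeff.support.erase v,
              (g.coeff d).coeff c • (y ^ d * (mo s (c + (γ.1 - v)) : R)) := by
            rw [h3]
            abel
          rw [h7]
          exact Submodule.sub_mem _ (Submodule.sub_mem _ hmem h1) h5
        have h8 := Submodule.smul_mem W ((g.coeff d).coeff v)⁻¹ h6
        have h9 : (g.coeff d).coeff v ≠ 0 := hlead.1
        rwa [smul_smul, inv_mul_cancel₀ h9, one_smul] at h8
      · have h0 : br s y e B B' g d v (dd, γ) = y ^ d * (mo s γ.1 : R) := by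
          simp only [br]
          rw [if_neg fun h => hγ h.2]
        rwa [h0] at hmem
  rw [Submodule.span_le]
  rintro _ ⟨⟨j, γ⟩, rfl⟩
  by_cases hj : (j : ℕ) = d
  · show y ^ (j : ℕ) * (mo s γ.1 : R) ∈ W
    rw [hj]
    exact hinr γ
  · exact hlow j γ hj

theorem spanR_eq {y : R} {e : ℕ}
    (hind : ∀ P : Polynomial (La k r), P.natDegree < e → evp s y P = 0 → P = 0)
    {B B' : Finset (Fin r → ℤ)} {g : Polynomial (La k r)}
    {v : Fin r → ℤ} {L : Fin r → ℝ} (hge : g.natDegree < e) (hlead : Lead L g.leadingCoeff v)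
    (hf : ∀ β ∈ B', ∀ j, ∀ c ∈ (g.coeff j).coeff.support, c + β ∈ B) :
    Submodule.span k (Set.range (br0 s y e B)) =
      Submodule.span k (Set.range (br s y e B B' g g.natDegree v)) ∧
      LinearIndependent k (br s y e B B' g g.natDegree v) := by
  classical
  have h1 := spanR_le s (y := y) hge hlead hf
  have h2 := indR0 s hind B
  have h3 := linearIndependent_iff_card_eq_finrank_span.1 h2
  have h4 : (Set.range (br s y e B B' g g.natDegree v)).finrank k ≤ Fintype.card (Fin e × B) :=
    finrank_range_le_card _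
  haveI : Module.Finite k (Submodule.span k (Set.range (br s y e B B' g g.natDegree v))) :=
    FiniteDimensional.span_of_finite k (Set.finite_range _)
  have h5 : Submodule.span k (Set.range (br0 s y e B)) =
      Submodule.span k (Set.range (br s y e B B' g g.natDegree v)) := by
    refine Submodule.eq_of_le_of_finrank_le h1 ?_
    unfold Set.finrank at h3 h4
    omega
  refine ⟨h5, ?_⟩
  rw [linearIndependent_iff_card_eq_finrank_span, h3]
  unfold Set.finrank
  rw [h5]

end Pool.Agent.H21bl.TC
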