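import Mathlib
import Pool.Agent.H21bl.TC.BasR
import Pool.Agent.H21bl.TC.KeyF

/-!
The key estimate for polynomials which are reducible at infinity.
-/

set_option autoImplicit false
set_option linter.unusedSectionVars false

open Finset Filter Module

namespace Pool.Agent.H21bl.TC

open Pool.Agent.N754.LT Pool.Agent.H21bl.CC

section err

variable {k R : Type} [Field k] [CommRing R] [IsDomain R] [Algebra k R] {r : ℕ} (s : Fin r → Rˣ)

/-- the error is small in the direction `L` -/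
def GoodR (Φ : Polynomial (La k r)) (N : ℝ) (d : DatR k r) (L : Fin r → ℝ) : Prop :=
  ∀ j, ∀ b ∈ ((errR Φ d.1 d.2.1).coeff j).coeff.support, dt b L ≤ 2 * dt d.2.2 L - N * ‖L‖

theorem errR_deg (Φ : Polynomial (La k r)) {e : ℕ} (he : Φ.natDegree = e) (d : DatR k r)
    (hd : OkR e d) : (errR Φ d.1 d.2.1).natDegree ≤ 2 * e := by
  unfold errR
  refine (Polynomial.natDegree_sub_le _ _).trans (max_le ?_ ?_)
  · refine Polynomial.natDegree_mul_le.trans ?_
    have h0 := (hd.2 0).1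
    have h1 := (hd.2 1).1
    omega
  · refine (Polynomial.natDegree_C_mul_le _ _).trans ?_
    omega

theorem evp_errR (Φ : Polynomial (La k r)) (y : R) (hy : evp s y Φ = 0) (d : La k r)
    (g : Fin 2 → Polynomial (La k r)) :
    ∏ i, evp s y (g i) = evp s y (errR Φ d g) := by
  unfold errR
  rw [map_sub, map_mul, map_mul, hy, mul_zero, sub_zero, Fin.prod_univ_two]

end err

section key

variable {k R : Type} [Field k] [CommRing R] [IsDomain R] [Algebra k R] {r : ℕ} (s : Fin r → Rˣ)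

theorem evp_mem_adj (y : R) (P : Polynomial (La k r)) : evp s y P ∈ adj (k := k) s y := by
  rw [evp_sum s y P _ le_rfl]
  exact Subalgebra.sum_mem _ fun j _ => mul_mem (ev_mem_adj s y _) (pow_mem (y_mem_adj s y) _)

theorem key_finR (Φ : Polynomial (La k r)) {e : ℕ} (he : Φ.natDegree = e) (hΦ : Φ.Monic)
    (he2 : 2 ≤ e) (y : R) (hy : evp s y Φ = 0) (C0 : ℝ) (hC0 : 0 ≤ C0)
    (hC : ∀ j, ∀ b ∈ (Φ.coeff j).coeff.support, ∀ L : Fin r → ℝ, dt b L ≤ C0 * ‖L‖)
    (μ : Fin r → ℝ) (ε : ℝ) (hε : 0 < ε) (N : ℝ)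
    (hN : (2 * e + 4 * (e * e)) * C0 + 1 +
      (((2 * e + 4 * (e * e)) * C0 + 1) / ε) * ∑ j, |μ j| ≤ N)
    {ι : Type} [Fintype ι] (d : ι → DatR k r) (hd : ∀ i, OkR e (d i))
    (hcov : ∀ L : Fin r → ℝ, (∃ i, GoodR Φ N (d i) L) ∨ ε * ‖L‖ ≤ ∑ j, μ j * L j)
    (hind : ∀ P : Polynomial (La k r), P.natDegree < e → evp s y P = 0 → P = 0) :
    ∃ (n : ℕ) (κ : Type) (_ : Finite κ) (fam : κ → Fin n → R),
      (∀ c, LinearIndependent k (fam c)) ∧
      (∀ c c', Submodule.span k (Set.range (fam c)) = Submodule.span k (Set.range (fam c'))) ∧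
      (∀ c i, fam c i ∈ adj (k := k) s y) ∧
      ∀ D : Dz k R, (∀ sel : D.Ω → κ, D.Neg fun ω => -∑ i, D.lg (fam (sel ω) i) ω) →
        D.Neg fun ω => ‖LZ D s ω‖ := by
  classical
  have he0 : 0 < e := by omega
  have hy0 : y ≠ 0 := by
    intro h
    have h1 := hind Polynomial.X (by
      refine lt_of_le_of_lt Polynomial.natDegree_X_le ?_
      omega) (by rw [evp_X, h])
    exact Polynomial.X_ne_zero h1
  let K0 : ℝ := (2 * e + 4 * (e * e)) * C0
  have hK0 : 0 ≤ K0 := by positivity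
  let Cm : ℝ := ∑ j, |μ j|
  have hCm : 0 ≤ Cm := Finset.sum_nonneg fun _ _ => abs_nonneg _
  have hCm' : ∀ L : Fin r → ℝ, -(Cm * ‖L‖) ≤ ∑ j, μ j * L j := by
    intro L
    have h1 : |∑ j, μ j * L j| ≤ Cm * ‖L‖ := by
      refine (Finset.abs_sum_le_sum_abs _ _).trans ?_
      rw [Finset.sum_mul]
      refine Finset.sum_le_sum fun j _ => ?_
      rw [abs_mul]
      exact mul_le_mul_of_nonneg_left (norm_le_pi_norm L j) (abs_nonneg _)
    exact (abs_le.1 h1).1
  let lam : ℝ := (K0 + 1) / ε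
  have hlam : 0 ≤ lam := by positivity
  have hlam' : lam * ε = K0 + 1 := div_mul_cancel₀ _ hε.ne'
  have hN' : K0 + 1 + lam * Cm ≤ N := hN
  let T : Finset (Fin r → ℤ) := Finset.univ.biUnion fun i => (d i).1.coeff.support
  -- the index set
  let κs : Finset (ι × Fin 2 × (Fin r → ℤ)) :=
    ((Finset.univ : Finset ι) ×ˢ ((Finset.univ : Finset (Fin 2)) ×ˢ T)).filter fun c =>
      ∃ L : Fin r → ℝ, Lead L (d c.1).1 c.2.2
  let g : Option κs → Polynomial (La k r) := fun o => o.elim 1 fun c => (d c.1.1).2.1 c.1.2.1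
  let v : Option κs → Fin r → ℤ := fun o => o.elim 0 fun c => c.1.2.2
  have hκ : ∀ c : κs, ∃ L : Fin r → ℝ, Lead L (d c.1.1).1 c.1.2.2 := fun c =>
    (Finset.mem_filter.1 c.2).2
  have hlead : ∀ c : Option κs, ∃ L : Fin r → ℝ, Lead L (g c).leadingCoeff (v c) := by
    rintro (_ | c)
    · refine ⟨0, ?_⟩
      show Lead 0 (1 : Polynomial (La k r)).leadingCoeff 0
      rw [Polynomial.leadingCoeff_one]
      exact Lead.one 0
    · obtain ⟨L, hL⟩ := hκ c
      refine ⟨L, ?_⟩
      show Lead L ((d c.1.1).2.1 c.1.2.1).leadingCoeff c.1.2.2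
      rw [((hd c.1.1).2 c.1.2.1).2]
      exact hL
  have hge : ∀ c : Option κs, (g c).natDegree < e := by
    rintro (_ | c)
    · show (1 : Polynomial (La k r)).natDegree < e
      rw [Polynomial.natDegree_one]
      exact he0
    · exact ((hd c.1.1).2 c.1.2.1).1
  -- the boxes
  have hsup : ∀ c : Option κs, ∃ T' : Finset (Fin r → ℤ), ∀ j, ∀ b ∈ ((g c).coeff j).coeff.support,
      b ∈ T' := by
    intro c
    refine ⟨(Finset.range ((g c).natDegree + 1)).biUnion fun j => ((g c).coeff j).coeff.support,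
      fun j b hb => Finset.mem_biUnion.2 ⟨j, Finset.mem_range.2 ?_, hb⟩⟩
    by_contra hcon
    push Not at hcon
    rw [Polynomial.coeff_eq_zero_of_natDegree_lt (by omega)] at hb
    simp at hb
  choose T' hT' using hsup
  obtain ⟨K, hK⟩ := exists_bound (Finset.univ.biUnion fun c : Option κs => T' c)
  obtain ⟨n, hn1, hn⟩ := exists_size K r 1 one_pos
  let B' : Finset (Fin r → ℤ) := box K (n + K)
  let B : Finset (Fin r → ℤ) := box 0 (n + 2 * K)
  have hf : ∀ c, ∀ β ∈ B', ∀ j, ∀ b ∈ ((g c).coeff j).coeff.support, b + β ∈ B := by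
    intro c β hβ j b hb
    have h1 := hK b (Finset.mem_biUnion.2 ⟨c, Finset.mem_univ _, hT' c j b hb⟩)
    rw [mem_box] at hβ ⊢
    intro i
    have h2 := hβ i
    have h3 := abs_le.1 (h1 i)
    rw [Pi.add_apply]
    omega
  have hvB : ∀ c, ∀ β ∈ B', v c + β ∈ B := by
    intro c β hβ
    obtain ⟨L, hL⟩ := hlead c
    exact hf c β hβ _ (v c) (Finsupp.mem_support_iff.2 hL.1)
  let E := Fintype.equivFin (Fin e × B)
  have hrange : ∀ c, Set.range (fun i => br s y e B B' (g c) (g c).natDegree (v c) (E.symm i)) =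
      Set.range (br s y e B B' (g c) (g c).natDegree (v c)) := fun c =>
    E.symm.surjective.range_comp (br s y e B B' (g c) (g c).natDegree (v c))
  refine ⟨Fintype.card (Fin e × B), Option κs, inferInstance,
    fun c i => br s y e B B' (g c) (g c).natDegree (v c) (E.symm i), fun c => ?_, fun c c' => ?_,
    fun c i => ?_, fun D hsmt => ?_⟩
  · obtain ⟨L, hL⟩ := hlead c
    exact (spanR_eq s hind (hge c) hL (hf c)).2.comp _ E.symm.injective
  · obtain ⟨L, hL⟩ := hlead c
    obtain ⟨L', hL'⟩ := hlead c'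
    rw [hrange, hrange, ← (spanR_eq s hind (hge c) hL (hf c)).1,
      ← (spanR_eq s hind (hge c') hL' (hf c')).1]
  · show br s y e B B' (g c) (g c).natDegree (v c) (E.symm i) ∈ adj (k := k) s y
    simp only [br]
    split_ifs
    · exact mul_mem (evp_mem_adj s y _) (mo_mem_adj s y _)
    · exact mul_mem (pow_mem (y_mem_adj s y) _) (mo_mem_adj s y _)
  -- the selection
  have hsel : ∀ ω : D.Ω, ∃ o : Option κs, (∃ c : κs, o = some c ∧
      GoodR Φ N (d c.1.1) (LZ D s ω) ∧ Lead (LZ D s ω) (d c.1.1).1 c.1.2.2 ∧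
      ∀ j, D.A (evp s y ((d c.1.1).2.1 c.1.2.1)) ω ≤ D.A (evp s y ((d c.1.1).2.1 j)) ω) ∨
      (o = none ∧ ε * ‖LZ D s ω‖ ≤ ∑ j, μ j * LZ D s ω j) := by
    intro ω
    rcases hcov (LZ D s ω) with ⟨i, hi⟩ | h1
    · obtain ⟨j, -, h4⟩ := (Finset.univ : Finset (Fin 2)).exists_min_image
        (fun j => D.A (evp s y ((d i).2.1 j)) ω) ⟨0, Finset.mem_univ _⟩
      obtain ⟨v, hv⟩ := exists_lead (LZ D s ω) (d i).1 (by
        intro h0
        apply (hd i).1
        rw [h0]
        rfl)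
      refine ⟨some ⟨(i, j, v), ?_⟩, Or.inl ⟨_, rfl, hi, hv, fun j' => h4 j' (Finset.mem_univ _)⟩⟩
      refine Finset.mem_filter.2 ⟨Finset.mem_product.2 ⟨Finset.mem_univ _,
        Finset.mem_product.2 ⟨Finset.mem_univ _, ?_⟩⟩, LZ D s ω, hv⟩
      exact Finset.mem_biUnion.2 ⟨i, Finset.mem_univ _, Finsupp.mem_support_iff.2 hv.1⟩
    · exact ⟨none, Or.inr ⟨rfl, h1⟩⟩
  choose sel hsel using hsel
  have hsmt' : D.Neg fun ω =>
      -∑ i, D.lg (br s y e B B' (g (sel ω)) (g (sel ω)).natDegree (v (sel ω)) i) ω := by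
    refine D.neg_mono _ _ (Eventually.of_forall fun ω => ?_) (hsmt sel)
    rw [neg_le_neg_iff]
    refine le_of_eq ?_
    exact (E.symm.sum_comp fun i =>
      D.lg (br s y e B B' (g (sel ω)) (g (sel ω)).natDegree (v (sel ω)) i) ω)
  -- nonvanishing
  have hg0 : ∀ c : Option κs, evp s y (g c) ≠ 0 := by
    intro c h0
    have h1 := hind _ (hge c) h0
    obtain ⟨L, hL⟩ := hlead c
    refine hL.1 ?_
    rw [h1, Polynomial.leadingCoeff_zero]
    rfl
  obtain ⟨C1, hC1, hyb⟩ := A_y D s Φ hΦ (he ▸ he0) y hy C0 hC0 hC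
  choose CZ hCZ0 hCZ using fun i => A_eval D s (errR Φ (d i).1 (d i).2.1) (2 * e)
    (errR_deg Φ he (d i) (hd i)) y C0 C1 hC0 hC1 hyb
  let CC : ℝ := ∑ i, CZ i + 1
  have hCC : ∀ i, CZ i ≤ CC := by
    intro i
    have h1 := Finset.single_le_sum (f := CZ) (fun i _ => (hCZ0 i).le) (Finset.mem_univ i)
    simp only [CC]
    linarith
  have hCC0 : 0 < CC := by
    have h1 : 0 ≤ ∑ i, CZ i := Finset.sum_nonneg fun i _ => (hCZ0 i).le
    simp only [CC]
    linarith
  have ev1 : ∀ᶠ ω in D.ev, ∀ c ∈ (Finset.univ : Finset κs),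
      (∏ j, D.A (evp s y ((d c.1.1).2.1 j)) ω =
        D.A (evp s y (errR Φ (d c.1.1).1 (d c.1.1).2.1)) ω ∧
      (∀ j ∈ (Finset.univ : Finset (Fin 2)), 0 ≤ D.A (evp s y ((d c.1.1).2.1 j)) ω) ∧
      0 < D.A (evp s y ((d c.1.1).2.1 c.1.2.1)) ω ∧
      ∀ m : ℝ, (∀ j, ∀ b ∈ ((errR Φ (d c.1.1).1 (d c.1.1).2.1).coeff j).coeff.support,
        dt b (LZ D s ω) ≤ m) →
      D.A (evp s y (errR Φ (d c.1.1).1 (d c.1.1).2.1)) ω ≤
        CZ c.1.1 * Real.exp (m + (2 * e : ℕ) * C0 * ‖LZ D s ω‖)) := by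
    refine (Filter.eventually_all_finset _).2 fun c _ => ?_
    filter_upwards [hCZ c.1.1, D.A_prod Finset.univ (fun j => evp s y ((d c.1.1).2.1 j)),
      (Filter.eventually_all_finset (Finset.univ : Finset (Fin 2))).2
        (fun j _ => D.A_nonneg (evp s y ((d c.1.1).2.1 j))), D.A_pos _ (hg0 (some c))]
      with ω h1 h2 h3 h4
    refine ⟨?_, h3, h4, h1⟩
    rw [← h2]
    congr 1
    exact evp_errR s Φ y hy _ _
  have ev2 : ∀ᶠ ω in D.ev, ∀ c ∈ (Finset.univ : Finset (Option κs)),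
      ∀ p ∈ (Finset.univ : Finset (Fin e × B)),
      D.lg (br s y e B B' (g c) (g c).natDegree (v c) p) ω =
        (p.1 : ℕ) * D.lg y ω + dt p.2.1 (LZ D s ω) +
          if (p.1 : ℕ) = (g c).natDegree ∧ p.2.1 - v c ∈ B' then
            D.lg (evp s y (g c)) ω - dt (v c) (LZ D s ω) - (g c).natDegree * D.lg y ω else 0 := by
    refine (Filter.eventually_all_finset _).2 fun c _ => ?_
    refine (Filter.eventually_all_finset _).2 fun p _ => ?_
    by_cases hp : (p.1 : ℕ) = (g c).natDegree ∧ p.2.1 - v c ∈ B'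
    · filter_upwards [D.lg_mul (evp s y (g c)) (mo s (p.2.1 - v c) : R) (hg0 c)
          (Units.ne_zero _), lg_mo D s (p.2.1 - v c)] with ω h1 h2
      simp only [br]
      rw [if_pos hp, if_pos hp, h1, h2, dt_sub, hp.1]
      ring
    · filter_upwards [D.lg_mul (y ^ (p.1 : ℕ)) (mo s p.2.1 : R) (pow_ne_zero _ hy0)
          (Units.ne_zero _), lg_mo D s p.2.1, D.lg_pow y (p.1 : ℕ)] with ω h1 h2 h3
      simp only [br]
      rw [if_neg hp, if_neg hp, h1, h2, h3, add_zero]
  -- cardinalities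
  have hcB' : (B'.card : ℝ) = (n : ℝ) ^ r := by
    simp only [B']
    rw [card_box]
    have : ((n : ℤ) + K - K).toNat = n := by omega
    rw [this]
    push_cast
    rfl
  have hcB : (B.card : ℝ) = ((n + 2 * K : ℕ) : ℝ) ^ r := by
    simp only [B]
    rw [card_box]
    have : ((n : ℤ) + 2 * K - 0).toNat = n + 2 * K := by omega
    rw [this]
    push_cast
    rfl
  have hcard : ∀ c : Option κs, (B.filter fun γ => γ - v c ∈ B').card = B'.card := fun c =>
    card_filter_box (v c) (hvB c)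
  have hBB' : 0 ≤ (B.card : ℝ) - B'.card := by
    rw [sub_nonneg, hcB, hcB']
    refine pow_le_pow_left₀ (by positivity) ?_ r
    push_cast
    have : (0 : ℝ) ≤ K := by positivity
    linarith
  have hBB'' : (B.card : ℝ) ≤ 2 * B'.card := by
    have h1 : ((B.card : ℝ) - B'.card) * 1 ≤ B'.card := by
      rw [hcB, hcB']
      exact hn
    linarith
  have hB1 : (1 : ℝ) ≤ B'.card := by
    rw [hcB']
    exact one_le_pow₀ (by exact_mod_cast hn1)
  have he' : (0 : ℝ) < e := by exact_mod_cast he0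
  let S : ℝ := ∑ j : Fin e, ((j : ℕ) : ℝ)
  have hS0 : ∀ j : Fin e, ((j : ℕ) : ℝ) ≤ S := fun j =>
    Finset.single_le_sum (f := fun j : Fin e => ((j : ℕ) : ℝ)) (fun _ _ => Nat.cast_nonneg _)
      (Finset.mem_univ j)
  have hS1 : S ≤ e * e := by
    have h1 : S ≤ ∑ _j : Fin e, (e : ℝ) := Finset.sum_le_sum fun j _ => by
      exact_mod_cast j.2.le
    rw [Finset.sum_const, Finset.card_univ, Fintype.card_fin, nsmul_eq_mul] at h1
    exact h1
  have hSn : 0 ≤ S := Finset.sum_nonneg fun _ _ => Nat.cast_nonneg _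
  have hsum : ∀ (c : Option κs) (a : ℝ), ∑ p : Fin e × B,
      (if (p.1 : ℕ) = (g c).natDegree ∧ p.2.1 - v c ∈ B' then a else 0) = B'.card * a := by
    intro c a
    rw [Fintype.sum_prod_type, Finset.sum_eq_single (⟨(g c).natDegree, hge c⟩ : Fin e)]
    · simp only [true_and]
      rw [Finset.sum_coe_sort B (fun γ => if γ - v c ∈ B' then a else 0), Finset.sum_ite,
        Finset.sum_const, Finset.sum_const_zero, add_zero, hcard c, nsmul_eq_mul]
    · intro j _ hj
      refine Finset.sum_eq_zero fun γ _ => ?_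
      rw [if_neg]
      rintro ⟨h1, -⟩
      exact hj (Fin.ext h1)
    · intro h
      exact absurd (Finset.mem_univ _) h
  have hsum0 : ∀ (a : ℝ) (L : Fin r → ℝ), ∑ p : Fin e × B,
      (((p.1 : ℕ) : ℝ) * a + dt p.2.1 L) = B.card * S * a + e * dt (∑ γ ∈ B, γ) L := by
    intro a L
    rw [Finset.sum_add_distrib, Fintype.sum_prod_type, Fintype.sum_prod_type]
    congr 1
    · simp only [Finset.sum_const, Finset.card_univ, Fintype.card_coe, nsmul_eq_mul]
      rw [← Finset.mul_sum, ← Finset.sum_mul]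
      simp only [S]
      ring
    · simp only [Finset.sum_const, Finset.card_univ, Fintype.card_fin, nsmul_eq_mul]
      rw [dt_sum, Finset.sum_coe_sort B (fun γ => dt γ L)]
  -- the final estimate
  have hlC1 : 0 ≤ Real.log C1 := Real.log_nonneg hC1
  let c1 : ℝ := |Real.log CC|
  let cst : ℝ := B'.card * c1 + 2 * B.card * S * Real.log C1
  have hfin : ∀ᶠ ω in D.ev, ‖LZ D s ω‖ ≤ 2 *
      ((-∑ i, D.lg (br s y e B B' (g (sel ω)) (g (sel ω)).natDegree (v (sel ω)) i) ω) +
      e * dt (∑ γ ∈ B, γ) (LZ D s ω)) +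
      (B'.card * lam * (∑ j, μ j * LZ D s ω j) + cst) := by
    filter_upwards [ev1, ev2, hyb, D.A_pos y hy0, D.lg_one] with ω h1 h2 h3 h5 h6
    have hselω := hsel ω
    set L := LZ D s ω with hL
    set o := sel ω with ho
    have hLn : 0 ≤ ‖L‖ := norm_nonneg _
    -- the sum
    have e1 : ∑ i, D.lg (br s y e B B' (g o) (g o).natDegree (v o) i) ω =
        B.card * S * D.lg y ω + e * dt (∑ γ ∈ B, γ) L +
        B'.card * (D.lg (evp s y (g o)) ω - dt (v o) L - (g o).natDegree * D.lg y ω) := by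
      rw [Finset.sum_congr rfl fun i hi => h2 o (Finset.mem_univ _) i hi, Finset.sum_add_distrib,
        hsum, hsum0]
    have e3 : D.lg y ω ≤ Real.log C1 + C0 * ‖L‖ := by
      have m2 := Real.log_le_log h5 h3
      rw [Real.log_mul (by linarith) (Real.exp_pos _).ne', Real.log_exp] at m2
      exact m2
    have e4 : (B.card * S - B'.card * (g o).natDegree) * D.lg y ω ≤
        B.card * S * (Real.log C1 + C0 * ‖L‖) := by
      have m1 : ((g o).natDegree : ℝ) ≤ S := hS0 ⟨_, hge o⟩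
      have m2 : 0 ≤ (B.card : ℝ) * S - B'.card * (g o).natDegree := by
        have m3 : (B'.card : ℝ) * (g o).natDegree ≤ B.card * S :=
          mul_le_mul (by linarith) m1 (Nat.cast_nonneg _) (by linarith)
        linarith
      have m3 := mul_le_mul_of_nonneg_left e3 m2
      refine m3.trans ?_
      have m4 : 0 ≤ Real.log C1 + C0 * ‖L‖ := by positivity
      refine mul_le_mul_of_nonneg_right ?_ m4
      have : 0 ≤ (B'.card : ℝ) * (g o).natDegree := by positivity
      linarith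
    -- the approximation
    have e2 : 2 * (D.lg (evp s y (g o)) ω - dt (v o) L) + 4 * (e * e) * C0 * ‖L‖ ≤
        c1 + lam * (∑ j, μ j * L j) - ‖L‖ := by
      have hlC := abs_nonneg (Real.log CC)
      rcases hselω with ⟨c, hoc, k1, k2, k3⟩ | ⟨hoc, k1⟩
      · rw [hoc]
        obtain ⟨g1, g2, g3, g4⟩ := h1 c (Finset.mem_univ _)
        have m1 := g4 (2 * dt (d c.1.1).2.2 L - N * ‖L‖) k1
        have m2 : D.A (evp s y ((d c.1.1).2.1 c.1.2.1)) ω ^ 2 ≤
            ∏ j, D.A (evp s y ((d c.1.1).2.1 j)) ω := by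
          have m3 : D.A (evp s y ((d c.1.1).2.1 c.1.2.1)) ω ^ 2 =
              ∏ _j : Fin 2, D.A (evp s y ((d c.1.1).2.1 c.1.2.1)) ω := by
            rw [Finset.prod_const, Finset.card_univ, Fintype.card_fin]
          rw [m3]
          exact Finset.prod_le_prod (fun j _ => g3.le) fun j _ => k3 j
        have m3 : D.A (evp s y ((d c.1.1).2.1 c.1.2.1)) ω ^ 2 ≤
            CC * Real.exp (2 * dt (d c.1.1).2.2 L - N * ‖L‖ + (2 * e : ℕ) * C0 * ‖L‖) := by
          refine (m2.trans (g1.le.trans m1)).trans ?_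
          exact mul_le_mul_of_nonneg_right (hCC _) (Real.exp_pos _).le
        have m4 := Real.log_le_log (pow_pos g3 2) m3
        rw [Real.log_pow, Real.log_mul hCC0.ne' (Real.exp_pos _).ne', Real.log_exp] at m4
        have m5 : v (some c) = c.1.2.2 := rfl
        have m6 : dt (d c.1.1).2.2 L ≤ dt c.1.2.2 L :=
          k2.le _ (Finsupp.mem_support_iff.2 (hd _).1)
        have m7 : (K0 + 1 + lam * Cm) * ‖L‖ ≤ N * ‖L‖ := mul_le_mul_of_nonneg_right hN' hLn
        have m8 := le_abs_self (Real.log CC)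
        have m9 := mul_le_mul_of_nonneg_left (hCm' L) hlam
        have m10 : D.lg (evp s y (g (some c))) ω =
            Real.log (D.A (evp s y ((d c.1.1).2.1 c.1.2.1)) ω) := rfl
        rw [m5, m10]
        simp only [c1, K0] at *
        push_cast at m4
        nlinarith
      · rw [hoc]
        have m1 : dt (v none) L = 0 := dt_zero L
        have m2 : evp s y (g none) = 1 := map_one _
        rw [m1, m2, h6, sub_zero, mul_zero, zero_add]
        have m3 := mul_le_mul_of_nonneg_left k1 hlam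
        rw [← mul_assoc, hlam'] at m3
        simp only [c1, K0] at *
        have m4 : 0 ≤ 2 * (e : ℝ) * C0 * ‖L‖ := by positivity
        nlinarith
    rw [e1]
    have e5 : (B'.card : ℝ) * (2 * (D.lg (evp s y (g o)) ω - dt (v o) L) +
        4 * (e * e) * C0 * ‖L‖) ≤
        B'.card * (c1 + lam * (∑ j, μ j * L j) - ‖L‖) :=
      mul_le_mul_of_nonneg_left e2 (by linarith)
    have e6 : 2 * (B.card : ℝ) * S * (C0 * ‖L‖) ≤ B'.card * (4 * (e * e) * C0 * ‖L‖) := by
      have m1 : (B.card : ℝ) * S ≤ (2 * B'.card) * (e * e) :=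
        mul_le_mul hBB'' hS1 hSn (by positivity)
      have m2 : 0 ≤ C0 * ‖L‖ := by positivity
      nlinarith
    have e7 : 1 * ‖L‖ ≤ B'.card * ‖L‖ := mul_le_mul_of_nonneg_right hB1 hLn
    simp only [cst]
    nlinarith
  refine D.neg_mono _ _ hfin ?_
  refine D.neg_add _ _ ?_ (D.neg_add _ _ ?_ (D.neg_const _))
  · refine D.neg_smul _ _ (by positivity) ?_
    refine D.neg_add _ _ hsmt' ?_
    exact D.neg_smul _ _ (by positivity) (neg_dt D s _)
  · exact D.neg_smul _ _ (by positivity) (neg_lin D s μ)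

end key

end Pool.Agent.H21bl.TC
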