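import Mathlib
import Pool.Agent.H21bl.TC.An3
import Pool.Agent.H21bl.TC.CmpR

/-!
Entire functions: roots of polynomials which are reducible at infinity.
-/

set_option autoImplicit false
set_option linter.unusedSectionVars false

open Finset Filter Topology

namespace Pool.Agent.H21bl.TC

open Pool.Agent.N754.LT Pool.Agent.H21bl Pool.Agent.H21bl.CC
open Pool.Agent.H159R3.NV (Ent)

theorem not_hindER {r : ℕ} (hr : 0 < r) (s : Fin r → Entˣ)
    (hne : ∀ b : Fin r → ℤ, b ≠ 0 → ∀ c : ℂ, (mo s b : Ent) ≠ algebraMap ℂ Ent c)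
    (Φ : Polynomial (La ℂ r)) {e : ℕ} (FDΦ : FR Φ e) (hΦ : Φ.Monic) (he2 : 2 ≤ e) (y : Ent)
    (hy : evp s y Φ = 0) :
    ¬ ∀ P : Polynomial (La ℂ r), P.natDegree < e → evp s y P = 0 → P = 0 := by
  classical
  intro hind
  have he0 : 0 < e := by omega
  obtain ⟨n, κ, _, fam, h1, h2, h3, h4⟩ := key_FR s Φ FDΦ hΦ he2 y hy hind
  have := Fintype.ofFinite κ
  let j0 : Fin r := ⟨0, hr⟩
  let E := Fintype.equivFin ((κ × Fin n) ⊕ Unit)
  let g : (κ × Fin n) ⊕ Unit → Ent := Sum.elim (fun p => fam p.1 p.2) fun _ => (s j0 : Ent)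
  let f : Fin (Fintype.card ((κ × Fin n) ⊕ Unit)) → Ent := fun i => g (E.symm i)
  have hg : ∀ i, g i ≠ 0 := by
    rintro (p | p)
    · exact (h1 p.1).ne_zero p.2
    · exact Units.ne_zero _
  have hf : ∀ i, f i ≠ 0 := fun i => hg _
  have hnc : ∀ a : ℂ, f (E (Sum.inr ())) ≠ algebraMap ℂ Ent a := by
    intro a ha
    have h5 : f (E (Sum.inr ())) = s j0 := by
      simp only [f, g, Equiv.symm_apply_apply, Sum.elim_inr]
    rw [h5] at ha
    refine hne (Pi.single j0 1) ?_ a ?_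
    · intro h0
      have h6 := congrFun h0 j0
      rw [Pi.single_eq_same] at h6
      exact one_ne_zero h6
    · rw [← ha]
      congr 1
      unfold mo
      rw [Finset.prod_eq_single j0]
      · rw [Pi.single_eq_same, zpow_one]
      · intro i _ hi
        rw [Pi.single_eq_of_ne hi, zpow_zero]
      · intro h
        exact absurd (Finset.mem_univ _) h
  obtain ⟨R⟩ := exists_Rad f hf (E (Sum.inr ())) hnc
  have h5 := h4 (DzE R) fun sel => smtE R fam h1 h2 (fun c a => ⟨E (Sum.inl (c, a)), by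
    simp only [f, g, Equiv.symm_apply_apply, Sum.elim_inl]⟩) sel
  obtain ⟨C1, hC1, hyb⟩ := A_y (DzE R) s Φ hΦ (by rw [FDΦ.deg]; exact he0) y hy FDΦ.C0 FDΦ.hC0
    FDΦ.hC
  refine ch_bound R (fun ω => ‖LZ (DzE R) s ω‖) (fun ω => norm_nonneg _) h5 fun i => ?_
  refine A_adj (DzE R) s y FDΦ.C0 C1 FDΦ.hC0 hC1 hyb (f i) ?_
  simp only [f]
  rcases E.symm i with p | p
  · exact h3 p.1 p.2
  · exact Algebra.subset_adjoin (Set.mem_insert_of_mem _ (Or.inl ⟨j0, rfl⟩))

end Pool.Agent.H21bl.TC
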