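import Mathlib
import Pool.Agent.H21bl.TC.Dvd
import Pool.Agent.H21bl.CC.KeyB

/-!
Germs of integral points: roots of polynomials over the ring of Laurent polynomials in units.
-/

set_option autoImplicit false
set_option linter.unusedSectionVars false

open Finset Filter

namespace Pool.Agent.H21bl.TC

open NumberField IsDedekindDomain
open Pool.Agent.N754.LT Pool.Agent.Y742.SF Pool.Agent.Y742.AR Pool.Agent.H21bl.CC
open scoped NumberField

section lift

variable {k k' : Type} [Field k] [Field k'] {r : ℕ} (j : k →+* k')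

theorem err_map (Φ : Polynomial (La k r)) (d : La k r) {e : ℕ} (Q : Fin e → La k r) :
    (err Φ d Q).map (mapL j) = err (Φ.map (mapL j)) (mapL j d) fun i => mapL j (Q i) := by
  unfold err
  rw [Polynomial.map_sub, Polynomial.map_mul, Polynomial.map_C, map_pow, Polynomial.map_prod]
  congr 1
  refine Finset.prod_congr rfl fun i _ => ?_
  rw [Polynomial.map_sub, Polynomial.map_mul, Polynomial.map_C, Polynomial.map_C, Polynomial.map_X]

/-- change of constants in the data -/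
noncomputable def mapD {e : ℕ} (d : Dat k r e) : Dat k' r e :=
  (mapL j d.1, fun i => mapL j (d.2.1 i), d.2.2)

theorem supp_err_map (Φ : Polynomial (La k r)) {e : ℕ} (d : Dat k r e) (i : ℕ) :
    ((err (Φ.map (mapL j)) (mapD j d).1 (mapD j d).2.1).coeff i).coeff.support =
      ((err Φ d.1 d.2.1).coeff i).coeff.support := by
  have h1 : err (Φ.map (mapL j)) (mapD j d).1 (mapD j d).2.1 = (err Φ d.1 d.2.1).map (mapL j) :=
    (err_map j Φ d.1 d.2.1).symm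
  rw [h1, Polynomial.coeff_map, supp_mapL]

theorem mapD_ne {e : ℕ} (d : Dat k r e) :
    (mapD j d).1.coeff (mapD j d).2.2 ≠ 0 ↔ d.1.coeff d.2.2 ≠ 0 := by
  show (mapL j d.1).coeff d.2.2 ≠ 0 ↔ _
  rw [coeff_mapL, Ne, map_eq_zero_iff j j.injective]

theorem good_map (Φ : Polynomial (La k r)) {e : ℕ} (N : ℝ) (d : Dat k r e) (L : Fin r → ℝ) :
    Good (Φ.map (mapL j)) N (mapD j d) L ↔ Good Φ N d L := by
  unfold Good
  constructor
  · intro h i b hb
    exact h i b (by rw [supp_err_map]; exact hb)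
  · intro h i b hb
    exact h i b (by rw [supp_err_map] at hb; exact hb)

/-- descent of the data -/
theorem FD_lift (Φ : Polynomial (La k r)) {e : ℕ} (F : FD (Φ.map (mapL j)) e)
    (hlift : ∀ d ∈ F.l, ∃ d' : Dat k r e, mapD j d' = d) : Nonempty (FD Φ e) := by
  classical
  have hdeg : (Φ.map (mapL j)).natDegree = Φ.natDegree :=
    Polynomial.natDegree_map_eq_of_injective (mapL_inj j) Φ
  choose d' hd' using fun i : Fin F.l.length => hlift (F.l.get i) (List.get_mem _ _)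
  refine ⟨{ deg := by rw [← hdeg, F.deg], C0 := F.C0, hC0 := F.hC0, hC := ?_, μ := F.μ, ε := F.ε,
            hε := F.hε, N := F.N, hN := F.hN, l := List.ofFn d', hl := ?_, hcov := ?_ }⟩
  · intro i b hb L
    refine F.hC i b ?_ L
    rw [Polynomial.coeff_map, supp_mapL]
    exact hb
  · intro d hd
    obtain ⟨i, rfl⟩ := List.mem_ofFn.1 hd
    rw [← mapD_ne j, hd']
    exact F.hl _ (List.get_mem _ _)
  · intro L
    rcases F.hcov L with ⟨d, hd, h⟩ | h
    · obtain ⟨i, hi⟩ := List.mem_iff_get.1 hd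
      refine Or.inl ⟨d' i, List.mem_ofFn.2 ⟨i, rfl⟩, ?_⟩
      rw [← good_map j, hd', hi]
      exact h
    · exact Or.inr h

/-- change of constants for splitting polynomials -/
theorem SplitsE.map {Φ : Polynomial (La k r)} {e : ℕ} {θ : Fin r → ℝ} (h : SplitsE Φ e θ) :
    SplitsE (Φ.map (mapL j)) e θ := by
  intro N
  obtain ⟨d, hd, hd2⟩ := h N
  refine ⟨mapD j d, (mapD_ne j d).2 hd, fun i b hb => ?_⟩
  rw [supp_err_map] at hb
  exact hd2 i b hb

theorem SplitsH.map {Φ : Polynomial (La k r)} (h : SplitsH Φ) : SplitsH (Φ.map (mapL j)) := by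
  obtain ⟨μ, ε, hε, h⟩ := h
  refine ⟨μ, ε, hε, fun θ hθ hμ => ?_⟩
  rw [Polynomial.natDegree_map_eq_of_injective (mapL_inj j) Φ]
  exact (h θ hθ hμ).map j

theorem evp_mapL {R R' : Type} [CommRing R] [CommRing R'] [Algebra k R] [Algebra k' R']
    (Θ : R →+* R')
    (hΘ : ∀ c, Θ (algebraMap k R c) = algebraMap k' R' (j c)) (s : Fin r → Rˣ) (s' : Fin r → R'ˣ)
    (hs : ∀ i, Θ (s i) = s' i) (y : R) (Φ : Polynomial (La k r)) :
    Θ (evp s y Φ) = evp s' (Θ y) (Φ.map (mapL j)) := by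
  have h1 : Θ.comp (evp s y) = (evp s' (Θ y)).comp (Polynomial.mapRingHom (mapL j)) := by
    apply Polynomial.ringHom_ext
    · intro p
      rw [RingHom.comp_apply, RingHom.comp_apply, Polynomial.coe_mapRingHom, Polynomial.map_C,
        evp_C, evp_C]
      exact ev_mapL j Θ hΘ s s' hs p
    · rw [RingHom.comp_apply, RingHom.comp_apply, Polynomial.coe_mapRingHom, Polynomial.map_X,
        evp_X, evp_X]
  exact RingHom.congr_fun h1 Φ

end lift

variable {𝒰 : Ultrafilter ℕ} {r : ℕ}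

section root

variable {M : Type} [Field M] [NumberField M]

theorem rep_pow' (y0 : BA M 𝒰) (k : ℕ) : ∀ᶠ t in (𝒰 : Filter ℕ),
    rep (K := M) (𝒰 := 𝒰) (y0 ^ k) t = rep (K := M) (𝒰 := 𝒰) y0 t ^ k := by
  induction k with
  | zero =>
    filter_upwards [Pool.Agent.Y742.AR.rep_one (K := M) (𝒰 := 𝒰)] with t h
    rw [pow_zero, pow_zero]
    exact h
  | succ k ih =>
    filter_upwards [ih, Pool.Agent.Y742.AR.rep_mul (K := M) (𝒰 := 𝒰) (y0 ^ k) y0] with t h1 h2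
    rw [pow_succ, pow_succ, ← h1]
    exact h2

variable [IsGalois ℚ M] (D : PD M) {N : ℕ → ℝ}

theorem Bd_root (hN : ∀ t, 1 ≤ N t) (y0 : BA M 𝒰) (e : ℕ) (he : 0 < e) (a : ℕ → BA M 𝒰)
    (ha : ∀ i, Bd D N 𝒰 (rep (K := M) (𝒰 := 𝒰) (a i)))
    (h : y0 ^ e = ∑ i ∈ range e, a i * y0 ^ i) : Bd D N 𝒰 (rep (K := M) (𝒰 := 𝒰) y0) := by
  classical
  choose C hC0 hC using ha
  have hS : 0 ≤ ∑ i ∈ range e, C i := Finset.sum_nonneg fun i _ => hC0 i
  refine ⟨∑ i ∈ range e, C i + e, by positivity, ?_⟩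
  have ev1 : ∀ᶠ t in (𝒰 : Filter ℕ), ∀ i ∈ range e,
      (∀ v, D.av v (rep (K := M) (𝒰 := 𝒰) (a i) t) ≤ Real.exp (C i * N t)) ∧
      rep (K := M) (𝒰 := 𝒰) (a i * y0 ^ i : BA M 𝒰) t =
        rep (K := M) (𝒰 := 𝒰) (a i) t * rep (K := M) (𝒰 := 𝒰) y0 t ^ i := by
    refine (Filter.eventually_all_finset _).2 fun i _ => ?_
    filter_upwards [hC i, rep_pow' y0 i,
      Pool.Agent.Y742.AR.rep_mul (K := M) (𝒰 := 𝒰) (a i) (y0 ^ i)] with t h1 h2 h3
    refine ⟨h1, ?_⟩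
    rw [← h2]
    exact h3
  have hsum : ∀ᶠ t in (𝒰 : Filter ℕ),
      rep (K := M) (𝒰 := 𝒰) (∑ i ∈ range e, a i * y0 ^ i : BA M 𝒰) t =
        ∑ i ∈ range e, rep (K := M) (𝒰 := 𝒰) (a i * y0 ^ i : BA M 𝒰) t :=
    Pool.Agent.Y742.AR.rep_sum (K := M) (𝒰 := 𝒰) (range e) fun i => (a i * y0 ^ i : BA M 𝒰)
  filter_upwards [ev1, hsum, rep_pow' y0 e] with t h1 h2 h3 v
  set Y := rep (K := M) (𝒰 := 𝒰) y0 t with hY
  have hNt := hN t
  have hE : 0 ≤ (∑ i ∈ range e, C i + e) * N t := by positivity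
  have hpow : ∀ (x : M) (k : ℕ), D.av v (x ^ k) = D.av v x ^ k := by
    intro x k
    induction k with
    | zero => rw [pow_zero, pow_zero, D.av_one]
    | succ k ih => rw [pow_succ, pow_succ, D.av_mul, ih]
  rcases le_total (D.av v Y) 1 with h4 | h4
  · exact h4.trans (Real.one_le_exp hE)
  · have h5 : Y ^ e = ∑ i ∈ range e, rep (K := M) (𝒰 := 𝒰) (a i) t * Y ^ i := by
      rw [← h3, h, h2]
      exact Finset.sum_congr rfl fun i hi => (h1 i hi).2
    have h6 : D.av v Y ^ e ≤ ∑ i ∈ range e, Real.exp ((∑ i ∈ range e, C i) * N t) *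
        D.av v Y ^ (e - 1) := by
      rw [← hpow, h5]
      refine (D.av_sum_le v _ _).trans (Finset.sum_le_sum fun i hi => ?_)
      rw [D.av_mul, hpow]
      have h7 := (h1 i hi).1 v
      have h8 : C i ≤ ∑ i ∈ range e, C i := Finset.single_le_sum (fun i _ => hC0 i) hi
      have h9 : Real.exp (C i * N t) ≤ Real.exp ((∑ i ∈ range e, C i) * N t) :=
        Real.exp_le_exp.2 (mul_le_mul_of_nonneg_right h8 (by linarith))
      refine mul_le_mul (h7.trans h9) ?_ (pow_nonneg (D.av_nonneg _ _) _) (Real.exp_pos _).le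
      exact pow_le_pow_right₀ h4 (by have := Finset.mem_range.1 hi; omega)
    rw [Finset.sum_const, Finset.card_range, nsmul_eq_mul, ← mul_assoc] at h6
    have h7 : D.av v Y ^ e = D.av v Y * D.av v Y ^ (e - 1) := by
      rw [← pow_succ']
      congr 1
      omega
    rw [h7] at h6
    have h8 := le_of_mul_le_mul_right h6 (pow_pos (by linarith) _)
    refine h8.trans ?_
    rw [add_mul, Real.exp_add, mul_comm]
    refine mul_le_mul_of_nonneg_left ?_ (Real.exp_pos _).le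
    have h9 : (e : ℝ) ≤ e * N t := by
      have : (0 : ℝ) ≤ e := by positivity
      nlinarith
    have h10 := Real.add_one_le_exp ((e : ℝ) * N t)
    linarith

end root

theorem not_hindB (hr : 0 < r) (s : Fin r → (GB 𝒰)ˣ) (hs : ∀ j, s j ∈ WB 𝒰)
    (hsne : ∀ b : Fin r → ℤ, b ≠ 0 → ∀ c : Qb, (mo s b : GB 𝒰) ≠ algebraMap Qb (GB 𝒰) c)
    (Φ : Polynomial (La Qb r)) {e : ℕ} (FDΦ : FD Φ e) (hΦ : Φ.Monic) (he0 : 0 < e) (y : GB 𝒰)
    (hy : y ∈ AI 𝒰) (hyΦ : evp s y Φ = 0) :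
    ¬ ∀ p q : La Qb r, ev s q * y = ev s p → q = 0 := by
  classical
  intro hind
  -- the constants
  let cf : La Qb r → Finset ℂ := fun p => p.coeff.support.image fun b => (p.coeff b : ℂ)
  let Ls : List (La Qb r) := (List.range (Φ.natDegree + 1)).map (fun i => Φ.coeff i) ++
    (FDΦ.l.map fun d => d.1) ++ (FDΦ.l.flatMap fun d => List.ofFn d.2.1)
  let Cs : Finset ℂ := Ls.toFinset.biUnion cf
  have hCs : ∀ a ∈ Cs, IsAlgebraic ℚ a := by
    intro a ha
    obtain ⟨p, -, ha⟩ := Finset.mem_biUnion.1 ha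
    obtain ⟨b, -, rfl⟩ := Finset.mem_image.1 ha
    exact isAlg _
  obtain ⟨M, _, _, _, τ, D, z, h1, h2, h3⟩ := common (ι := Fin r ⊕ Fin r ⊕ Unit)
    (Sum.elim (fun j => (s j : GB 𝒰)) (Sum.elim (fun j => ((s j)⁻¹ : (GB 𝒰)ˣ)) fun _ => y)) (by
      rintro (j | j | j)
      · exact (hs j).1
      · exact (hs j).2
      · exact hy) Cs hCs
  have hmul : ∀ j, z (Sum.inl j) * z (Sum.inr (Sum.inl j)) = 1 := by
    intro j
    apply thB_inj τ
    rw [map_mul, h2, h2, map_one]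
    exact Units.mul_inv (s j)
  let w : Fin r → (BA M 𝒰)ˣ := fun j =>
    ⟨z (Sum.inl j), z (Sum.inr (Sum.inl j)), hmul j, by rw [mul_comm]; exact hmul j⟩
  have hw1 : ∀ j, (w j : BA M 𝒰) ∈ TIR D 𝒰 := fun j => h1 _
  have hw2 : ∀ j, (((w j)⁻¹ : (BA M 𝒰)ˣ) : BA M 𝒰) ∈ TIR D 𝒰 := fun j => h1 _
  have hws : ∀ j, thB 𝒰 τ (w j : BA M 𝒰) = s j := fun j => h2 (Sum.inl j)
  let y0 : BA M 𝒰 := z (Sum.inr (Sum.inr ()))
  have hy0 : thB 𝒰 τ y0 = y := h2 (Sum.inr (Sum.inr ()))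
  have hy0T : y0 ∈ TIR D 𝒰 := h1 _
  -- the lifts
  have hlft : ∀ p ∈ Ls, ∃ p' : La M r, mapL (toQ τ) p' = p := by
    intro p hp
    refine exists_lift (toQ τ) p fun b hb => ?_
    obtain ⟨c, hc⟩ := h3 (p.coeff b : ℂ) (Finset.mem_biUnion.2 ⟨p, List.mem_toFinset.2 hp,
      Finset.mem_image.2 ⟨b, hb, rfl⟩⟩)
    exact ⟨c, Subtype.ext hc⟩
  have hΦl : Φ ∈ Polynomial.lifts (mapL (r := r) (toQ τ)) := by
    rw [Polynomial.lifts_iff_coeff_lifts]
    intro i
    by_cases hi : i ≤ Φ.natDegree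
    · obtain ⟨p', hp'⟩ := hlft (Φ.coeff i) (by
        refine List.mem_append.2 (Or.inl (List.mem_append.2 (Or.inl ?_)))
        exact List.mem_map.2 ⟨i, List.mem_range.2 (by omega), rfl⟩)
      exact ⟨p', hp'⟩
    · rw [Polynomial.coeff_eq_zero_of_natDegree_lt (by omega)]
      exact ⟨0, map_zero _⟩
  obtain ⟨Φ', hΦ', -, hΦ'm⟩ := Polynomial.lifts_and_natDegree_eq_and_monic hΦl hΦ
  subst hΦ'
  obtain ⟨FD'⟩ := FD_lift (toQ τ) Φ' FDΦ (fun d hd => by
    obtain ⟨D', hD'⟩ := hlft d.1 (by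
      refine List.mem_append.2 (Or.inl (List.mem_append.2 (Or.inr ?_)))
      exact List.mem_map.2 ⟨d, hd, rfl⟩)
    have hQ : ∀ i, ∃ Q', mapL (toQ τ) Q' = d.2.1 i := fun i => hlft (d.2.1 i) (by
      refine List.mem_append.2 (Or.inr ?_)
      exact List.mem_flatMap.2 ⟨d, hd, List.mem_ofFn.2 ⟨i, rfl⟩⟩)
    choose Q' hQ' using hQ
    refine ⟨(D', Q', d.2.2), ?_⟩
    unfold mapD
    simp only [hD', hQ'])
  -- the scale
  let rp : BA M 𝒰 → ℕ → M := fun x => rep (K := M) (𝒰 := 𝒰) x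
  let sc : (((M ≃ₐ[ℚ] M) ⊕ Fin D.s) → ℕ → ℝ) := fun v t =>
    ∑ j, |Real.log (D.av v (rp (w j : BA M 𝒰) t))|
  have hs0 : ∀ v t, 0 ≤ sc v t := fun v t => Finset.sum_nonneg fun _ _ => abs_nonneg _
  let N : ℕ → ℝ := fun t => 1 + ∑ v, sc v t
  have hN : ∀ t, 1 ≤ N t := fun t => by
    have : 0 ≤ ∑ v, sc v t := Finset.sum_nonneg fun _ _ => hs0 _ _
    simp only [N]
    linarith
  have hsN : ∀ v t, sc v t ≤ N t := by
    intro v t
    have h1 : sc v t ≤ ∑ v, sc v t :=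
      Finset.single_le_sum (f := fun v => sc v t) (fun _ _ => hs0 _ _) (Finset.mem_univ v)
    simp only [N]
    linarith
  have hwN : ∀ v t j, |Real.log (D.av v (rp (w j : BA M 𝒰) t))| ≤ N t := by
    intro v t j
    refine le_trans ?_ (hsN v t)
    exact Finset.single_le_sum (f := fun j => |Real.log (D.av v (rp (w j : BA M 𝒰) t))|)
        (fun _ _ => abs_nonneg _) (Finset.mem_univ j)
  have hNt : Tendsto N (𝒰 : Filter ℕ) atTop := by
    refine tendsto_of_unbdd N ?_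
    rintro ⟨C, hC⟩
    let j0 : Fin r := ⟨0, hr⟩
    obtain ⟨c, hc⟩ := const_of_bdd (D := D) (𝒰 := 𝒰) (w j0 : BA M 𝒰) (hw1 j0)
      (Real.exp C) (by
        filter_upwards [hC, Pool.Agent.Y742.AR.rep_ne (K := M) (𝒰 := 𝒰) (w j0 : BA M 𝒰)
          (Units.ne_zero _)] with t h1 h2 v
        rw [← Real.log_le_iff_le_exp (D.av_pos v _ h2)]
        exact ((le_abs_self _).trans (hwN v t j0)).trans h1)
    refine hsne (Pi.single j0 1) ?_ (toQ τ c) ?_
    · intro h0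
      have h4 := congrFun h0 j0
      rw [Pi.single_eq_same] at h4
      exact one_ne_zero h4
    · have h4 : mo s (Pi.single j0 1) = s j0 := by
        unfold mo
        rw [Finset.prod_eq_single j0]
        · rw [Pi.single_eq_same, zpow_one]
        · intro i _ hi
          rw [Pi.single_eq_of_ne hi, zpow_zero]
        · intro h
          exact absurd (Finset.mem_univ _) h
      have h5 : (w j0 : BA M 𝒰) = algebraMap M (BA M 𝒰) c := hc
      rw [h4, ← hws j0, h5, thB_const]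
      rfl
  -- the elements of the ring
  have hwB : ∀ j, Bd D N 𝒰 (rp (w j : BA M 𝒰)) := by
    intro j
    refine ⟨1, zero_le_one, ?_⟩
    filter_upwards [Pool.Agent.Y742.AR.rep_ne (K := M) (𝒰 := 𝒰) (w j : BA M 𝒰)
      (Units.ne_zero _)] with t h2 v
    rw [one_mul, ← Real.log_le_iff_le_exp (D.av_pos v _ h2)]
    exact (le_abs_self _).trans (hwN v t j)
  have hwB' : ∀ j, Bd D N 𝒰 (rp ((w j)⁻¹ : (BA M 𝒰)ˣ)) := by
    intro j
    refine ⟨1, zero_le_one, ?_⟩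
    rw [Units.val_inv_eq_inv_val]
    filter_upwards [Pool.Agent.Y742.AR.rep_ne (K := M) (𝒰 := 𝒰) (w j : BA M 𝒰)
      (Units.ne_zero _), Pool.Agent.Y742.AR.rep_inv (K := M) (𝒰 := 𝒰) (w j : BA M 𝒰)
      (Units.ne_zero _)] with t h2 h3 v
    have h4 : rp ((w j : BA M 𝒰)⁻¹) t = (rp (w j : BA M 𝒰) t)⁻¹ := h3
    rw [h4, one_mul, ← Real.log_le_iff_le_exp (D.av_pos v _ (inv_ne_zero h2)), av_inv _ _ h2]
    exact (neg_le_abs _).trans (hwN v t j)
  let wR : Fin r → (RA D 𝒰 N hN)ˣ := fun j =>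
    { val := mkR (w j : BA M 𝒰) (hw1 j) (hwB j)
      inv := mkR (((w j)⁻¹ : (BA M 𝒰)ˣ) : BA M 𝒰) (hw2 j) (hwB' j)
      val_inv := vl_inj (Units.mul_inv (w j))
      inv_val := vl_inj (Units.inv_mul (w j)) }
  let Θ : RA D 𝒰 N hN →+* GB 𝒰 := (thB 𝒰 τ).comp (incA D 𝒰 N hN : RA D 𝒰 N hN →+* BA M 𝒰)
  have hΘv : ∀ x, Θ x = thB 𝒰 τ (vl D 𝒰 N hN x) := fun x => rfl
  have hΘinj : Function.Injective Θ := fun a b h => vl_inj (thB_inj τ h)
  have hΘc : ∀ c, Θ (algebraMap M (RA D 𝒰 N hN) c) = algebraMap Qb (GB 𝒰) (toQ τ c) := by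
    intro c
    rw [hΘv, vl_const]
    exact thB_const τ c
  have hΘw : ∀ j, Θ (wR j) = s j := fun j => hws j
  have hΘev : ∀ p : La M r, Θ (ev wR p) = ev s (mapL (toQ τ) p) := fun p =>
    ev_mapL (toQ τ) Θ hΘc wR s hΘw p
  have hyB : Bd D N 𝒰 (rp y0) := by
    refine Bd_root D hN y0 e he0 (fun i => incA D 𝒰 N hN (ev wR (-(Φ'.coeff i)))) (fun i =>
      ((mem_R0 hN _).1 (vl_mem (ev wR (-(Φ'.coeff i))))).2) ?_
    apply thB_inj τ
    have hdeg : Φ'.natDegree = e := FD'.deg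
    have h4 := evp_sum s y (Φ'.map (mapL (toQ τ))) e (by
      rw [FDΦ.deg])
    rw [hyΦ, Finset.sum_range_succ] at h4
    have h5 : (Φ'.map (mapL (r := r) (toQ τ))).coeff e = 1 := by
      rw [Polynomial.coeff_map, ← hdeg, hΦ'm.coeff_natDegree, map_one]
    rw [h5, map_one, one_mul] at h4
    rw [map_pow, hy0, map_sum]
    have h6 : ∀ i ∈ range e, thB 𝒰 τ (incA D 𝒰 N hN (ev wR (-(Φ'.coeff i))) * y0 ^ i) =
        -(ev s ((Φ'.map (mapL (toQ τ))).coeff i) * y ^ i) := by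
      intro i _
      have h7 : thB 𝒰 τ (incA D 𝒰 N hN (ev wR (-(Φ'.coeff i)))) =
        ev s (mapL (toQ τ) (-(Φ'.coeff i))) := hΘev _
      rw [map_mul, map_pow, hy0, h7, map_neg, map_neg, Polynomial.coeff_map, neg_mul]
    refine Eq.trans ?_ (Finset.sum_congr rfl h6).symm
    rw [Finset.sum_neg_distrib, eq_neg_iff_add_eq_zero, add_comm]
    exact h4.symm
  let yR : RA D 𝒰 N hN := mkR y0 hy0T hyB
  have hΘy : Θ yR = y := hy0
  have hyR : evp wR yR Φ' = 0 := by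
    apply hΘinj
    rw [evp_mapL (toQ τ) Θ hΘc wR s hΘw, hΘy, hyΦ, map_zero]
  obtain ⟨n, κ, _, fam, g1, g2, -, g4⟩ := key_FD wR Φ' FD' hΦ'm he0 yR hyR (by
    intro p q hpq
    apply mapL_inj (toQ τ)
    rw [map_zero]
    refine hind (mapL (toQ τ) p) (mapL (toQ τ) q) ?_
    rw [← hΘev, ← hΘev, ← hpq, map_mul, hΘy])
  have hkey := g4 (ofDc (DcA (D := D) (hN := hN) hNt)) fun sel =>
    (DcA (D := D) (hN := hN) hNt).smt n κ fam g1 g2 sel
  -- the contradiction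
  have hr' : (0 : ℝ) < r := by exact_mod_cast hr
  have h4 : ∀ᶠ t in (𝒰 : Filter ℕ),
      ∑ v, ‖LZ (ofDc (DcA (D := D) (hN := hN) hNt)) wR (v, t)‖ ≤
      (1 / (2 * r)) * N t := hkey (1 / (2 * r)) (by positivity)
  obtain ⟨t, h5, h6⟩ := (h4.and (hNt.eventually_ge_atTop 3)).exists
  have h7 : ∀ v, sc v t ≤ r * ‖LZ (ofDc (DcA (D := D) (hN := hN) hNt)) wR (v, t)‖ := by
    intro v
    have h8 : sc v t ≤ ∑ _j : Fin r, ‖LZ (ofDc (DcA (D := D) (hN := hN) hNt)) wR (v, t)‖ := by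
      refine Finset.sum_le_sum fun j _ => ?_
      exact norm_le_pi_norm (LZ (ofDc (DcA (D := D) (hN := hN) hNt)) wR (v, t)) j
    rw [Finset.sum_const, Finset.card_univ, Fintype.card_fin, nsmul_eq_mul] at h8
    exact h8
  have h8 : ∑ v, sc v t ≤ r * ∑ v, ‖LZ (ofDc (DcA (D := D) (hN := hN) hNt)) wR (v, t)‖ := by
    rw [Finset.mul_sum]
    exact Finset.sum_le_sum fun v _ => h7 v
  have h9 : N t = 1 + ∑ v, sc v t := rfl
  have h10 : r * (1 / (2 * r) * N t) = N t / 2 := by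
    field_simp
  have h11 := mul_le_mul_of_nonneg_left h5 hr'.le
  linarith

end Pool.Agent.H21bl.TC
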