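import Mathlib
import Pool.Agent.H21bl.TC.Ar
import Pool.Agent.H21bl.TC.CmpR

/-!
Germs of integral points: roots of polynomials which are reducible at infinity.
-/

set_option autoImplicit false
set_option linter.unusedSectionVars false

open Finset Filter

namespace Pool.Agent.H21bl.TC

open NumberField IsDedekindDomain
open Pool.Agent.N754.LT Pool.Agent.Y742.SF Pool.Agent.Y742.AR Pool.Agent.H21bl.CC
open scoped NumberField

section lift

variable {k k' : Type} [Field k] [Field k'] {r : ℕ} (j : k →+* k')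

theorem errR_map (Φ : Polynomial (La k r)) (d : La k r) (g : Fin 2 → Polynomial (La k r)) :
    (errR Φ d g).map (mapL j) = errR (Φ.map (mapL j)) (mapL j d) fun i => (g i).map (mapL j) := by
  unfold errR
  rw [Polynomial.map_sub, Polynomial.map_mul, Polynomial.map_mul, Polynomial.map_C, map_pow]

/-- change of constants in the data -/
noncomputable def mapDR (d : DatR k r) : DatR k' r :=
  (mapL j d.1, fun i => (d.2.1 i).map (mapL j), d.2.2)

theorem supp_errR_map (Φ : Polynomial (La k r)) (d : DatR k r) (i : ℕ) :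
    ((errR (Φ.map (mapL j)) (mapDR j d).1 (mapDR j d).2.1).coeff i).coeff.support =
      ((errR Φ d.1 d.2.1).coeff i).coeff.support := by
  have h1 : errR (Φ.map (mapL j)) (mapDR j d).1 (mapDR j d).2.1 = (errR Φ d.1 d.2.1).map (mapL j) :=
    (errR_map j Φ d.1 d.2.1).symm
  rw [h1, Polynomial.coeff_map, supp_mapL]

theorem mapDR_ok (e : ℕ) (d : DatR k r) : OkR e (mapDR j d) ↔ OkR e d := by
  unfold OkR
  have h1 : (mapDR j d).1.coeff (mapDR j d).2.2 ≠ 0 ↔ d.1.coeff d.2.2 ≠ 0 := by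
    show (mapL j d.1).coeff d.2.2 ≠ 0 ↔ _
    rw [coeff_mapL, Ne, map_eq_zero_iff j j.injective]
  have h2 : ∀ i, ((mapDR j d).2.1 i).natDegree = (d.2.1 i).natDegree := fun i =>
    Polynomial.natDegree_map_eq_of_injective (mapL_inj j) _
  have h3 : ∀ i, ((mapDR j d).2.1 i).leadingCoeff = mapL j (d.2.1 i).leadingCoeff := fun i =>
    Polynomial.leadingCoeff_map_of_injective (mapL_inj j) _
  rw [h1]
  refine and_congr_right fun _ => forall_congr' fun i => ?_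
  rw [h2, h3]
  refine and_congr_right fun _ => ?_
  show mapL j (d.2.1 i).leadingCoeff = mapL j d.1 ↔ _
  exact (mapL_inj j).eq_iff

theorem goodR_map (Φ : Polynomial (La k r)) (N : ℝ) (d : DatR k r) (L : Fin r → ℝ) :
    GoodR (Φ.map (mapL j)) N (mapDR j d) L ↔ GoodR Φ N d L := by
  unfold GoodR
  constructor
  · intro h i b hb
    exact h i b (by rw [supp_errR_map]; exact hb)
  · intro h i b hb
    exact h i b (by rw [supp_errR_map] at hb; exact hb)

/-- descent of the data -/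
theorem FR_lift (Φ : Polynomial (La k r)) {e : ℕ} (F : FR (Φ.map (mapL j)) e)
    (hlift : ∀ d ∈ F.l, ∃ d' : DatR k r, mapDR j d' = d) : Nonempty (FR Φ e) := by
  classical
  have hdeg : (Φ.map (mapL j)).natDegree = Φ.natDegree :=
    Polynomial.natDegree_map_eq_of_injective (mapL_inj j) Φ
  choose d' hd' using fun i : Fin F.l.length => hlift (F.l.get i) (List.get_mem _ _)
  refine ⟨{ deg := by rw [← hdeg, F.deg], C0 := F.C0, hC0 := F.hC0, hC := ?_, μ := F.μ, ε := F.ε,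
            hε := F.hε, N := F.N, hN := F.hN, l := List.ofFn d', hl := ?_, hcov := ?_ }⟩
  · intro i b hb L
    refine F.hC i b ?_ L
    rw [Polynomial.coeff_map, supp_mapL]
    exact hb
  · intro d hd
    obtain ⟨i, rfl⟩ := List.mem_ofFn.1 hd
    rw [← mapDR_ok j, hd']
    exact F.hl _ (List.get_mem _ _)
  · intro L
    rcases F.hcov L with ⟨d, hd, h⟩ | h
    · obtain ⟨i, hi⟩ := List.mem_iff_get.1 hd
      refine Or.inl ⟨d' i, List.mem_ofFn.2 ⟨i, rfl⟩, ?_⟩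
      rw [← goodR_map j, hd', hi]
      exact h
    · exact Or.inr h

end lift

variable {𝒰 : Ultrafilter ℕ} {r : ℕ}

theorem not_hindBR (hr : 0 < r) (s : Fin r → (GB 𝒰)ˣ) (hs : ∀ j, s j ∈ WB 𝒰)
    (hsne : ∀ b : Fin r → ℤ, b ≠ 0 → ∀ c : Qb, (mo s b : GB 𝒰) ≠ algebraMap Qb (GB 𝒰) c)
    (Φ : Polynomial (La Qb r)) {e : ℕ} (FDΦ : FR Φ e) (hΦ : Φ.Monic) (he2 : 2 ≤ e) (y : GB 𝒰)
    (hy : y ∈ AI 𝒰) (hyΦ : evp s y Φ = 0) :
    ¬ ∀ P : Polynomial (La Qb r), P.natDegree < e → evp s y P = 0 → P = 0 := by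
  classical
  intro hind
  have he0 : 0 < e := by omega
  -- the constants
  let cf : La Qb r → Finset ℂ := fun p => p.coeff.support.image fun b => (p.coeff b : ℂ)
  let pc : Polynomial (La Qb r) → List (La Qb r) := fun P =>
    (List.range (P.natDegree + 1)).map fun i => P.coeff i
  let Ls : List (La Qb r) := pc Φ ++ (FDΦ.l.map fun d => d.1) ++
    (FDΦ.l.flatMap fun d => pc (d.2.1 0) ++ pc (d.2.1 1))
  let Cs : Finset ℂ := Ls.toFinset.biUnion cf
  have hCs : ∀ a ∈ Cs, IsAlgebraic ℚ a := by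
    intro a ha
    obtain ⟨p, -, ha⟩ := Finset.mem_biUnion.1 ha
    obtain ⟨b, -, rfl⟩ := Finset.mem_image.1 ha
    exact isAlg _
  obtain ⟨M, _, _, _, τ, D, z, h1, h2, h3⟩ := common (ι := Fin r ⊕ Fin r ⊕ Unit)
    (Sum.elim (fun j => (s j : GB 𝒰)) (Sum.elim (fun j => ((s j)⁻¹ : (GB 𝒰)ˣ)) fun _ => y)) (by
      rintro (j | j | j)
      · exact (hs j).1
      · exact (hs j).2
      · exact hy) Cs hCs
  have hmul : ∀ j, z (Sum.inl j) * z (Sum.inr (Sum.inl j)) = 1 := by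
    intro j
    apply thB_inj τ
    rw [map_mul, h2, h2, map_one]
    exact Units.mul_inv (s j)
  let w : Fin r → (BA M 𝒰)ˣ := fun j =>
    ⟨z (Sum.inl j), z (Sum.inr (Sum.inl j)), hmul j, by rw [mul_comm]; exact hmul j⟩
  have hw1 : ∀ j, (w j : BA M 𝒰) ∈ TIR D 𝒰 := fun j => h1 _
  have hw2 : ∀ j, (((w j)⁻¹ : (BA M 𝒰)ˣ) : BA M 𝒰) ∈ TIR D 𝒰 := fun j => h1 _
  have hws : ∀ j, thB 𝒰 τ (w j : BA M 𝒰) = s j := fun j => h2 (Sum.inl j)
  let y0 : BA M 𝒰 := z (Sum.inr (Sum.inr ()))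
  have hy0 : thB 𝒰 τ y0 = y := h2 (Sum.inr (Sum.inr ()))
  have hy0T : y0 ∈ TIR D 𝒰 := h1 _
  -- the lifts
  have hlft : ∀ p ∈ Ls, ∃ p' : La M r, mapL (toQ τ) p' = p := by
    intro p hp
    refine exists_lift (toQ τ) p fun b hb => ?_
    obtain ⟨c, hc⟩ := h3 (p.coeff b : ℂ) (Finset.mem_biUnion.2 ⟨p, List.mem_toFinset.2 hp,
      Finset.mem_image.2 ⟨b, hb, rfl⟩⟩)
    exact ⟨c, Subtype.ext hc⟩
  have hPl : ∀ P : Polynomial (La Qb r), (∀ p ∈ pc P, p ∈ Ls) →
      P ∈ Polynomial.lifts (mapL (r := r) (toQ τ)) := by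
    intro P hP
    rw [Polynomial.lifts_iff_coeff_lifts]
    intro i
    by_cases hi : i ≤ P.natDegree
    · obtain ⟨p', hp'⟩ := hlft (P.coeff i) (hP _
        (List.mem_map.2 ⟨i, List.mem_range.2 (by omega), rfl⟩))
      exact ⟨p', hp'⟩
    · rw [Polynomial.coeff_eq_zero_of_natDegree_lt (by omega)]
      exact ⟨0, map_zero _⟩
  have hΦl : Φ ∈ Polynomial.lifts (mapL (r := r) (toQ τ)) := hPl Φ fun p hp =>
    List.mem_append.2 (Or.inl (List.mem_append.2 (Or.inl hp)))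
  obtain ⟨Φ', hΦ', -, hΦ'm⟩ := Polynomial.lifts_and_natDegree_eq_and_monic hΦl hΦ
  subst hΦ'
  obtain ⟨FD'⟩ := FR_lift (toQ τ) Φ' FDΦ (fun d hd => by
    obtain ⟨D', hD'⟩ := hlft d.1 (by
      refine List.mem_append.2 (Or.inl (List.mem_append.2 (Or.inr ?_)))
      exact List.mem_map.2 ⟨d, hd, rfl⟩)
    have hQ : ∀ i, ∃ Q' : Polynomial (La M r), Q'.map (mapL (toQ τ)) = d.2.1 i := by
      intro i
      have h4 : d.2.1 i ∈ Polynomial.lifts (mapL (r := r) (toQ τ)) := by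
        refine hPl _ fun p hp => List.mem_append.2 (Or.inr (List.mem_flatMap.2 ⟨d, hd, ?_⟩))
        fin_cases i
        · exact List.mem_append.2 (Or.inl hp)
        · exact List.mem_append.2 (Or.inr hp)
      exact (Polynomial.mem_lifts _).1 h4
    choose Q' hQ' using hQ
    refine ⟨(D', Q', d.2.2), ?_⟩
    unfold mapDR
    simp only [hD', hQ'])
  -- the scale
  let rp : BA M 𝒰 → ℕ → M := fun x => rep (K := M) (𝒰 := 𝒰) x
  let sc : (((M ≃ₐ[ℚ] M) ⊕ Fin D.s) → ℕ → ℝ) := fun v t =>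
    ∑ j, |Real.log (D.av v (rp (w j : BA M 𝒰) t))|
  have hs0 : ∀ v t, 0 ≤ sc v t := fun v t => Finset.sum_nonneg fun _ _ => abs_nonneg _
  let N : ℕ → ℝ := fun t => 1 + ∑ v, sc v t
  have hN : ∀ t, 1 ≤ N t := fun t => by
    have : 0 ≤ ∑ v, sc v t := Finset.sum_nonneg fun _ _ => hs0 _ _
    simp only [N]
    linarith
  have hsN : ∀ v t, sc v t ≤ N t := by
    intro v t
    have h1 : sc v t ≤ ∑ v, sc v t :=
      Finset.single_le_sum (f := fun v => sc v t) (fun _ _ => hs0 _ _) (Finset.mem_univ v)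
    simp only [N]
    linarith
  have hwN : ∀ v t j, |Real.log (D.av v (rp (w j : BA M 𝒰) t))| ≤ N t := by
    intro v t j
    refine le_trans ?_ (hsN v t)
    exact Finset.single_le_sum (f := fun j => |Real.log (D.av v (rp (w j : BA M 𝒰) t))|)
        (fun _ _ => abs_nonneg _) (Finset.mem_univ j)
  have hNt : Tendsto N (𝒰 : Filter ℕ) atTop := by
    refine tendsto_of_unbdd N ?_
    rintro ⟨C, hC⟩
    let j0 : Fin r := ⟨0, hr⟩
    obtain ⟨c, hc⟩ := const_of_bdd (D := D) (𝒰 := 𝒰) (w j0 : BA M 𝒰) (hw1 j0)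
      (Real.exp C) (by
        filter_upwards [hC, Pool.Agent.Y742.AR.rep_ne (K := M) (𝒰 := 𝒰) (w j0 : BA M 𝒰)
          (Units.ne_zero _)] with t h1 h2 v
        rw [← Real.log_le_iff_le_exp (D.av_pos v _ h2)]
        exact ((le_abs_self _).trans (hwN v t j0)).trans h1)
    refine hsne (Pi.single j0 1) ?_ (toQ τ c) ?_
    · intro h0
      have h4 := congrFun h0 j0
      rw [Pi.single_eq_same] at h4
      exact one_ne_zero h4
    · have h4 : mo s (Pi.single j0 1) = s j0 := by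
        unfold mo
        rw [Finset.prod_eq_single j0]
        · rw [Pi.single_eq_same, zpow_one]
        · intro i _ hi
          rw [Pi.single_eq_of_ne hi, zpow_zero]
        · intro h
          exact absurd (Finset.mem_univ _) h
      have h5 : (w j0 : BA M 𝒰) = algebraMap M (BA M 𝒰) c := hc
      rw [h4, ← hws j0, h5, thB_const]
      rfl
  -- the elements of the ring
  have hwB : ∀ j, Bd D N 𝒰 (rp (w j : BA M 𝒰)) := by
    intro j
    refine ⟨1, zero_le_one, ?_⟩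
    filter_upwards [Pool.Agent.Y742.AR.rep_ne (K := M) (𝒰 := 𝒰) (w j : BA M 𝒰)
      (Units.ne_zero _)] with t h2 v
    rw [one_mul, ← Real.log_le_iff_le_exp (D.av_pos v _ h2)]
    exact (le_abs_self _).trans (hwN v t j)
  have hwB' : ∀ j, Bd D N 𝒰 (rp ((w j)⁻¹ : (BA M 𝒰)ˣ)) := by
    intro j
    refine ⟨1, zero_le_one, ?_⟩
    rw [Units.val_inv_eq_inv_val]
    filter_upwards [Pool.Agent.Y742.AR.rep_ne (K := M) (𝒰 := 𝒰) (w j : BA M 𝒰)
      (Units.ne_zero _), Pool.Agent.Y742.AR.rep_inv (K := M) (𝒰 := 𝒰) (w j : BA M 𝒰)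
      (Units.ne_zero _)] with t h2 h3 v
    have h4 : rp ((w j : BA M 𝒰)⁻¹) t = (rp (w j : BA M 𝒰) t)⁻¹ := h3
    rw [h4, one_mul, ← Real.log_le_iff_le_exp (D.av_pos v _ (inv_ne_zero h2)), av_inv _ _ h2]
    exact (neg_le_abs _).trans (hwN v t j)
  let wR : Fin r → (RA D 𝒰 N hN)ˣ := fun j =>
    { val := mkR (w j : BA M 𝒰) (hw1 j) (hwB j)
      inv := mkR (((w j)⁻¹ : (BA M 𝒰)ˣ) : BA M 𝒰) (hw2 j) (hwB' j)
      val_inv := vl_inj (Units.mul_inv (w j))
      inv_val := vl_inj (Units.inv_mul (w j)) }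
  let Θ : RA D 𝒰 N hN →+* GB 𝒰 := (thB 𝒰 τ).comp (incA D 𝒰 N hN : RA D 𝒰 N hN →+* BA M 𝒰)
  have hΘv : ∀ x, Θ x = thB 𝒰 τ (vl D 𝒰 N hN x) := fun x => rfl
  have hΘinj : Function.Injective Θ := fun a b h => vl_inj (thB_inj τ h)
  have hΘc : ∀ c, Θ (algebraMap M (RA D 𝒰 N hN) c) = algebraMap Qb (GB 𝒰) (toQ τ c) := by
    intro c
    rw [hΘv, vl_const]
    exact thB_const τ c
  have hΘw : ∀ j, Θ (wR j) = s j := fun j => hws j
  have hΘev : ∀ p : La M r, Θ (ev wR p) = ev s (mapL (toQ τ) p) := fun p =>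
    ev_mapL (toQ τ) Θ hΘc wR s hΘw p
  have hyB : Bd D N 𝒰 (rp y0) := by
    refine Bd_root D hN y0 e he0 (fun i => incA D 𝒰 N hN (ev wR (-(Φ'.coeff i)))) (fun i =>
      ((mem_R0 hN _).1 (vl_mem (ev wR (-(Φ'.coeff i))))).2) ?_
    apply thB_inj τ
    have hdeg : Φ'.natDegree = e := FD'.deg
    have h4 := evp_sum s y (Φ'.map (mapL (toQ τ))) e (by
      rw [FDΦ.deg])
    rw [hyΦ, Finset.sum_range_succ] at h4
    have h5 : (Φ'.map (mapL (r := r) (toQ τ))).coeff e = 1 := by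
      rw [Polynomial.coeff_map, ← hdeg, hΦ'm.coeff_natDegree, map_one]
    rw [h5, map_one, one_mul] at h4
    rw [map_pow, hy0, map_sum]
    have h6 : ∀ i ∈ range e, thB 𝒰 τ (incA D 𝒰 N hN (ev wR (-(Φ'.coeff i))) * y0 ^ i) =
        -(ev s ((Φ'.map (mapL (toQ τ))).coeff i) * y ^ i) := by
      intro i _
      have h7 : thB 𝒰 τ (incA D 𝒰 N hN (ev wR (-(Φ'.coeff i)))) =
        ev s (mapL (toQ τ) (-(Φ'.coeff i))) := hΘev _
      rw [map_mul, map_pow, hy0, h7, map_neg, map_neg, Polynomial.coeff_map, neg_mul]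
    refine Eq.trans ?_ (Finset.sum_congr rfl h6).symm
    rw [Finset.sum_neg_distrib, eq_neg_iff_add_eq_zero, add_comm]
    exact h4.symm
  let yR : RA D 𝒰 N hN := mkR y0 hy0T hyB
  have hΘy : Θ yR = y := hy0
  have hyR : evp wR yR Φ' = 0 := by
    apply hΘinj
    rw [evp_mapL (toQ τ) Θ hΘc wR s hΘw, hΘy, hyΦ, map_zero]
  obtain ⟨n, κ, _, fam, g1, g2, -, g4⟩ := key_FR wR Φ' FD' hΦ'm he2 yR hyR (by
    intro P hP hPy
    refine (Polynomial.map_injective _ (mapL_inj (toQ τ))) ?_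
    rw [Polynomial.map_zero]
    refine hind _ ?_ ?_
    · rw [Polynomial.natDegree_map_eq_of_injective (mapL_inj (toQ τ))]
      exact hP
    · rw [← hΘy, ← evp_mapL (toQ τ) Θ hΘc wR s hΘw, hPy, map_zero])
  have hkey := g4 (ofDc (DcA (D := D) (hN := hN) hNt)) fun sel =>
    (DcA (D := D) (hN := hN) hNt).smt n κ fam g1 g2 sel
  -- the contradiction
  have hr' : (0 : ℝ) < r := by exact_mod_cast hr
  have h4 : ∀ᶠ t in (𝒰 : Filter ℕ),
      ∑ v, ‖LZ (ofDc (DcA (D := D) (hN := hN) hNt)) wR (v, t)‖ ≤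
      (1 / (2 * r)) * N t := hkey (1 / (2 * r)) (by positivity)
  obtain ⟨t, h5, h6⟩ := (h4.and (hNt.eventually_ge_atTop 3)).exists
  have h7 : ∀ v, sc v t ≤ r * ‖LZ (ofDc (DcA (D := D) (hN := hN) hNt)) wR (v, t)‖ := by
    intro v
    have h8 : sc v t ≤ ∑ _j : Fin r, ‖LZ (ofDc (DcA (D := D) (hN := hN) hNt)) wR (v, t)‖ := by
      refine Finset.sum_le_sum fun j _ => ?_
      exact norm_le_pi_norm (LZ (ofDc (DcA (D := D) (hN := hN) hNt)) wR (v, t)) j
    rw [Finset.sum_const, Finset.card_univ, Fintype.card_fin, nsmul_eq_mul] at h8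
    exact h8
  have h8 : ∑ v, sc v t ≤ r * ∑ v, ‖LZ (ofDc (DcA (D := D) (hN := hN) hNt)) wR (v, t)‖ := by
    rw [Finset.mul_sum]
    exact Finset.sum_le_sum fun v _ => h7 v
  have h9 : N t = 1 + ∑ v, sc v t := rfl
  have h10 : r * (1 / (2 * r) * N t) = N t / 2 := by
    field_simp
  have h11 := mul_le_mul_of_nonneg_left h5 hr'.le
  linarith

end Pool.Agent.H21bl.TC
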