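import Mathlib
import Pool.Agent.H21bl.TC.Ar
import Pool.Agent.H21bl.LT.ArM

/-!
Curves from germs of integral points whose coordinates are quotients of Laurent polynomials in
units.
-/

set_option autoImplicit false
set_option linter.unusedSectionVars false

open Finset Filter

namespace Pool.Agent.H21bl.TC

open NumberField IsDedekindDomain
open Pool.Agent.N754.LT Pool.Agent.Y742.SF Pool.Agent.Y742.AR Pool.Agent.H21bl.CC
open Pool.Agent.H159R3.Exp (Laur)
open scoped NumberField

/-- two Laurent polynomials without denominators -/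
theorem exists_num {k : Type} [Field k] {r : ℕ} (a b : La k r) :
    ∃ (p q : MvPolynomial (Fin r) k) (m : La k r), IsUnit m ∧ io q = a * m ∧ io p = b * m := by
  classical
  obtain ⟨K, hK⟩ := exists_bound (a.coeff.support ∪ b.coeff.support)
  let m : La k r := AddMonoidAlgebra.single (fun _ => (K : ℤ)) 1
  have hm : IsUnit m := by
    refine IsUnit.of_mul_eq_one (AddMonoidAlgebra.single (-fun _ => (K : ℤ)) 1) ?_
    rw [AddMonoidAlgebra.single_mul_single, add_neg_cancel, one_mul]
    rfl
  have hio : ∀ f : La k r, f.coeff.support ⊆ a.coeff.support ∪ b.coeff.support →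
      ∃ g : MvPolynomial (Fin r) k, io g = f * m := by
    intro f hf
    refine exists_io _ fun c hc j => ?_
    obtain ⟨c', hc', rfl⟩ := supp_mul_single f _ c hc
    have h1 := (abs_le.1 (hK c' (hf hc') j)).1
    rw [Pi.add_apply]
    show 0 ≤ c' j + (K : ℤ)
    omega
  obtain ⟨q, hq⟩ := hio a Finset.subset_union_left
  obtain ⟨p, hp⟩ := hio b Finset.subset_union_right
  exact ⟨p, q, m, hm, hq, hp⟩

theorem ev_io {k R : Type} [Field k] [CommRing R] [Algebra k R] {r : ℕ} (s : Fin r → Rˣ)
    (p : MvPolynomial (Fin r) k) : ev s (io p) = MvPolynomial.aeval (fun j => (s j : R)) p := by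
  have h1 : (ev s : La k r →ₐ[k] R).comp io = MvPolynomial.aeval (fun j => (s j : R)) := by
    apply MvPolynomial.algHom_ext
    intro j
    rw [AlgHom.comp_apply, MvPolynomial.aeval_X]
    unfold io
    rw [MvPolynomial.aeval_X, ev_single, one_smul]
    congr 1
    unfold mo
    rw [Finset.prod_eq_single j]
    · rw [Pi.single_eq_same, zpow_one]
    · intro i _ hi
      rw [Pi.single_eq_of_ne hi, zpow_zero]
    · intro h
      exact absurd (Finset.mem_univ _) h
  exact DFunLike.congr_fun h1 p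

/-- Laurent functions with finitely many values on the powers of two -/
theorem laur_const {k : Type} [Field k] [CharZero k] (g : k → k) (hg : Laur g) (S : Set k)
    (hS : S.Finite) (h : ∀ j : ℕ, g (2 ^ j) ∈ S) : g 2 = g 1 := by
  classical
  obtain ⟨M, Q, hQ⟩ := hg
  have hinj : Function.Injective fun j : ℕ => (2 : k) ^ j := by
    intro a b hab
    have h1 : ((2 ^ a : ℕ) : k) = ((2 ^ b : ℕ) : k) := by
      push_cast
      exact hab
    exact Nat.pow_right_injective le_rfl (Nat.cast_injective h1)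
  have := hS.to_subtype
  obtain ⟨ρ, hρ⟩ := Finite.exists_infinite_fiber fun j : ℕ => (⟨g (2 ^ j), h j⟩ : S)
  have hρ' : Set.Infinite ((fun j : ℕ => (⟨g (2 ^ j), h j⟩ : S)) ⁻¹' {ρ}) :=
    Set.infinite_coe_iff.1 hρ
  let P : Polynomial k := Q - Polynomial.C (ρ : k) * Polynomial.X ^ M
  have hP : P = 0 := by
    refine Polynomial.eq_zero_of_infinite_isRoot P ?_
    refine (hρ'.image hinj.injOn).mono ?_
    rintro _ ⟨j, hj, rfl⟩
    have h1 : g (2 ^ j) = (ρ : k) := congrArg Subtype.val (Set.mem_singleton_iff.1 hj)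
    have h2 := hQ (2 ^ j) (pow_ne_zero _ two_ne_zero)
    show Polynomial.eval ((2 : k) ^ j) P = 0
    simp only [P]
    rw [Polynomial.eval_sub, Polynomial.eval_mul, Polynomial.eval_C, Polynomial.eval_pow,
      Polynomial.eval_X, ← h2, h1, sub_self]
  have h1 : ∀ s : k, s ≠ 0 → g s = ρ := by
    intro s hs
    have h2 := hQ s hs
    have h3 := congrArg (Polynomial.eval s) hP
    simp only [P] at h3
    rw [Polynomial.eval_sub, Polynomial.eval_mul, Polynomial.eval_C, Polynomial.eval_pow,
      Polynomial.eval_X, ← h2, Polynomial.eval_zero, sub_eq_zero] at h3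
    exact mul_right_cancel₀ (pow_ne_zero _ hs) h3
  rw [h1 2 two_ne_zero, h1 1 one_ne_zero]

variable {M : Type} [Field M] [NumberField M] [IsGalois ℚ M] (D : PD M) {𝒰 : Ultrafilter ℕ}

/-- **Curves through germs of integral points** whose coordinates are quotients of Laurent
polynomials in units which are roots of functions of the coordinates. -/
theorem curveM (τ : M →+* ℂ) {n r : ℕ} {ι : Type} [Finite ι] (F : ι → MvPolynomial (Fin n) M)
    (w : Fin r → (BA M 𝒰)ˣ) (hw : ∀ j, w j ∈ WA D 𝒰) (x : Fin n → BA M 𝒰)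
    (hx : ∀ i, x i ∈ TIR D 𝒰) (hF : ∀ l, MvPolynomial.aeval x (F l) = 0) (a b : Fin n → La M r)
    (ha : ∀ i, (ev w (a i) : BA M 𝒰) ≠ 0) (hab : ∀ i, ev w (a i) * x i = ev w (b i))
    (m : Fin r → ℕ) (hm : ∀ j, 0 < m j) (c : Fin r → M) (f : Fin r → MvPolynomial (Fin n) M)
    (hwf : ∀ j, (w j : BA M 𝒰) ^ m j = algebraMap M (BA M 𝒰) (c j) * MvPolynomial.aeval x (f j))
    (hnc : ∃ i, ∀ c : M, x i ≠ algebraMap M (BA M 𝒰) c) :
    ∀ᶠ t in (𝒰 : Filter ℕ), ∃ v : M → Fin n → M, (∀ j, Laur fun s => v s j) ∧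
      (∀ i s, s ≠ 0 → MvPolynomial.eval (v s) (F i) = 0) ∧
      (v 1 = fun j => rep (K := M) (𝒰 := 𝒰) (x j) t) ∧ ∃ k j, v (2 ^ k) j ≠ v 1 j := by
  classical
  choose p q mm hmm hq hp using fun i => exists_num (a i) (b i)
  let W : Fin r → BA M 𝒰 := fun j => (w j : BA M 𝒰)
  have hevm : ∀ i, (ev w (mm i) : BA M 𝒰) ≠ 0 := fun i =>
    ((hmm i).map (ev w : La M r →ₐ[M] BA M 𝒰)).ne_zero
  have hqW : ∀ i, MvPolynomial.aeval W (q i) ≠ 0 := by
    intro i
    have h1 : MvPolynomial.aeval W (q i) = ev w (a i) * ev w (mm i) := by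
      rw [← ev_io, hq, map_mul]
    rw [h1]
    exact mul_ne_zero (ha i) (hevm i)
  have hqp : ∀ i, MvPolynomial.aeval W (q i) * x i = MvPolynomial.aeval W (p i) := by
    intro i
    have h1 : MvPolynomial.aeval W (q i) = ev w (a i) * ev w (mm i) := by
      rw [← ev_io, hq, map_mul]
    have h2 : MvPolynomial.aeval W (p i) = ev w (b i) * ev w (mm i) := by
      rw [← ev_io, hp, map_mul]
    rw [h1, h2, ← hab]
    ring
  let y : Fin (n + r) → BA M 𝒰 := Fin.append x W
  have hyl : ∀ i, y (Fin.castAdd r i) = x i := fun i => Fin.append_left _ _ _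
  have hyr : ∀ j, y (Fin.natAdd n j) = W j := fun j => Fin.append_right _ _ _
  let rl : MvPolynomial (Fin n) M →ₐ[M] MvPolynomial (Fin (n + r)) M :=
    MvPolynomial.rename (Fin.castAdd r)
  let rr : MvPolynomial (Fin r) M →ₐ[M] MvPolynomial (Fin (n + r)) M :=
    MvPolynomial.rename (Fin.natAdd n)
  have hrl : ∀ P, MvPolynomial.aeval y (rl P) = MvPolynomial.aeval x P := by
    intro P
    simp only [rl]
    rw [MvPolynomial.aeval_rename]
    congr 2
    exact funext hyl
  have hrr : ∀ P, MvPolynomial.aeval y (rr P) = MvPolynomial.aeval W P := by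
    intro P
    simp only [rr]
    rw [MvPolynomial.aeval_rename]
    congr 2
    exact funext hyr
  let F' : ι ⊕ Fin n ⊕ Fin r → MvPolynomial (Fin (n + r)) M := Sum.elim (fun l => rl (F l))
    (Sum.elim (fun i => rr (q i) * MvPolynomial.X (Fin.castAdd r i) - rr (p i))
      fun j => MvPolynomial.X (Fin.natAdd n j) ^ m j - MvPolynomial.C (c j) * rl (f j))
  have hF' : ∀ l, MvPolynomial.aeval y (F' l) = 0 := by
    rintro (l | i | j)
    · exact (hrl _).trans (hF l)
    · show MvPolynomial.aeval y (rr (q i) * MvPolynomial.X (Fin.castAdd r i) - rr (p i)) = 0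
      rw [map_sub, map_mul, hrr, hrr, MvPolynomial.aeval_X, hyl, hqp, sub_self]
    · show MvPolynomial.aeval y (MvPolynomial.X (Fin.natAdd n j) ^ m j -
        MvPolynomial.C (c j) * rl (f j)) = 0
      rw [map_sub, map_mul, map_pow, MvPolynomial.aeval_X, hyr, MvPolynomial.aeval_C, hrl, hwf,
        sub_self]
  let U : Finset (Fin (n + r)) := Finset.univ.image (Fin.natAdd n)
  have hyT : ∀ i, y i ∈ TIR D 𝒰 := by
    intro i
    refine Fin.addCases (fun i => ?_) (fun j => ?_) i
    · rw [hyl]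
      exact hx i
    · rw [hyr]
      exact (hw j).1
  rcases dat_or2 U F' y hF' (WA D 𝒰) (fun m g hg hne c hc => unitA D 𝒰 m g hg hne c hc)
    (fun g hg m hm h => tfA D 𝒰 g hg m hm h) (by
      intro i hi
      obtain ⟨j, -, rfl⟩ := Finset.mem_image.1 hi
      exact ⟨w j, hw j, (hyr j).symm⟩) (by
      obtain ⟨i, hi⟩ := hnc
      exact ⟨Fin.castAdd r i, fun c => by rw [hyl]; exact hi c⟩) (thA 𝒰 τ) (thA 𝒰 τ).injective with
    ⟨z, g1, g2, g3⟩ | ⟨⟨d⟩⟩
  · exfalso
    apply g3
    have hzr : ∀ j, z (Fin.natAdd n j) = thA 𝒰 τ (W j) := by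
      intro j
      rw [g2 _ (Finset.mem_image_of_mem _ (Finset.mem_univ j)), hyr]
    have hrrz : ∀ P : MvPolynomial (Fin r) M, MvPolynomial.eval₂ ((thA 𝒰 τ).comp
        (algebraMap M (BA M 𝒰))) z (rr P) = thA 𝒰 τ (MvPolynomial.aeval W P) := by
      intro P
      simp only [rr]
      rw [MvPolynomial.eval₂_rename]
      have h1 := MvPolynomial.hom_eval₂ P (algebraMap M (BA M 𝒰)) (thA 𝒰 τ) W
      rw [← MvPolynomial.aeval_def] at h1
      rw [h1]
      congr 1
      exact funext hzr
    funext i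
    refine Fin.addCases (fun i => ?_) (fun j => ?_) i
    · have h1 := g1 (Sum.inr (Sum.inl i))
      have h2 : MvPolynomial.eval₂ ((thA 𝒰 τ).comp (algebraMap M (BA M 𝒰))) z
        (rr (q i) * MvPolynomial.X (Fin.castAdd r i) - rr (p i)) = 0 := h1
      rw [MvPolynomial.eval₂_sub, MvPolynomial.eval₂_mul, hrrz, hrrz, MvPolynomial.eval₂_X,
        sub_eq_zero, ← hqp, map_mul] at h2
      rw [hyl]
      refine mul_left_cancel₀ ?_ h2
      intro h3
      exact hqW i ((map_eq_zero_iff _ (thA 𝒰 τ).injective).1 h3)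
    · rw [hzr, hyr]
  · have h1 := curveA_dat D 𝒰 F' y hF' hyT d
    filter_upwards [h1] with t ht
    obtain ⟨v, hv1, hv2, hv3, j0, hj0⟩ := ht
    have hvl : ∀ s, s ≠ 0 → ∀ P : MvPolynomial (Fin n) M, MvPolynomial.eval (v s) (rl P) =
        MvPolynomial.eval (fun i => v s (Fin.castAdd r i)) P := by
      intro s _ P
      simp only [rl]
      rw [MvPolynomial.eval_rename]
      rfl
    refine ⟨fun s i => v s (Fin.castAdd r i), fun i => hv1 _, fun i s hs => ?_, ?_, ?_⟩
    · rw [← hvl s hs]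
      exact hv2 (Sum.inl i) s hs
    · funext i
      have h2 : v 1 (Fin.castAdd r i) = rep (K := M) (𝒰 := 𝒰) (y (Fin.castAdd r i)) t :=
        congrFun hv3 (Fin.castAdd r i)
      exact h2.trans (congrArg (fun z : BA M 𝒰 => rep (K := M) (𝒰 := 𝒰) z t) (hyl i))
    · by_contra hcon
      push Not at hcon
      apply hj0
      refine Fin.addCases (fun i => ?_) (fun j => ?_) j0
      · have h2 := hcon 1 i
        rw [pow_one] at h2
        exact h2
      · let C : M := c j * MvPolynomial.eval (fun i => v 1 (Fin.castAdd r i)) (f j)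
        refine laur_const (fun s => v s (Fin.natAdd n j)) (hv1 _) {ρ | ρ ^ m j = C} ?_ fun k => ?_
        · refine ((Polynomial.nthRoots (m j) C).toFinset.finite_toSet).subset fun ρ hρ => ?_
          rw [Finset.mem_coe, Multiset.mem_toFinset, Polynomial.mem_nthRoots (hm j)]
          exact hρ
        · have h20 : (2 : M) ^ k ≠ 0 := pow_ne_zero _ two_ne_zero
          have h2 : MvPolynomial.eval (v (2 ^ k)) (MvPolynomial.X (Fin.natAdd n j) ^ m j -
            MvPolynomial.C (c j) * rl (f j)) = 0 := hv2 (Sum.inr (Sum.inr j)) (2 ^ k) h20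
          rw [map_sub, map_mul, map_pow, MvPolynomial.eval_X, MvPolynomial.eval_C,
            hvl _ h20, sub_eq_zero] at h2
          show v (2 ^ k) (Fin.natAdd n j) ^ m j = C
          rw [h2]
          simp only [C]
          congr 2
          congr 1
          funext i
          exact hcon k i

end Pool.Agent.H21bl.TC
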