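import Mathlib
import Pool.Agent.H21bl.TC.Dvd

/-!
The ring of Laurent polynomials is integrally closed; minimal polynomials over it.
-/

set_option autoImplicit false
set_option linter.unusedSectionVars false

open Finset Filter Topology

namespace Pool.Agent.H21bl.TC

open Pool.Agent.N754.LT Pool.Agent.H21bl.CC

variable {k : Type} [Field k] {r : ℕ}

theorem la_dom : IsDomain (La k r) := inferInstance

theorem la_ic : IsIntegrallyClosed (La k r) := by
  rw [isIntegrallyClosed_iff (FractionRing (La k r))]
  rintro x ⟨P, hP, hPx⟩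
  obtain ⟨p, q, hq, hx⟩ := IsFractionRing.div_surjective (A := La k r) x
  have hq0 : q ≠ 0 := nonZeroDivisors.ne_zero hq
  have hinj : Function.Injective (algebraMap (La k r) (FractionRing (La k r))) :=
    IsFractionRing.injective _ _
  have hq' : algebraMap (La k r) (FractionRing (La k r)) q ≠ 0 := by
    rw [Ne, map_eq_zero_iff _ hinj]
    exact hq0
  have h1 : p ^ P.natDegree + ∑ j ∈ range P.natDegree, P.coeff j * p ^ j *
      q ^ (P.natDegree - j) = 0 := by
    apply hinj
    rw [map_zero, map_add, map_pow, map_sum]
    rw [Polynomial.eval₂_eq_sum_range, Finset.sum_range_succ, hP.coeff_natDegree, map_one,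
      one_mul] at hPx
    have h2 : algebraMap (La k r) (FractionRing (La k r)) p =
        x * algebraMap (La k r) (FractionRing (La k r)) q := by
      rw [← hx, div_mul_cancel₀ _ hq']
    have h3 : ∀ j ∈ range P.natDegree, algebraMap (La k r) (FractionRing (La k r))
        (P.coeff j * p ^ j * q ^ (P.natDegree - j)) =
        algebraMap (La k r) (FractionRing (La k r)) q ^ P.natDegree *
          (algebraMap (La k r) (FractionRing (La k r)) (P.coeff j) * x ^ j) := by
      intro j hj
      have hj' := Finset.mem_range.1 hj
      rw [map_mul, map_mul, map_pow, map_pow, h2, mul_pow]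
      have h4 : algebraMap (La k r) (FractionRing (La k r)) q ^ P.natDegree =
          algebraMap (La k r) (FractionRing (La k r)) q ^ j *
            algebraMap (La k r) (FractionRing (La k r)) q ^ (P.natDegree - j) := by
        rw [← pow_add]
        congr 1
        omega
      rw [h4]
      ring
    rw [Finset.sum_congr rfl h3, ← Finset.mul_sum, h2, mul_pow]
    linear_combination (algebraMap (La k r) (FractionRing (La k r)) q ^ P.natDegree) * hPx
  obtain ⟨c, hc⟩ := dvd_of_root P.natDegree P.coeff p q hq0 h1
  refine ⟨c, ?_⟩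
  rw [← hx, hc, map_mul]
  field_simp

/-- minimal polynomials -/
theorem exists_min {R : Type} [CommRing R] [IsDomain R] [Algebra k R] (s : Fin r → Rˣ)
    (hinj : ∀ p : La k r, ev s p = 0 → p = 0) (Φ : Polynomial (La k r)) (hΦ : Φ.Monic) (y : R)
    (hy : evp s y Φ = 0) :
    ∃ Θ : Polynomial (La k r), Θ.Monic ∧ Θ ∣ Φ ∧ evp s y Θ = 0 ∧
      ∀ P : Polynomial (La k r), P.natDegree < Θ.natDegree → evp s y P = 0 → P = 0 := by
  classical
  let : Algebra (La k r) R := (ev s : La k r →ₐ[k] R).toRingHom.toAlgebra
  have hev : ∀ P : Polynomial (La k r), Polynomial.aeval y P = evp s y P := fun P => rfl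
  have hinj' : Function.Injective (algebraMap (La k r) R) :=
    (injective_iff_map_eq_zero _).2 hinj
  have hic := la_ic (k := k) (r := r)
  have htf : Module.IsTorsionFree (La k r) R := by
    refine Module.IsTorsionFree.of_smul_eq_zero fun p x hx => ?_
    rw [Algebra.smul_def] at hx
    rcases mul_eq_zero.1 hx with h | h
    · exact Or.inl (hinj p h)
    · exact Or.inr h
  have hint : IsIntegral (La k r) y := ⟨Φ, hΦ, hy⟩
  refine ⟨minpoly (La k r) y, minpoly.monic hint, ?_, ?_, fun P hP hPy => ?_⟩
  · exact minpoly.isIntegrallyClosed_dvd hint ((hev Φ).trans hy)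
  · rw [← hev]
    exact minpoly.aeval _ _
  · by_contra hP0
    have h1 := Polynomial.natDegree_le_of_dvd
      (minpoly.isIntegrallyClosed_dvd hint ((hev P).trans hPy)) hP0
    omega

end Pool.Agent.H21bl.TC
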