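import Mathlib
import Pool.Agent.H21bl.TC.Cmp
import Pool.Agent.Helper165.P1.NP

/-!
Polynomials over the ring of Laurent polynomials in one variable split at infinity.
-/

set_option autoImplicit false
set_option linter.unusedSectionVars false

open Finset Filter

namespace Pool.Agent.H21bl.TC

open Pool.Agent.N754.LT Pool.Agent.H21bl.CC Pool.Agent.Helper165.P1.NP

variable {k : Type} [Field k]

/-- monomials as Laurent series -/
noncomputable def emM (σ : ℤ) : Multiplicative (Fin 1 → ℤ) →* LS k where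
  toFun := fun m => HahnSeries.single (-σ * m.toAdd 0) (1 : k)
  map_one' := by
    show HahnSeries.single (-σ * (0 : Fin 1 → ℤ) 0) (1 : k) = 1
    rw [Pi.zero_apply, mul_zero]
    rfl
  map_mul' := fun m m' => by
    show HahnSeries.single (-σ * (m.toAdd + m'.toAdd) 0) (1 : k) = _
    rw [HahnSeries.single_mul_single, Pi.add_apply, mul_add, one_mul]

/-- Laurent polynomials as Laurent series, in one of the two directions -/
noncomputable def em (σ : ℤ) : La k 1 →+* LS k :=
  AddMonoidAlgebra.liftNCRingHom HahnSeries.C (emM σ) fun _ _ => mul_comm _ _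

theorem em_single (σ : ℤ) (b : Fin 1 → ℤ) (c : k) :
    em σ (AddMonoidAlgebra.single b c) = HahnSeries.single (-σ * b 0) c := by
  have h1 : em σ (AddMonoidAlgebra.single b c) =
      HahnSeries.C c * HahnSeries.single (-σ * b 0) (1 : k) := by
    show AddMonoidAlgebra.liftNC _ _ (AddMonoidAlgebra.single b c) = _
    rw [AddMonoidAlgebra.liftNC_single]
    rfl
  rw [h1, HahnSeries.C_apply, HahnSeries.single_mul_single, zero_add, mul_one]

theorem em_coeff {σ : ℤ} (hσ : σ * σ = 1) (p : La k 1) (n : ℤ) :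
    (em σ p).coeff n = p.coeff fun _ => -σ * n := by
  classical
  induction p using AddMonoidAlgebra.induction_linear with
  | zero =>
    rw [map_zero]
    rfl
  | add f g hf hg =>
    rw [map_add, HahnSeries.coeff_add, hf, hg, AddMonoidAlgebra.coeff_add, Finsupp.add_apply]
  | single b c =>
    rw [em_single, HahnSeries.coeff_single, AddMonoidAlgebra.coeff_single, Finsupp.single_apply]
    by_cases h : n = -σ * b 0
    · rw [if_pos h, if_pos]
      funext j
      rw [Subsingleton.elim j 0, h]
      linear_combination -(b 0) * hσ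
    · rw [if_neg h, if_neg]
      intro h'
      apply h
      have h2 := congrFun h' 0
      rw [h2]
      linear_combination -n * hσ

/-- vanishing to high order -/
def Vo (n : ℤ) (x : LS k) : Prop := ∀ j, j < n → x.coeff j = 0

theorem Vo.mono {n m : ℤ} (h : m ≤ n) {x : LS k} (hx : Vo n x) : Vo m x :=
  fun j hj => hx j (hj.trans_le h)

theorem Vo.add {n : ℤ} {x y : LS k} (hx : Vo n x) (hy : Vo n y) : Vo n (x + y) := by
  intro j hj
  rw [HahnSeries.coeff_add, hx j hj, hy j hj, add_zero]

theorem Vo.zero (n : ℤ) : Vo n (0 : LS k) := fun _ _ => rfl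

theorem Vo.neg {n : ℤ} {x : LS k} (hx : Vo n x) : Vo n (-x) := by
  intro j hj
  rw [HahnSeries.coeff_neg, hx j hj, neg_zero]

theorem Vo.mul {n m : ℤ} {x y : LS k} (hx : Vo n x) (hy : Vo m y) : Vo (n + m) (x * y) := by
  intro j hj
  rw [HahnSeries.coeff_mul]
  refine Finset.sum_eq_zero fun p hp => ?_
  rw [Finset.mem_antidiagonal] at hp
  obtain ⟨-, -, h3⟩ := hp
  by_cases h : p.1 < n
  · rw [hx _ h, zero_mul]
  · rw [hy p.2 (by omega), mul_zero]

theorem Vo.sum {n : ℤ} {ι : Type} (s : Finset ι) (x : ι → LS k) (h : ∀ i ∈ s, Vo n (x i)) :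
    Vo n (∑ i ∈ s, x i) := by
  classical
  induction s using Finset.induction_on with
  | empty => exact Vo.zero n
  | insert i s hi ih =>
    rw [Finset.sum_insert hi]
    exact (h i (Finset.mem_insert_self _ _)).add (ih fun j hj => h j (Finset.mem_insert_of_mem hj))

theorem Vo.one {n : ℤ} (hn : n ≤ 0) : Vo n (1 : LS k) := by
  intro j hj
  rw [HahnSeries.coeff_one, if_neg (by omega)]

/-- vanishing of the coefficients to high order -/
def VP (n : ℤ) (p : Polynomial (LS k)) : Prop := ∀ i, Vo n (p.coeff i)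

theorem VP.add {n : ℤ} {p q : Polynomial (LS k)} (hp : VP n p) (hq : VP n q) : VP n (p + q) := by
  intro i
  rw [Polynomial.coeff_add]
  exact (hp i).add (hq i)

theorem VP.mul {n m : ℤ} {p q : Polynomial (LS k)} (hp : VP n p) (hq : VP m q) :
    VP (n + m) (p * q) := by
  intro i
  rw [Polynomial.coeff_mul]
  exact Vo.sum _ _ fun x _ => (hp x.1).mul (hq x.2)

theorem VP.mono {n m : ℤ} (h : m ≤ n) {p : Polynomial (LS k)} (hp : VP n p) : VP m p :=
  fun i => (hp i).mono h

theorem VP.C {n : ℤ} {x : LS k} (hx : Vo n x) : VP n (Polynomial.C x) := by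
  intro i
  rw [Polynomial.coeff_C]
  split_ifs
  · exact hx
  · exact Vo.zero n

theorem VP.lin {n : ℤ} (hn : n ≤ 0) {x : LS k} (hx : Vo n x) :
    VP n (Polynomial.X - Polynomial.C x) := by
  rw [sub_eq_add_neg]
  refine VP.add (fun i => ?_) ?_
  · rw [Polynomial.coeff_X]
    split_ifs
    · exact Vo.one hn
    · exact Vo.zero n
  · rw [← Polynomial.C_neg]
    exact VP.C hx.neg

theorem VP.one {n : ℤ} (hn : n ≤ 0) : VP n (1 : Polynomial (LS k)) := by
  have := VP.C (Vo.one (k := k) hn)
  rwa [Polynomial.C_1] at this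

theorem VP.prod {c : ℤ} (hc : 0 ≤ c) {ι : Type} (s : Finset ι) (x : ι → LS k)
    (hx : ∀ i, Vo (-c) (x i)) :
    VP (-(c * s.card)) (∏ i ∈ s, (Polynomial.X - Polynomial.C (x i))) := by
  classical
  induction s using Finset.induction_on with
  | empty =>
    rw [Finset.prod_empty, Finset.card_empty]
    exact VP.one (by simp)
  | insert i s hi ih =>
    rw [Finset.prod_insert hi, Finset.card_insert_of_notMem hi]
    have h1 := (VP.lin (by omega) (hx i)).mul ih
    refine h1.mono ?_
    push_cast
    linarith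

/-- products of perturbed linear factors -/
theorem VP.diff {c T : ℤ} (hc : 0 ≤ c) (hT : 0 ≤ T) {ι : Type} (s : Finset ι) (x x' : ι → LS k)
    (hx : ∀ i, Vo (-c) (x i)) (hxx : ∀ i, Vo T (x i - x' i)) :
    VP (T - c * s.card) (∏ i ∈ s, (Polynomial.X - Polynomial.C (x' i)) -
      ∏ i ∈ s, (Polynomial.X - Polynomial.C (x i))) := by
  classical
  have hx' : ∀ i, Vo (-c) (x' i) := by
    intro i
    have h1 : x' i = x i + -(x i - x' i) := by ring
    rw [h1]
    exact (hx i).add ((hxx i).neg.mono (by omega))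
  induction s using Finset.induction_on with
  | empty =>
    rw [Finset.prod_empty, Finset.prod_empty, sub_self]
    intro i
    rw [Polynomial.coeff_zero]
    exact Vo.zero _
  | insert i s hi ih =>
    rw [Finset.prod_insert hi, Finset.prod_insert hi, Finset.card_insert_of_notMem hi]
    have h1 : (Polynomial.X - Polynomial.C (x' i)) * ∏ i ∈ s, (Polynomial.X - Polynomial.C (x' i)) -
        (Polynomial.X - Polynomial.C (x i)) * ∏ i ∈ s, (Polynomial.X - Polynomial.C (x i)) =
        (Polynomial.X - Polynomial.C (x' i)) * (∏ i ∈ s, (Polynomial.X - Polynomial.C (x' i)) -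
          ∏ i ∈ s, (Polynomial.X - Polynomial.C (x i))) +
        Polynomial.C (x i - x' i) * ∏ i ∈ s, (Polynomial.X - Polynomial.C (x i)) := by
      rw [Polynomial.C_sub]
      ring
    rw [h1]
    refine VP.add ?_ ?_
    · refine ((VP.lin (by omega) (hx' i)).mul ih).mono ?_
      push_cast
      linarith
    · refine ((VP.C (hxx i)).mul (VP.prod hc s x hx)).mono ?_
      push_cast
      linarith

/-- truncations -/
noncomputable def tru (σ T : ℤ) (x : LS k) : La k 1 :=
  ∑ n ∈ Finset.Ico x.order T, AddMonoidAlgebra.single (fun _ => -σ * n) (x.coeff n)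

theorem em_tru {σ : ℤ} (hσ : σ * σ = 1) (T : ℤ) (x : LS k) : Vo T (x - em σ (tru σ T x)) := by
  classical
  intro j hj
  have h1 : em σ (tru σ T x) = ∑ n ∈ Finset.Ico x.order T, HahnSeries.single n (x.coeff n) := by
    unfold tru
    rw [map_sum]
    refine Finset.sum_congr rfl fun n _ => ?_
    rw [em_single]
    have h2 : -σ * (-σ * n) = n := by linear_combination n * hσ
    show HahnSeries.single (-σ * (-σ * n)) _ = _
    rw [h2]
  rw [HahnSeries.coeff_sub, h1, HahnSeries.coeff_sum]
  simp only [HahnSeries.coeff_single]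
  by_cases h : x.order ≤ j
  · rw [Finset.sum_eq_single j]
    · rw [if_pos rfl, sub_self]
    · intro n _ hn
      rw [if_neg (Ne.symm hn)]
    · intro h'
      exact absurd (Finset.mem_Ico.2 ⟨h, hj⟩) h'
  · rw [HahnSeries.coeff_eq_zero_of_lt_order (not_le.1 h), zero_sub, neg_eq_zero]
    refine Finset.sum_eq_zero fun n hn => ?_
    rw [if_neg]
    rintro rfl
    exact h (Finset.mem_Ico.1 hn).1

theorem exists_fun_of_card {α : Type} (n : ℕ) (s : Multiset α) (hs : Multiset.card s = n) :
    ∃ f : Fin n → α, s = (Finset.univ : Finset (Fin n)).val.map f := by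
  induction s using Quotient.inductionOn with
  | _ l =>
    have hl : l.length = n := hs
    subst hl
    refine ⟨l.get, ?_⟩
    rw [Fin.univ_val_map, List.ofFn_get]
    rfl

theorem pw_single {r : ℕ} (m : ℕ) (b : Fin r → ℤ) (c : k) :
    pw m (AddMonoidAlgebra.single b c) = AddMonoidAlgebra.single (m • b) c := by
  unfold pw
  simp

theorem em_pw (σ : ℤ) (m : ℕ) (hm : 0 < m) (p : La k 1) :
    em σ (pw m p) = expandHom m hm (em σ p) := by
  induction p using AddMonoidAlgebra.induction_linear with
  | zero => simp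
  | add f g hf hg => rw [map_add, map_add, hf, hg, map_add, map_add]
  | single b c =>
    rw [pw_single, em_single, em_single, expandHom_single]
    have h2 : -σ * (m • b) 0 = (m : ℤ) * (-σ * b 0) := by
      rw [Pi.smul_apply, nsmul_eq_mul]
      ring
    rw [h2]

/-- splitting at infinity from a factorization over the field of Laurent series -/
theorem splitsE_of (Φ : Polynomial (La k 1)) {e : ℕ} {σ : ℤ} (hσ : σ * σ = 1) (x : Fin e → LS k)
    (h : Φ.map (em σ) =
      ∏ i, (Polynomial.X - Polynomial.C (x i))) :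
    SplitsE Φ e fun _ => (σ : ℝ) := by
  classical
  intro N
  let c : ℤ := ∑ i, |(x i).order|
  have hc : 0 ≤ c := Finset.sum_nonneg fun i _ => abs_nonneg _
  have hx : ∀ i, Vo (-c) (x i) := by
    intro i j hj
    refine HahnSeries.coeff_eq_zero_of_lt_order ?_
    have h1 : |(x i).order| ≤ c :=
      Finset.single_le_sum (f := fun i => |(x i).order|) (fun _ _ => abs_nonneg _)
        (Finset.mem_univ i)
    have h2 := neg_abs_le (x i).order
    omega
  obtain ⟨T0, hT0⟩ := exists_nat_ge N
  let T : ℤ := T0 + c * e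
  have hT : 0 ≤ T := by positivity
  have h1 := VP.diff hc hT Finset.univ x (fun i => em σ (tru σ T (x i))) hx
    (fun i => em_tru hσ T (x i))
  refine ⟨(1, fun i => tru σ T (x i), 0), ?_, fun i b hb => ?_⟩
  · show (1 : La k 1).coeff 0 ≠ 0
    rw [AddMonoidAlgebra.one_def, AddMonoidAlgebra.coeff_single, Finsupp.single_eq_same]
    exact one_ne_zero
  · have h2 : (err Φ (1 : La k 1) fun i => tru σ T (x i)).map
        (em σ) =
        ∏ i, (Polynomial.X - Polynomial.C (em σ (tru σ T (x i)))) -
          ∏ i, (Polynomial.X - Polynomial.C (x i)) := by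
      unfold err
      simp only [one_pow, Polynomial.C_1, one_mul]
      rw [Polynomial.map_sub, h, Polynomial.map_prod]
      congr 1
      refine Finset.prod_congr rfl fun i _ => ?_
      rw [Polynomial.map_sub, Polynomial.map_X, Polynomial.map_C]
    rw [← h2] at h1
    have h3 := h1 i
    rw [Polynomial.coeff_map] at h3
    have h4 : (em σ ((err Φ (1 : La k 1) fun i => tru σ T (x i)).coeff i)).coeff (-σ * b 0) ≠ 0 := by
      rw [em_coeff hσ]
      have h5 : (fun _ => -σ * (-σ * b 0)) = b := by
        funext j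
        rw [Subsingleton.elim j 0]
        linear_combination (b 0) * hσ
      rw [h5]
      exact Finsupp.mem_support_iff.1 hb
    have h5 : ¬ (-σ * b 0 < T - c * (Finset.univ : Finset (Fin e)).card) := fun hlt =>
      h4 (h3 _ hlt)
    rw [Finset.card_univ, Fintype.card_fin] at h5
    have h6 : (T0 : ℤ) ≤ -σ * b 0 := by
      simp only [T] at h5
      push_cast at h5
      linarith
    have h7 : (T0 : ℝ) ≤ -σ * b 0 := by exact_mod_cast h6
    have h8 : dt b (fun _ => (σ : ℝ)) = b 0 * σ := by
      unfold dt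
      rw [Fin.sum_univ_one]
    have h9 : dt (0 : Fin 1 → ℤ) (fun _ => (σ : ℝ)) = 0 := dt_zero _
    rw [h8, h9]
    linarith

theorem SplitsE.smul {r : ℕ} {Φ : Polynomial (La k r)} {e : ℕ} {θ : Fin r → ℝ}
    (h : SplitsE Φ e θ) (c : ℝ) (hc : 0 < c) : SplitsE Φ e (c • θ) := by
  intro N
  obtain ⟨d, hd, hd2⟩ := h (N / c)
  refine ⟨d, hd, fun j b hb => ?_⟩
  have h1 := mul_le_mul_of_nonneg_left (hd2 j b hb) hc.le
  rw [dt_smul, dt_smul]
  have h2 : c * (e * dt d.2.2 θ - N / c) = e * (c * dt d.2.2 θ) - N := by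
    field_simp
  linarith

/-- **Puiseux**: polynomials over the ring of Laurent polynomials in one variable split at
infinity after a substitution. -/
theorem exists_pw [IsAlgClosed k] [CharZero k] (Φ : Polynomial (La k 1)) (hΦ : Φ.Monic) :
    ∃ m : ℕ, 0 < m ∧ SplitsH (Φ.map (pw m)) := by
  classical
  have hsp : ∀ σ : ℤ, ∃ (m : ℕ) (hm : 0 < m),
      ((Φ.map (em σ)).map (expandHom m hm)).Splits := fun σ =>
    NP_splits_monic _ _ (hΦ.map _) rfl
  obtain ⟨m1, hm1, h1⟩ := hsp 1
  obtain ⟨m2, hm2, h2⟩ := hsp (-1)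
  have hm : 0 < m2 * m1 := Nat.mul_pos hm2 hm1
  have hdeg : (Φ.map (pw (m2 * m1))).natDegree = Φ.natDegree := hΦ.natDegree_map _
  have h1' : ((Φ.map (em 1)).map
      (expandHom (m2 * m1) hm)).Splits := by
    rw [← expandHom_comp m1 m2 hm1 hm2, ← Polynomial.map_map]
    exact h1.map _
  have h2' : ((Φ.map (em (-1))).map
      (expandHom (m2 * m1) hm)).Splits := by
    have h3 : (expandHom (E := k) (m2 * m1) hm) = (expandHom m1 hm1).comp (expandHom m2 hm2) := by
      rw [expandHom_comp m2 m1 hm2 hm1]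
      congr 1
      exact mul_comm _ _
    rw [h3, ← Polynomial.map_map]
    exact h2.map _
  have key : ∀ σ : ℤ, σ * σ = 1 → ((Φ.map (em σ)).map
      (expandHom (m2 * m1) hm)).Splits →
      SplitsE (Φ.map (pw (m2 * m1))) Φ.natDegree fun _ => (σ : ℝ) := by
    intro σ hσ hs
    have hmap : (Φ.map (em σ)).map (expandHom (m2 * m1) hm) =
        (Φ.map (pw (m2 * m1))).map (em σ) := by
      rw [Polynomial.map_map, Polynomial.map_map]
      congr 1
      apply RingHom.ext
      intro p
      exact (em_pw σ (m2 * m1) hm p).symm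
    rw [hmap] at hs
    have hmon : ((Φ.map (pw (m2 * m1))).map (em σ)).Monic :=
      (hΦ.map _).map _
    obtain ⟨x, hx⟩ := exists_fun_of_card Φ.natDegree
      ((Φ.map (pw (m2 * m1))).map (em σ)).roots (by
        rw [← hs.natDegree_eq_card_roots, (hΦ.map _).natDegree_map, hΦ.natDegree_map])
    refine splitsE_of _ hσ x ?_
    have h3 := hs.eq_prod_roots_of_monic hmon
    rw [hx, Multiset.map_map] at h3
    rw [h3]
    rfl
  refine ⟨m2 * m1, hm, 0, 1, one_pos, fun θ hθ _ => ?_⟩
  rw [hdeg]
  have hθ0 : θ 0 ≠ 0 := by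
    intro h
    apply hθ
    funext j
    rw [Subsingleton.elim j 0]
    exact h
  rcases lt_or_gt_of_ne hθ0 with h | h
  · have h3 := (key (-1) (by norm_num) h2').smul (-θ 0) (by linarith)
    have h4 : (-θ 0) • (fun _ : Fin 1 => ((-1 : ℤ) : ℝ)) = θ := by
      funext j
      rw [Subsingleton.elim j 0, Pi.smul_apply, smul_eq_mul]
      push_cast
      ring
    rwa [h4] at h3
  · have h3 := (key 1 (by norm_num) h1').smul (θ 0) h
    have h4 : (θ 0) • (fun _ : Fin 1 => ((1 : ℤ) : ℝ)) = θ := by
      funext j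
      rw [Subsingleton.elim j 0, Pi.smul_apply, smul_eq_mul]
      push_cast
      ring
    rwa [h4] at h3

end Pool.Agent.H21bl.TC
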