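import Mathlib
import Pool.Agent.H21bl.TC.Pui
import Pool.Agent.H21bl.TC.Ar
import Pool.Agent.H21bl.TC.CmpR
import Pool.Agent.H21bl.TC.Min
import Pool.Agent.N754.LT.Grp
import Pool.Agent.H21bl.CC.Coord

/-!
Rings with a group of units for which the unit equations and the key theorem hold.
-/

set_option autoImplicit false
set_option linter.unusedSectionVars false

open Finset Filter

namespace Pool.Agent.H21bl.TC

open Pool.Agent.N754.LT Pool.Agent.H21bl.CC

section nat

variable {k A B : Type} [Field k] [CommRing A] [CommRing B] [Algebra k A] [Algebra k B] {r : ℕ}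

theorem mapL_id (p : La k r) : mapL (RingHom.id k) p = p := La_ext fun b => by
  rw [coeff_mapL]
  rfl

/-- images of units -/
def um (φ : A →ₐ[k] B) (u : Aˣ) : Bˣ := Units.map (φ : A →* B) u

theorem um_coe (φ : A →ₐ[k] B) (u : Aˣ) : (um φ u : B) = φ u := rfl

theorem mo_um (φ : A →ₐ[k] B) (s : Fin r → Aˣ) (b : Fin r → ℤ) :
    um φ (mo s b) = mo (fun j => um φ (s j)) b := by
  unfold mo um
  rw [map_prod]
  exact Finset.prod_congr rfl fun j _ => by rw [map_zpow]

theorem ev_um (φ : A →ₐ[k] B) (s : Fin r → Aˣ) (p : La k r) :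
    φ (ev s p) = ev (fun j => um φ (s j)) p := by
  have h := ev_mapL (RingHom.id k) (φ : A →+* B) (fun c => φ.commutes c) s
    (fun j => um φ (s j)) (fun _ => rfl) p
  rw [mapL_id] at h
  exact h

theorem evp_um (φ : A →ₐ[k] B) (s : Fin r → Aˣ) (y : A) (Φ : Polynomial (La k r)) :
    φ (evp s y Φ) = evp (fun j => um φ (s j)) (φ y) Φ := by
  have h := evp_mapL (RingHom.id k) (φ : A →+* B) (fun c => φ.commutes c) s
    (fun j => um φ (s j)) (fun _ => rfl) y Φ
  have h1 : (mapL (RingHom.id k) : La k r →+* La k r) = RingHom.id _ := RingHom.ext mapL_id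
  rw [h1, Polynomial.map_id] at h
  exact h

end nat

variable {k R : Type} [Field k] [CommRing R] [Algebra k R] {r : ℕ}

/-- independence modulo constants -/
def Ind (k : Type) [Field k] {R : Type} [CommRing R] [Algebra k R] {r : ℕ} (s : Fin r → Rˣ) :
    Prop :=
  ∀ b : Fin r → ℤ, b ≠ 0 → ∀ c : k, (mo s b : R) ≠ algebraMap k R c

/-- a ring with a divisible group of units and a subring of integral elements -/
structure Sys (k R : Type) [Field k] [CommRing R] [IsDomain R] [Algebra k R] where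
  W : Subgroup Rˣ
  I : Subalgebra k R
  mem_I : ∀ u ∈ W, (u : R) ∈ I
  root : ∀ u ∈ W, ∀ m : ℕ, 0 < m → ∃ v ∈ W, v ^ m = u
  inj : ∀ (r : ℕ) (s : Fin r → Rˣ), (∀ j, s j ∈ W) → Ind k s → ∀ p : La k r, ev s p = 0 → p = 0
  key : ∀ (r : ℕ), 0 < r → ∀ s : Fin r → Rˣ, (∀ j, s j ∈ W) → Ind k s →
    ∀ (Φ : Polynomial (La k r)) (e : ℕ), FD Φ e → Φ.Monic → 0 < e → ∀ y ∈ I, evp s y Φ = 0 →
      ¬ ∀ p q : La k r, ev s q * y = ev s p → q = 0
  keyR : ∀ (r : ℕ), 0 < r → ∀ s : Fin r → Rˣ, (∀ j, s j ∈ W) → Ind k s →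
    ∀ (Φ : Polynomial (La k r)) (e : ℕ), FR Φ e → Φ.Monic → 2 ≤ e → ∀ y ∈ I, evp s y Φ = 0 →
      ¬ ∀ P : Polynomial (La k r), P.natDegree < e → evp s y P = 0 → P = 0

section pw

theorem mo_pow (s : Fin r → Rˣ) (m : ℕ) (b : Fin r → ℤ) :
    mo s (m • b) = mo (fun j => s j ^ m) b := by
  unfold mo
  refine Finset.prod_congr rfl fun j _ => ?_
  rw [Pi.smul_apply, nsmul_eq_mul, zpow_mul, zpow_natCast]

theorem ev_pw (s : Fin r → Rˣ) (m : ℕ) (p : La k r) :
    ev s (pw m p) = ev (fun j => s j ^ m) p := by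
  induction p using AddMonoidAlgebra.induction_linear with
  | zero => simp
  | add f g hf hg => rw [map_add, map_add, hf, hg, map_add]
  | single b c => rw [pw_single, ev_single, ev_single, mo_pow]

theorem evp_pw (s : Fin r → Rˣ) (m : ℕ) (y : R) (Φ : Polynomial (La k r)) :
    evp s y (Φ.map (pw m)) = evp (fun j => s j ^ m) y Φ := by
  unfold evp
  rw [Polynomial.coe_eval₂RingHom, Polynomial.coe_eval₂RingHom, Polynomial.eval₂_map]
  congr 1
  exact RingHom.ext fun p => ev_pw s m p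

theorem Ind.root {s : Fin r → Rˣ} {m : ℕ} (hm : 0 < m) (h : Ind k fun j => s j ^ m) :
    Ind k s := by
  intro b hb c hc
  refine h b hb (c ^ m) ?_
  rw [← mo_pow]
  have h1 : mo s (m • b) = mo s b ^ m := by
    have h2 : m • b = (m : ℤ) • b := by rw [natCast_zsmul]
    rw [h2, mo_zsmul, zpow_natCast]
  rw [h1, Units.val_pow_eq_pow_val, hc, map_pow]

end pw

theorem const_of_root [IsAlgClosed k] [IsDomain R] (y : R) (P : Polynomial k) (hP : P.Monic)
    (h : Polynomial.aeval y P = 0) : ∃ c : k, y = algebraMap k R c := by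
  obtain ⟨d, hd⟩ := minpoly.mem_range_of_degree_eq_one k y
    (IsAlgClosed.degree_eq_one_of_irreducible k (minpoly.irreducible ⟨P, hP, h⟩))
  exact ⟨d, hd.symm⟩

namespace Sys

variable [IsDomain R] (S : Sys k R)

/-- the algebra generated by the units -/
def SW : Subalgebra k R := Algebra.adjoin k {x | ∃ u ∈ S.W, (u : R) = x}

theorem unit_mem (u : Rˣ) (hu : u ∈ S.W) : (u : R) ∈ S.SW := Algebra.subset_adjoin ⟨u, hu, rfl⟩

theorem mo_mem {s : Fin r → Rˣ} (hs : ∀ j, s j ∈ S.W) (b : Fin r → ℤ) : mo s b ∈ S.W :=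
  Subgroup.prod_mem _ fun j _ => Subgroup.zpow_mem _ (hs j) _

theorem ev_mem {s : Fin r → Rˣ} (hs : ∀ j, s j ∈ S.W) (p : La k r) : ev s p ∈ S.SW := by
  rw [ev_apply]
  exact sum_mem fun b _ => S.SW.smul_mem (S.unit_mem _ (S.mo_mem hs b)) _

theorem SW_le : S.SW ≤ S.I := by
  unfold SW
  rw [Algebra.adjoin_le_iff]
  rintro _ ⟨u, hu, rfl⟩
  exact S.mem_I u hu

/-- quotients of elements of the algebra generated by the units -/
def KS : Subalgebra k R where
  carrier := {y | ∃ a ∈ S.SW, ∃ b ∈ S.SW, a ≠ 0 ∧ a * y = b}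
  mul_mem' := by
    rintro x y ⟨a, ha, b, hb, ha0, h⟩ ⟨a', ha', b', hb', ha0', h'⟩
    exact ⟨a * a', mul_mem ha ha', b * b', mul_mem hb hb', mul_ne_zero ha0 ha0', by
      rw [← h, ← h']; ring⟩
  add_mem' := by
    rintro x y ⟨a, ha, b, hb, ha0, h⟩ ⟨a', ha', b', hb', ha0', h'⟩
    exact ⟨a * a', mul_mem ha ha', a' * b + a * b', add_mem (mul_mem ha' hb) (mul_mem ha hb'),
      mul_ne_zero ha0 ha0', by rw [← h, ← h']; ring⟩
  algebraMap_mem' := fun c => ⟨1, one_mem _, algebraMap k R c, S.SW.algebraMap_mem c, one_ne_zero,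
    one_mul _⟩

theorem mem_KS (y : R) : y ∈ S.KS ↔ ∃ a ∈ S.SW, ∃ b ∈ S.SW, a ≠ 0 ∧ a * y = b := Iff.rfl

theorem basis [IsAlgClosed k] {ι : Type} [Finite ι] (u : ι → Rˣ) (hu : ∀ i, u i ∈ S.W) :
    ∃ (r : ℕ) (w : Fin r → Rˣ) (a : ι → Fin r → ℤ) (c : ι → k), (∀ j, w j ∈ S.W) ∧
      (∀ i, c i ≠ 0) ∧ (∀ i, (u i : R) = algebraMap k R (c i) * (mo w (a i) : R)) ∧ Ind k w ∧
      (∀ j, Pi.single j 1 ∈ Submodule.span ℤ (Set.range a)) := by
  let C : Subgroup S.W :=
    { carrier := {g | ∃ c : k, ((g : Rˣ) : R) = algebraMap k R c}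
      mul_mem' := by
        rintro a b ⟨c, hc⟩ ⟨d, hd⟩
        refine ⟨c * d, ?_⟩
        rw [map_mul, ← hc, ← hd]
        rfl
      one_mem' := ⟨1, by rw [map_one]; rfl⟩
      inv_mem' := by
        rintro a ⟨c, hc⟩
        have hc0 : c ≠ 0 := by
          rintro rfl
          rw [map_zero] at hc
          exact Units.ne_zero _ hc
        refine ⟨c⁻¹, ?_⟩
        have h1 : ((a : Rˣ) : R) * algebraMap k R c⁻¹ = 1 := by
          rw [hc, ← map_mul, mul_inv_cancel₀ hc0, map_one]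
        exact Units.inv_eq_of_mul_eq_one_right (u := (a : Rˣ)) h1 }
  have hC : ∀ g : S.W, g ∈ C ↔ ∃ c : k, ((g : Rˣ) : R) = algebraMap k R c := fun g => Iff.rfl
  obtain ⟨r, w, a, c, h1, h2, h3, h4⟩ := exists_basis C (by
    rintro g n hn ⟨c, hc⟩
    refine const_of_root _ (Polynomial.X ^ n - Polynomial.C c)
      (Polynomial.monic_X_pow_sub_C c hn.ne') ?_
    rw [map_sub, map_pow, Polynomial.aeval_X, Polynomial.aeval_C, ← hc]
    simp) (fun i => (⟨u i, hu i⟩ : S.W))
  have hmo : ∀ b : Fin r → ℤ, ((∏ j, w j ^ b j : S.W) : Rˣ) =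
      mo (fun j => ((w j : S.W) : Rˣ)) b := by
    intro b
    unfold mo
    exact map_prod (Subgroup.subtype S.W) _ _
  choose c' hc' using fun i => (hC (c i)).1 (h1 i)
  refine ⟨r, fun j => (w j : Rˣ), a, c', fun j => (w j).2, fun i h0 => ?_, fun i => ?_,
    fun b hb c hc => ?_, h4⟩
  · have h5 := hc' i
    rw [h0, map_zero] at h5
    exact Units.ne_zero _ h5
  · rw [← hc', ← hmo, ← Units.val_mul]
    have h5 := congrArg (fun g : S.W => ((g : Rˣ) : R)) (h2 i)
    exact h5
  · apply hb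
    apply h3
    rw [hC]
    exact ⟨c, by rw [hmo]; exact hc⟩

theorem sw_sum {x : R} (hx : x ∈ S.SW) : ∃ (m : ℕ) (g : Fin m → Rˣ) (c : Fin m → k),
    (∀ i, g i ∈ S.W) ∧ x = ∑ i, c i • (g i : R) := by
  classical
  have h1 : x ∈ Submodule.span k {x : R | ∃ u ∈ S.W, (u : R) = x} := by
    have h2 : x ∈ Subalgebra.toSubmodule S.SW := hx
    unfold SW at h2
    rw [Algebra.adjoin_eq_span] at h2
    have h3 : ((Submonoid.closure {x : R | ∃ u ∈ S.W, (u : R) = x} : Submonoid R) :
        Set R) = {x | ∃ u ∈ S.W, (u : R) = x} := by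
      apply le_antisymm
      · have h4 : Submonoid.closure {x : R | ∃ u ∈ S.W, (u : R) = x} ≤
            Submonoid.map (Units.coeHom R) S.W.toSubmonoid := by
          rw [Submonoid.closure_le]
          rintro _ ⟨u, hu, rfl⟩
          exact ⟨u, hu, rfl⟩
        rintro y hy
        obtain ⟨u, hu, rfl⟩ := h4 hy
        exact ⟨u, hu, rfl⟩
      · exact Submonoid.subset_closure
    rw [h3] at h2
    exact h2
  obtain ⟨m, c, g, hg⟩ := Submodule.mem_span_set'.1 h1
  choose g' hg' hg'' using fun i => (g i).2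
  refine ⟨m, g', c, hg', ?_⟩
  rw [← hg]
  exact Finset.sum_congr rfl fun i _ => by rw [hg'']

/-- finitely many elements are Laurent polynomials in independent units -/
theorem sw_rep [IsAlgClosed k] {ι : Type} [Finite ι] (x : ι → R) (hx : ∀ i, x i ∈ S.SW) :
    ∃ (r : ℕ) (w : Fin r → Rˣ) (P : ι → La k r), (∀ j, w j ∈ S.W) ∧ Ind k w ∧
      ∀ i, x i = ev w (P i) := by
  classical
  choose m g c hg hx using fun i => S.sw_sum (hx i)
  obtain ⟨r, w, a, d, h1, -, h2, h3, -⟩ := S.basis (ι := Σ i, Fin (m i)) (fun p => g p.1 p.2)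
    (fun p => hg p.1 p.2)
  refine ⟨r, w, fun i => ∑ j, AddMonoidAlgebra.single (a ⟨i, j⟩) (c i j * d ⟨i, j⟩), h1, h3,
    fun i => ?_⟩
  rw [hx i, map_sum]
  refine Finset.sum_congr rfl fun j _ => ?_
  rw [ev_single, h2 ⟨i, j⟩, Algebra.smul_def, Algebra.smul_def, map_mul]
  ring

/-- **Roots of polynomials whose divisors are reducible at infinity are Laurent polynomials in
units.** -/
theorem main_y [IsAlgClosed k] [CharZero k] {w : Fin r → Rˣ} (hw : ∀ j, w j ∈ S.W)
    (hwi : Ind k w) (Ψ : Polynomial (La k r)) (hΨ : Ψ.Monic)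
    (hsp : 2 ≤ r → RedInf Ψ) (y : R) (hy : y ∈ S.I) (h : evp w y Ψ = 0) : y ∈ S.SW := by
  classical
  rcases Nat.eq_zero_or_pos r with hr | hr
  · subst hr
    let ε : La k 0 →+* k := (ev (R := k) fun _ => 1 : La k 0 →ₐ[k] k).toRingHom
    have hε : (algebraMap k R).comp ε = (ev w : La k 0 →ₐ[k] R).toRingHom := by
      apply RingHom.ext
      intro p
      show algebraMap k R (ev (R := k) (fun _ => 1) p) = ev w p
      rw [ev_apply, ev_apply, map_sum]
      refine Finset.sum_congr rfl fun b _ => ?_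
      have h1 : mo w b = 1 := by
        unfold mo
        exact Finset.prod_of_isEmpty _
      have h2 : (mo (fun _ : Fin 0 => (1 : kˣ)) b : kˣ) = 1 := by
        unfold mo
        exact Finset.prod_of_isEmpty _
      rw [h1, h2, Units.val_one, Units.val_one, Algebra.smul_def, Algebra.smul_def, mul_one,
        mul_one]
      rfl
    obtain ⟨c, hc⟩ := const_of_root y (Ψ.map ε) (hΨ.map _) (by
      rw [Polynomial.aeval_def, Polynomial.eval₂_map, hε]
      exact h)
    rw [hc]
    exact S.SW.algebraMap_mem c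
  · have hred : RedInf Ψ := by
      by_cases h2 : 2 ≤ r
      · exact hsp h2
      · have hr1 : r = 1 := by omega
        subst hr1
        obtain ⟨m, hm, hsp'⟩ := exists_pw Ψ hΨ
        exact ⟨m, hm, Or.inr hsp'⟩
    obtain ⟨m, hm, hred⟩ := hred
    choose v hv hvm using fun j => S.root (w j) (hw j) m hm
    have hvw : (fun j => v j ^ m) = w := funext hvm
    have hvi : Ind k v := Ind.root (k := k) hm (by rw [hvw]; exact hwi)
    have hΨm : (Ψ.map (pw m)).Monic := hΨ.map _
    have hev : evp v y (Ψ.map (pw m)) = 0 := by rw [evp_pw, hvw, h]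
    rcases hred with hred | hsp'
    · obtain ⟨Θ, hΘ, hΘd, hΘy, hΘm⟩ := exists_min v (S.inj r v hv hvi) _ hΨm y hev
      by_cases h3 : 2 ≤ Θ.natDegree
      · exfalso
        obtain ⟨F⟩ := exists_FR Θ (hred Θ hΘ hΘd h3)
        exact S.keyR r hr v hv hvi Θ _ F hΘ h3 y hy hΘy hΘm
      · have h4 : Θ.natDegree ≠ 0 := by
          intro h0
          rw [hΘ.natDegree_eq_zero.1 h0, map_one] at hΘy
          exact one_ne_zero hΘy
        have h5 : Θ.natDegree = 1 := by omega
        have h6 := evp_sum v y Θ 1 h5.le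
        have h7 : Θ.coeff 1 = 1 := by
          rw [← h5]
          exact hΘ
        rw [hΘy, Finset.sum_range_succ, Finset.sum_range_one, h7, map_one, pow_zero, pow_one,
          mul_one, one_mul] at h6
        have h8 : y = ev v (-(Θ.coeff 0)) := by
          rw [map_neg]
          linear_combination -h6
        rw [h8]
        exact S.ev_mem hv _
    · by_cases he : (Ψ.map (pw m)).natDegree = 0
      · exfalso
        rw [hΨm.natDegree_eq_zero.1 he, map_one] at hev
        exact one_ne_zero hev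
      · obtain ⟨FDΨ⟩ := exists_FD _ hsp'
        have h1 := S.key r hr v hv hvi _ _ FDΨ hΨm (Nat.pos_of_ne_zero he) y hy hev
        push Not at h1
        obtain ⟨p, q, h1, hq⟩ := h1
        obtain ⟨P, hP⟩ := exists_of_ratio v (S.inj r v hv hvi) _ hΨm y hev p q hq h1
        rw [hP]
        exact S.ev_mem hv P

end Sys

end Pool.Agent.H21bl.TC
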