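import Mathlib
import Pool.Agent.H21bl.TC.Sys
import Pool.Agent.H21bl.CC.Main

/-!
Functions which are algebraic over the units and split at infinity.
-/

set_option autoImplicit false
set_option linter.unusedSectionVars false

open Finset Filter

namespace Pool.Agent.H21bl.TC

open Pool.Agent.N754.LT Pool.Agent.H21bl.CC
open NumberField
open scoped NumberField

variable {K : Type} [Field K] {n : ℕ} {ι κ : Type}

section coord

variable {k R R' T : Type} [Field k] [IsAlgClosed k] [CharZero k] [Algebra K k] [CommRing R]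
  [IsDomain R] [Algebra k R] [CommRing R'] [Algebra k R']

/-- the value of a polynomial -/
noncomputable def pv (K : Type) [Field K] {k R' : Type} [Field k] [Algebra K k] [CommRing R']
    [Algebra k R'] {n : ℕ} (x : Fin n → R') : MvPolynomial (Fin n) K →+* R' :=
  MvPolynomial.eval₂Hom ((algebraMap k R').comp (algebraMap K k)) x

theorem pv_app {R'' : Type} [CommRing R''] [Algebra k R''] (φ : R' →ₐ[k] R'') (x : Fin n → R')
    (P : MvPolynomial (Fin n) K) : φ (pv (k := k) K x P) = pv (k := k) K (fun i => φ (x i)) P := by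
  have h1 : (φ : R' →+* R'').comp (pv (k := k) K x) = pv (k := k) K (fun i => φ (x i)) := by
    apply MvPolynomial.ringHom_ext
    · intro c
      show φ (pv (k := k) K x (MvPolynomial.C c)) = pv (k := k) K (fun i => φ (x i)) (MvPolynomial.C c)
      unfold pv
      rw [MvPolynomial.eval₂Hom_C, MvPolynomial.eval₂Hom_C]
      exact φ.commutes _
    · intro i
      show φ (pv (k := k) K x (MvPolynomial.X i)) = pv (k := k) K (fun i => φ (x i)) (MvPolynomial.X i)
      unfold pv
      rw [MvPolynomial.eval₂Hom_X', MvPolynomial.eval₂Hom_X']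
  exact RingHom.congr_fun h1 P

theorem pv_self (x : Fin n → k) (P : MvPolynomial (Fin n) K) :
    pv (k := k) K x P = MvPolynomial.aeval x P := rfl

/-- **Functions which are algebraic over the units and split at infinity are quotients of Laurent
polynomials in units**, on sequences of integral points and on entire curves. -/
theorem coord (σ : K →+* ℂ) (F : ι → MvPolynomial (Fin n) (𝓞 K))
    (G : κ → MvPolynomial (Fin n) (𝓞 K)) (S : Sys k R) (𝒢 : Filter T) (g : R' →ₐ[k] R)
    (e : T → R' →ₐ[k] k) (hz : ∀ x, g x = 0 ↔ ∀ᶠ t in 𝒢, e t x = 0)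
    (hlift : ∀ u ∈ S.W, ∃ u' : R'ˣ, um g u' = u) (x : Fin n → R')
    (hF : ∀ᶠ t in 𝒢, ∀ l, MvPolynomial.eval₂ ((algebraMap K k).comp (algebraMap (𝓞 K) K))
      (fun i => e t (x i)) (F l) = 0)
    (hG : ∀ᶠ t in 𝒢, ∃ l, MvPolynomial.eval₂ ((algebraMap K k).comp (algebraMap (𝓞 K) K))
      (fun i => e t (x i)) (G l) ≠ 0)
    (hu : ∀ f, UnitOn σ F f → ∃ u ∈ S.W, (u : R) = g (pv (k := k) K x f))
    (hI : ∀ f, g (pv (k := k) K x f) ∈ S.I) (f : MvPolynomial (Fin n) K)
    (hf : SplitOver σ F G f) : g (pv (k := k) K x f) ∈ S.KS := by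
  classical
  obtain ⟨N, u, A, h, hh, huU, hAU, H⟩ := hf
  choose U hUW hU using fun i => hu (u i) (huU i)
  obtain ⟨B, hBW, hB⟩ := hu A hAU
  obtain ⟨r, w, a, c, hw, hc0, hUw, hwi, hspan⟩ := S.basis U hUW
  obtain ⟨α, hα, hαB⟩ := S.root B hBW h hh
  obtain ⟨q, Ψ, hq, hΨ, hsp, H⟩ := H k r c a hc0 hspan
  choose w' hw' using fun j => hlift (w j) (hw j)
  obtain ⟨α', hα'⟩ := hlift α hα
  have hgw : (fun j => um g (w' j)) = w := funext hw'
  let y' : R' := ((α'⁻¹ : R'ˣ) : R') * pv (k := k) K x f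
  have hy' : g y' ∈ S.I := by
    simp only [y']
    rw [map_mul]
    refine mul_mem ?_ (hI f)
    have h1 : g ((α'⁻¹ : R'ˣ) : R') = ((α⁻¹ : Rˣ) : R) := by
      rw [← um_coe, ← hα']
      rfl
    rw [h1]
    exact S.mem_I _ (Subgroup.inv_mem _ hα)
  -- the product over the roots of unity
  let Z : Finset k := Polynomial.nthRootsFinset h (1 : k)
  have hZ : ∀ ζ, ζ ∈ Z ↔ ζ ^ h = 1 := fun ζ => Polynomial.mem_nthRootsFinset hh 1
  let E : R' := ∏ ζ ∈ Z, evp w' (ev w' q * (ζ • y')) Ψ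
  have hE : g E = 0 := by
    rw [hz]
    have e1 : ∀ᶠ t in 𝒢, ∀ i, e t (pv (k := k) K x (u i)) = c i *
        ((mo (fun j => um (e t) (w' j)) (a i) : kˣ) : k) := by
      refine (Filter.eventually_all).2 fun i => ?_
      have h1 : g (pv (k := k) K x (u i) - algebraMap k R' (c i) * (mo w' (a i) : R')) = 0 := by
        rw [map_sub, map_mul, ← hU i, hUw i, AlgHom.commutes, ← um_coe, mo_um, hgw, sub_self]
      filter_upwards [(hz _).1 h1] with t ht
      rw [map_sub, map_mul, AlgHom.commutes, ← um_coe, mo_um, sub_eq_zero] at ht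
      exact ht
    have e2 : ∀ᶠ t in 𝒢, e t (pv (k := k) K x A) = ((um (e t) α' : kˣ) : k) ^ h := by
      have h1 : g (pv (k := k) K x A - (α' : R') ^ h) = 0 := by
        rw [map_sub, map_pow, ← hB, ← um_coe, hα', ← hαB, Units.val_pow_eq_pow_val, sub_self]
      filter_upwards [(hz _).1 h1] with t ht
      rw [map_sub, map_pow, sub_eq_zero] at ht
      exact ht
    filter_upwards [hF, hG, e1, e2] with t t1 t2 t3 t4
    obtain ⟨β, hβ, hβ2⟩ := H (fun i => e t (x i)) (fun j => um (e t) (w' j))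
      ⟨t1, t2, fun i => by rw [← t3 i, pv_app, pv_self]⟩
    have h1 : MvPolynomial.aeval (fun i => e t (x i)) f = ((um (e t) α' : kˣ) : k) * e t y' := by
      rw [← pv_self, ← pv_app]
      simp only [y']
      rw [map_mul, ← mul_assoc, um_coe, ← map_mul, Units.mul_inv, map_one, one_mul]
    rw [h1, ← pv_self, ← pv_app, t4, mul_pow] at hβ
    have h2 : e t y' ^ h = β ^ h := mul_left_cancel₀ (pow_ne_zero _ (Units.ne_zero _)) hβ
    have h3 : ∃ ζ ∈ Z, β = ζ * e t y' := by
      by_cases h0 : e t y' = 0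
      · refine ⟨1, (hZ 1).2 (one_pow h), ?_⟩
        rw [h0, zero_pow hh.ne'] at h2
        rw [h0, mul_zero]
        exact (pow_eq_zero_iff hh.ne').1 h2.symm
      · refine ⟨β / e t y', (hZ _).2 ?_, ?_⟩
        · rw [div_pow, h2, div_self]
          rw [← h2]
          exact pow_ne_zero _ h0
        · rw [div_mul_cancel₀ _ h0]
    obtain ⟨ζ, hζ, hζβ⟩ := h3
    show e t E = 0
    simp only [E]
    rw [map_prod]
    refine Finset.prod_eq_zero hζ ?_
    rw [evp_um, map_mul, ev_um, map_smul, smul_eq_mul, ← hζβ]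
    exact hβ2
  simp only [E] at hE
  rw [map_prod, Finset.prod_eq_zero_iff] at hE
  obtain ⟨ζ, hζ, hE⟩ := hE
  rw [evp_um, map_mul, ev_um, map_smul, hgw] at hE
  have hζ0 : ζ ≠ 0 := by
    rintro rfl
    have h1 := (hZ 0).1 hζ
    rw [zero_pow hh.ne'] at h1
    exact zero_ne_one h1
  have hmem := S.main_y hw hwi Ψ hΨ hsp (ev w q * (ζ • g y'))
    (mul_mem (S.SW_le (S.ev_mem hw q)) (S.I.smul_mem hy' ζ)) hE
  rw [Sys.mem_KS]
  refine ⟨ev w q * (ζ • ((α⁻¹ : Rˣ) : R)), mul_mem (S.ev_mem hw q) (S.SW.smul_mem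
    (S.unit_mem _ (Subgroup.inv_mem _ hα)) ζ), _, hmem, ?_, ?_⟩
  · refine mul_ne_zero (fun h0 => hq (S.inj r w hw hwi q h0)) ?_
    rw [Algebra.smul_def]
    refine mul_ne_zero ?_ (Units.ne_zero _)
    intro h0
    have h1 : algebraMap k R (ζ⁻¹ * ζ) = 0 := by rw [map_mul, h0, mul_zero]
    rw [inv_mul_cancel₀ hζ0, map_one] at h1
    exact one_ne_zero h1
  · simp only [y']
    rw [map_mul]
    have h1 : g ((α'⁻¹ : R'ˣ) : R') = ((α⁻¹ : Rˣ) : R) := by
      rw [← um_coe, ← hα']
      rfl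
    rw [h1, Algebra.smul_def, Algebra.smul_def]
    ring

end coord

end Pool.Agent.H21bl.TC
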