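import Mathlib
import Pool.Agent.H21bl.TC.Spl
import Pool.Agent.H21bl.TC.Cur
import Pool.Agent.H21bl.TC.ArR

/-!
The arithmetic half.
-/

set_option autoImplicit false
set_option linter.unusedSectionVars false

open Finset Filter

namespace Pool.Agent.H21bl.TC

open NumberField IsDedekindDomain
open Pool.Agent.N754.LT Pool.Agent.Y742.SF Pool.Agent.Y742.AR Pool.Agent.H21bl.CC
open Pool.Agent.H159R3.Exp (Laur FinitelyManyIntegral intPoints)
open Pool.Agent.W235.RM (EntireCurvesIn GmCurvesIn not_gm_of_hasLaurent)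
open scoped NumberField

variable {𝒰 : Ultrafilter ℕ}

/-- germs of integral points, with a group of units closed under roots -/
noncomputable def sysB (𝒲 : Subgroup (GB 𝒰)ˣ) (h𝒲 : 𝒲 ≤ WB 𝒰)
    (hroot : ∀ u ∈ 𝒲, ∀ v ∈ WB 𝒰, ∀ m : ℕ, 0 < m → v ^ m = u → v ∈ 𝒲) : Sys Qb (GB 𝒰) where
  W := 𝒲
  I := AI 𝒰
  mem_I := fun u hu => (h𝒲 hu).1
  root := fun u hu m hm => by
    obtain ⟨v, hv, hvm⟩ := rootB u (h𝒲 hu) m hm
    exact ⟨v, hroot u hu v hv m hm hvm, hvm⟩
  inj := fun _ s hs hsi p hp => evB_inj s (fun j => h𝒲 (hs j)) hsi p hp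
  key := fun _ hr s hs hsi Φ _ FDΦ hΦ he0 y hyI hy =>
    not_hindB hr s (fun j => h𝒲 (hs j)) hsi Φ FDΦ hΦ he0 y hyI hy
  keyR := fun _ hr s hs hsi Φ _ FDΦ hΦ he2 y hyI hy =>
    not_hindBR hr s (fun j => h𝒲 (hs j)) hsi Φ FDΦ hΦ he2 y hyI hy

/-- the germ of a sequence of algebraic numbers -/
noncomputable def gq (𝒰 : Ultrafilter ℕ) : (ℕ → Qb) →ₐ[Qb] GB 𝒰 where
  toRingHom := (gb 𝒰).comp (Pi.ringHom fun t => (algebraMap Qb ℂ).comp (Pi.evalRingHom _ t))
  commutes' _ := rfl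

theorem gq_apply (f : ℕ → Qb) : gq 𝒰 f = gb 𝒰 fun t => (f t : ℂ) := rfl

/-- values of sequences -/
noncomputable def eq (t : ℕ) : (ℕ → Qb) →ₐ[Qb] Qb := Pi.evalAlgHom Qb (fun _ : ℕ => Qb) t

theorem eq_apply (t : ℕ) (f : ℕ → Qb) : eq t f = f t := rfl

theorem gq_zero (f : ℕ → Qb) : gq 𝒰 f = 0 ↔ ∀ᶠ t in (𝒰 : Filter ℕ), eq t f = 0 := by
  rw [gq_apply, ← map_zero (gb 𝒰), gb_eq]
  constructor
  · intro h
    filter_upwards [h] with t ht
    exact Subtype.ext ht
  · intro h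
    filter_upwards [h] with t ht
    exact congrArg Subtype.val ht

theorem gq_lift (u : (GB 𝒰)ˣ) (hu : u ∈ WB 𝒰) : ∃ u' : (ℕ → Qb)ˣ, um (gq 𝒰) u' = u := by
  classical
  obtain ⟨M, _, _, τ, S, hS, f, hf, hx⟩ := hu.1
  let f' : ℕ → Qb := fun t => toQ τ (f t)
  have hf' : gq 𝒰 f' = u := by
    rw [gq_apply, hx]
    rfl
  have hne : ∀ᶠ t in (𝒰 : Filter ℕ), f' t ≠ 0 := by
    by_contra hcon
    rw [Ultrafilter.eventually_not, not_not] at hcon
    have h1 : gq 𝒰 f' = 0 := (gq_zero f').2 hcon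
    rw [hf'] at h1
    exact Units.ne_zero u h1
  let u' : (ℕ → Qb)ˣ :=
    { val := fun t => if f' t = 0 then 1 else f' t
      inv := fun t => if f' t = 0 then 1 else (f' t)⁻¹
      val_inv := by
        funext t
        show (if f' t = 0 then 1 else f' t) * (if f' t = 0 then 1 else (f' t)⁻¹) = 1
        split_ifs with h
        · exact one_mul 1
        · exact mul_inv_cancel₀ h
      inv_val := by
        funext t
        show (if f' t = 0 then 1 else (f' t)⁻¹) * (if f' t = 0 then 1 else f' t) = 1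
        split_ifs with h
        · exact one_mul 1
        · exact inv_mul_cancel₀ h }
  refine ⟨u', Units.ext ?_⟩
  rw [um_coe, ← hf', gq_apply, gq_apply, gb_eq]
  filter_upwards [hne] with t ht
  show (((if f' t = 0 then 1 else f' t) : Qb) : ℂ) = (f' t : ℂ)
  rw [if_neg ht]

variable {K : Type} [Field K] {n : ℕ} {ι κ : Type}

/-- units which are roots of functions -/
def rw𝒲 (𝒰 : Ultrafilter ℕ) (P : Set (MvPolynomial (Fin n) K)) (gP : MvPolynomial (Fin n) K →+* GB 𝒰)
    (h1 : (1 : MvPolynomial (Fin n) K) ∈ P) (hm : ∀ f ∈ P, ∀ g ∈ P, f * g ∈ P)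
    (hi : ∀ f ∈ P, ∃ g ∈ P, gP g * gP f = 1) : Subgroup (GB 𝒰)ˣ where
  carrier := {w | w ∈ WB 𝒰 ∧ ∃ m : ℕ, 0 < m ∧ ∃ (c : Qb) (f : MvPolynomial (Fin n) K), f ∈ P ∧
    (w : GB 𝒰) ^ m = algebraMap Qb (GB 𝒰) c * gP f}
  mul_mem' := by
    rintro a b ⟨ha, m, hm0, c, f, hf, h⟩ ⟨ha', m', hm0', c', f', hf', h'⟩
    have hpow : ∀ f ∈ P, ∀ k : ℕ, f ^ k ∈ P := by
      intro f hf k
      induction k with
      | zero => rw [pow_zero]; exact h1
      | succ k ih => rw [pow_succ]; exact hm _ ih _ hf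
    refine ⟨mul_mem ha ha', m * m', Nat.mul_pos hm0 hm0', c ^ m' * c' ^ m, f ^ m' * f' ^ m,
      hm _ (hpow _ hf _) _ (hpow _ hf' _), ?_⟩
    rw [Units.val_mul, mul_pow, pow_mul, h, mul_comm m m', pow_mul, h', map_mul, map_mul, map_pow,
      map_pow, map_pow, map_pow, mul_pow, mul_pow]
    ring
  one_mem' := ⟨one_mem _, 1, one_pos, 1, 1, h1, by simp⟩
  inv_mem' := by
    rintro a ⟨ha, m, hm0, c, f, hf, h⟩
    obtain ⟨g, hg, hgf⟩ := hi f hf
    refine ⟨inv_mem ha, m, hm0, c⁻¹, g, hg, ?_⟩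
    have hgi : gP g = (gP f)⁻¹ := eq_inv_of_mul_eq_one_left hgf
    rw [Units.val_inv_eq_inv_val, inv_pow, h, mul_inv, map_inv₀, hgi]

/-- the arithmetic half -/
theorem integral_of_gmT [NumberField K] [Finite ι] (σ : K →+* ℂ)
    (F : ι → MvPolynomial (Fin n) (𝓞 K)) (G : κ → MvPolynomial (Fin n) (𝓞 K))
    (hroot : ∀ i, (MvPolynomial.X i : MvPolynomial (Fin n) K) ∈
      Algebra.adjoin K {f | SplitOver σ F G f})
    (h : GmCurvesIn σ F G) : FinitelyManyIntegral F G := by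
  classical
  intro L _ _ _ S hS
  by_contra hinf
  let x : ℕ → Fin n → L := fun t => (Set.Infinite.natEmbedding _ hinf t : Fin n → L)
  have hx : ∀ t, x t ∈ intPoints F L S \ intPoints G L S := fun t =>
    (Set.Infinite.natEmbedding _ hinf t).2
  have hxinj : Function.Injective x := fun s t hst =>
    (Set.Infinite.natEmbedding _ hinf).injective (Subtype.ext hst)
  -- the embedding
  let : Algebra K ℂ := σ.toAlgebra
  have halg : Algebra.IsAlgebraic K L := by
    have := NumberField.to_finiteDimensional (K := L)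
    have : IsScalarTower ℚ K L := by infer_instance
    have : FiniteDimensional K L := FiniteDimensional.right ℚ K L
    infer_instance
  let τ : L →ₐ[K] ℂ := IsAlgClosed.lift
  have hτi : Function.Injective τ := (τ : L →+* ℂ).injective
  have hτσ : (τ : L →+* ℂ).comp (algebraMap K L) = σ := RingHom.ext fun c => τ.commutes c
  set φ : 𝓞 K →+* ℂ := σ.comp (algebraMap (𝓞 K) K) with hφ
  have hτφ : (τ : L →+* ℂ).comp ((algebraMap K L).comp (algebraMap (𝓞 K) K)) = φ := by
    rw [← RingHom.comp_assoc, hτσ]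
  let X : ℕ → Fin n → ℂ := fun t i => τ (x t i)
  have hevL : ∀ t (P : MvPolynomial (Fin n) (𝓞 K)), MvPolynomial.eval₂ φ (X t) P =
      τ (MvPolynomial.eval₂ ((algebraMap K L).comp (algebraMap (𝓞 K) K)) (x t) P) := by
    intro t P
    have h1 := MvPolynomial.hom_eval₂ P ((algebraMap K L).comp (algebraMap (𝓞 K) K))
      (τ : L →+* ℂ) (x t)
    rw [hτφ] at h1
    exact h1.symm
  have hXF : ∀ t l, MvPolynomial.eval₂ φ (X t) (F l) = 0 := fun t l => by
    rw [hevL, (hx t).1.2 l, map_zero]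
  have hXG : ∀ t, ∃ l, MvPolynomial.eval₂ φ (X t) (G l) ≠ 0 := by
    intro t
    by_contra hcon
    push Not at hcon
    apply (hx t).2
    refine ⟨(hx t).1.1, fun l => ?_⟩
    have h1 := hcon l
    rw [hevL] at h1
    exact (map_eq_zero_iff τ hτi).1 h1
  -- germs
  obtain ⟨𝒰, h𝒰⟩ : ∃ 𝒰 : Ultrafilter ℕ, 𝒰 = Filter.hyperfilter ℕ := ⟨_, rfl⟩
  let : Algebra K Qb := (toQ σ).toAlgebra
  let xq : Fin n → ℕ → Qb := fun i t => toQ (τ : L →+* ℂ) (x t i)
  have hxq : ∀ i t, ((xq i t : Qb) : ℂ) = X t i := fun i t => rfl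
  let gP : MvPolynomial (Fin n) K →+* GB 𝒰 := (gq 𝒰 : (ℕ → Qb) →+* GB 𝒰).comp (pv (k := Qb) K xq)
  have hgPv : ∀ P, gP P = gq 𝒰 (pv (k := Qb) K xq P) := fun P => rfl
  have hpvt : ∀ (P : MvPolynomial (Fin n) K) t, ((pv (k := Qb) K xq P t : Qb) : ℂ) =
      MvPolynomial.eval₂ σ (X t) P := by
    intro P t
    have h1 : pv (k := Qb) K xq P t = pv (k := Qb) K (fun i => xq i t) P := pv_app (eq t) xq P
    rw [h1]
    have h2 := MvPolynomial.hom_eval₂ P (algebraMap K Qb) (algebraMap Qb ℂ) (fun i => xq i t)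
    exact h2
  have hgP : ∀ P, gP P = gb 𝒰 fun t => MvPolynomial.eval₂ σ (X t) P := by
    intro P
    rw [hgPv, gq_apply]
    congr 1
    funext t
    exact hpvt P t
  have hgC : ∀ c, gP (MvPolynomial.C c) = algebraMap Qb (GB 𝒰) (toQ σ c) := by
    intro c
    rw [hgP]
    simp only [MvPolynomial.eval₂_C]
    rfl
  have hgX : ∀ i, gP (MvPolynomial.X i) = gb 𝒰 fun t => X t i := by
    intro i
    rw [hgP]
    simp only [MvPolynomial.eval₂_X]
  have hXA : ∀ i, gP (MvPolynomial.X i) ∈ AI 𝒰 := fun i => by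
    rw [hgX]
    exact ⟨L, inferInstance, inferInstance, (τ : L →+* ℂ), S, hS, fun t => x t i,
      fun t => (hx t).1.1 i, rfl⟩
  have hPA : ∀ P, gP P ∈ AI 𝒰 := by
    intro P
    induction P using MvPolynomial.induction_on with
    | C a =>
      rw [hgC]
      exact (AI 𝒰).algebraMap_mem _
    | add p q hp hq =>
      rw [map_add]
      exact add_mem hp hq
    | mul_X p i hp =>
      rw [map_mul]
      exact mul_mem hp (hXA i)
  have hXFK : ∀ t l, MvPolynomial.eval₂ σ (X t) (MvPolynomial.map (algebraMap (𝓞 K) K) (F l)) = 0 :=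
    fun t l => by rw [MvPolynomial.eval₂_map]; exact hXF t l
  have hker : ∀ P ∈ Ideal.span (Set.range fun l => MvPolynomial.map (algebraMap (𝓞 K) K) (F l)),
      gP P = 0 := by
    have h1 : Ideal.span (Set.range fun l => MvPolynomial.map (algebraMap (𝓞 K) K) (F l)) ≤
        RingHom.ker gP := by
      rw [Ideal.span_le]
      rintro _ ⟨l, rfl⟩
      show gP _ = 0
      rw [hgP, ← map_zero (gb 𝒰)]
      congr 1
      funext t
      exact hXFK t l
    exact fun P hP => h1 hP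
  have hcert : ∀ f, UnitOn σ F f → ∃ B, UnitOn σ F B ∧ gP B * gP f = 1 := by
    intro f hf
    obtain ⟨B, hB⟩ := unit_cert' σ (fun l => MvPolynomial.map (algebraMap (𝓞 K) K) (F l)) f (by
      intro z hz
      refine hf z fun l => ?_
      have h1 := hz l
      rw [MvPolynomial.eval₂_map] at h1
      exact h1)
    refine ⟨B, fun z hz h0 => ?_, ?_⟩
    · have h1 : Ideal.span (Set.range fun l => MvPolynomial.map (algebraMap (𝓞 K) K) (F l)) ≤
          RingHom.ker (MvPolynomial.eval₂Hom σ z) := by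
        rw [Ideal.span_le]
        rintro _ ⟨l, rfl⟩
        show MvPolynomial.eval₂ σ z (MvPolynomial.map (algebraMap (𝓞 K) K) (F l)) = 0
        rw [MvPolynomial.eval₂_map]
        exact hz l
      have h2 : MvPolynomial.eval₂ σ z (B * f - 1) = 0 := h1 hB
      rw [MvPolynomial.eval₂_sub, MvPolynomial.eval₂_mul, h0, zero_mul, MvPolynomial.eval₂_one,
        zero_sub] at h2
      exact one_ne_zero (neg_eq_zero.1 h2)
    · have h2 := hker _ hB
      rw [map_sub, map_mul, map_one, sub_eq_zero] at h2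
      exact h2
  -- the group of units
  let 𝒲 : Subgroup (GB 𝒰)ˣ := rw𝒲 𝒰 {f | UnitOn σ F f} gP (fun z _ => by
    rw [MvPolynomial.eval₂_one]
    exact one_ne_zero) (fun f hf g hg z hz => by
    rw [MvPolynomial.eval₂_mul]
    exact mul_ne_zero (hf z hz) (hg z hz)) hcert
  have hmem𝒲 : ∀ w, w ∈ 𝒲 ↔ w ∈ WB 𝒰 ∧ ∃ m : ℕ, 0 < m ∧ ∃ (c : Qb)
      (f : MvPolynomial (Fin n) K), UnitOn σ F f ∧
        (w : GB 𝒰) ^ m = algebraMap Qb (GB 𝒰) c * gP f := fun w => Iff.rfl
  let SS : Sys Qb (GB 𝒰) := sysB 𝒲 (fun w hw => ((hmem𝒲 w).1 hw).1) (by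
    intro u hu v hv m hm hvm
    obtain ⟨-, m', hm', c, f, hf, h⟩ := (hmem𝒲 u).1 hu
    refine (hmem𝒲 v).2 ⟨hv, m * m', Nat.mul_pos hm hm', c, f, hf, ?_⟩
    rw [pow_mul, ← h, ← hvm, Units.val_pow_eq_pow_val])
  have hunit : ∀ f, UnitOn σ F f → ∃ u ∈ SS.W, (u : GB 𝒰) = gP f := by
    intro f hf
    obtain ⟨B, -, hB⟩ := hcert f hf
    refine ⟨⟨gP f, gP B, by rw [mul_comm]; exact hB, hB⟩, (hmem𝒲 _).2 ⟨⟨hPA f, hPA B⟩, 1, one_pos,
      1, f, hf, ?_⟩, rfl⟩
    rw [map_one, one_mul, pow_one]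
  have hKS : ∀ P ∈ Algebra.adjoin K {f | SplitOver σ F G f}, gP P ∈ SS.KS := by
    intro P hP
    induction hP using Algebra.adjoin_induction with
    | mem P hP =>
      have hval : ∀ (P : MvPolynomial (Fin n) (𝓞 K)) t,
          ((MvPolynomial.eval₂ ((algebraMap K Qb).comp (algebraMap (𝓞 K) K))
            (fun i => eq t (xq i)) P : Qb) : ℂ) = MvPolynomial.eval₂ φ (X t) P := by
        intro P t
        exact MvPolynomial.hom_eval₂ P ((algebraMap K Qb).comp (algebraMap (𝓞 K) K))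
          (algebraMap Qb ℂ) (fun i => eq t (xq i))
      refine coord σ F G SS (𝒰 : Filter ℕ) (gq 𝒰) eq gq_zero
        (fun u hu => gq_lift u ((hmem𝒲 u).1 hu).1) xq ?_ ?_ hunit hPA P hP
      · refine Eventually.of_forall fun t l => Subtype.ext ?_
        have h1 := hval (F l) t
        rw [hXF] at h1
        exact h1
      · refine Eventually.of_forall fun t => ?_
        obtain ⟨l, hl⟩ := hXG t
        refine ⟨l, fun h0 => hl ?_⟩
        rw [← hval, h0]
        rfl
    | algebraMap c =>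
      have h1 : algebraMap K (MvPolynomial (Fin n) K) c = MvPolynomial.C c := rfl
      rw [h1, hgC]
      exact SS.KS.algebraMap_mem _
    | add P Q _ _ hP hQ =>
      rw [map_add]
      exact add_mem hP hQ
    | mul P Q _ _ hP hQ =>
      rw [map_mul]
      exact mul_mem hP hQ
  choose ya hya yb hyb hya0 hyab using fun i => (SS.mem_KS _).1 (hKS _ (hroot i))
  obtain ⟨r, w, Q, hw, hwi, hQ⟩ := SS.sw_rep (ι := Fin n ⊕ Fin n) (Sum.elim ya yb) (by
    rintro (i | i)
    · exact hya i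
    · exact hyb i)
  have hQa : ∀ i, ya i = ev w (Q (Sum.inl i)) := fun i => hQ (Sum.inl i)
  have hQb : ∀ i, yb i = ev w (Q (Sum.inr i)) := fun i => hQ (Sum.inr i)
  have hw' : ∀ j, w j ∈ WB 𝒰 := fun j => ((hmem𝒲 _).1 (hw j)).1
  choose m hm c f hf hwm using fun j => ((hmem𝒲 _).1 (hw j)).2
  -- descent to a number field
  let bK := Module.finBasis ℚ K
  let Cs : Finset ℂ := ((Finset.univ.biUnion fun i => (Q i).coeff.support.image fun b =>
    ((Q i).coeff b : ℂ)) ∪ Finset.univ.image fun j => (c j : ℂ)) ∪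
      Finset.univ.image fun j => σ (bK j)
  obtain ⟨M, _, _, _, τM, D, z, h1, h2, h3⟩ := common (ι := Fin r ⊕ Fin r ⊕ Fin n)
    (Sum.elim (fun j => (w j : GB 𝒰)) (Sum.elim (fun j => ((w j)⁻¹ : (GB 𝒰)ˣ))
      fun i => gP (MvPolynomial.X i))) (by
      rintro (j | j | j)
      · exact (hw' j).1
      · exact (hw' j).2
      · exact hXA j) Cs (by
      intro a ha
      rcases Finset.mem_union.1 ha with ha | ha
      · rcases Finset.mem_union.1 ha with ha | ha
        · obtain ⟨i, -, ha⟩ := Finset.mem_biUnion.1 ha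
          obtain ⟨b, -, rfl⟩ := Finset.mem_image.1 ha
          exact isAlg _
        · obtain ⟨j, -, rfl⟩ := Finset.mem_image.1 ha
          exact isAlg _
      · obtain ⟨j, -, rfl⟩ := Finset.mem_image.1 ha
        exact ((Algebra.IsIntegral.isIntegral (R := ℚ) (bK j)).map
          (σ.toRatAlgHom : K →ₐ[ℚ] ℂ)).isAlgebraic)
  -- the embedding of `K`
  have hψ : ∀ a : K, ∃ a' : M, τM a' = σ a := by
    intro a
    have h4 : ∀ j, ∃ a' : M, τM a' = σ (bK j) := fun j => h3 _ (Finset.mem_union_right _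
      (Finset.mem_image.2 ⟨j, Finset.mem_univ _, rfl⟩))
    choose b' hb' using h4
    refine ⟨∑ j, (bK.repr a j : ℚ) • b' j, ?_⟩
    have h5 : ∀ (q : ℚ) (y : M), τM (q • y) = q • τM y := fun q y => map_rat_smul τM q y
    have h6 : ∀ (q : ℚ) (y : K), σ (q • y) = q • σ y := fun q y => map_rat_smul σ q y
    conv_rhs => rw [← bK.sum_repr a]
    rw [map_sum, map_sum]
    refine Finset.sum_congr rfl fun j _ => ?_
    rw [h5, h6, hb']
  have hτMi : Function.Injective τM := τM.injective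
  choose ψ0 hψ0 using hψ
  let ψ : K →+* M :=
    { toFun := ψ0
      map_one' := hτMi (by rw [hψ0, map_one, map_one])
      map_mul' := fun a b => hτMi (by rw [hψ0, map_mul, map_mul, hψ0, hψ0])
      map_zero' := hτMi (by rw [hψ0, map_zero, map_zero])
      map_add' := fun a b => hτMi (by rw [hψ0, map_add, map_add, hψ0, hψ0]) }
  have hψσ : τM.comp ψ = σ := RingHom.ext hψ0
  -- the units
  have hmul : ∀ j, z (Sum.inl j) * z (Sum.inr (Sum.inl j)) = 1 := by
    intro j
    apply thB_inj τM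
    rw [map_mul, h2, h2, map_one]
    exact Units.mul_inv (w j)
  let wM : Fin r → (BA M 𝒰)ˣ := fun j =>
    ⟨z (Sum.inl j), z (Sum.inr (Sum.inl j)), hmul j, by rw [mul_comm]; exact hmul j⟩
  have hws : ∀ j, thB 𝒰 τM (wM j : BA M 𝒰) = w j := fun j => h2 (Sum.inl j)
  let xM : Fin n → BA M 𝒰 := fun i => z (Sum.inr (Sum.inr i))
  have hxs : ∀ i, thB 𝒰 τM (xM i) = gP (MvPolynomial.X i) := fun i => h2 (Sum.inr (Sum.inr i))
  have hΘc : ∀ c, thB 𝒰 τM (algebraMap M (BA M 𝒰) c) = algebraMap Qb (GB 𝒰) (toQ τM c) :=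
    fun c => thB_const τM c
  have hlft : ∀ i, ∃ Q' : La M r, mapL (toQ τM) Q' = Q i := by
    intro i
    refine exists_lift (toQ τM) (Q i) fun b hb => ?_
    obtain ⟨c', hc'⟩ := h3 ((Q i).coeff b : ℂ) (Finset.mem_union_left _ (Finset.mem_union_left _
      (Finset.mem_biUnion.2 ⟨i, Finset.mem_univ _, Finset.mem_image.2 ⟨b, hb, rfl⟩⟩)))
    exact ⟨c', Subtype.ext hc'⟩
  choose Q' hQ' using hlft
  have hevM : ∀ p : La M r, thB 𝒰 τM (ev wM p) = ev w (mapL (toQ τM) p) := fun p =>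
    ev_mapL (toQ τM) (thB 𝒰 τM) hΘc wM w hws p
  have hc' : ∀ j, ∃ c' : M, toQ τM c' = c j := by
    intro j
    obtain ⟨c', hc'⟩ := h3 (c j : ℂ) (Finset.mem_union_left _ (Finset.mem_union_right _
      (Finset.mem_image.2 ⟨j, Finset.mem_univ _, rfl⟩)))
    exact ⟨c', Subtype.ext hc'⟩
  choose c' hc' using hc'
  have haev : ∀ P : MvPolynomial (Fin n) K,
      thB 𝒰 τM (MvPolynomial.aeval xM (MvPolynomial.map ψ P)) = gP P := by
    intro P
    induction P using MvPolynomial.induction_on with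
    | C a =>
      rw [MvPolynomial.map_C, MvPolynomial.aeval_C, hΘc, hgC]
      congr 1
      apply Subtype.ext
      exact hψ0 a
    | add p q hp hq => rw [map_add, map_add, map_add, hp, hq, map_add]
    | mul_X p i hp =>
      rw [map_mul, map_mul, map_mul, hp, MvPolynomial.map_X, MvPolynomial.aeval_X, hxs, map_mul]
  have hcur := curveM D τM (fun l => MvPolynomial.map (ψ.comp (algebraMap (𝓞 K) K)) (F l)) wM
    (fun j => ⟨h1 _, h1 _⟩) xM (fun i => h1 _) (by
      intro l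
      apply thB_inj τM
      rw [map_zero, ← MvPolynomial.map_map, haev]
      exact hker _ (Ideal.subset_span ⟨l, rfl⟩)) (fun i => Q' (Sum.inl i))
    (fun i => Q' (Sum.inr i)) (by
      intro i h0
      apply hya0 i
      rw [hQa, ← hQ', ← hevM, h0, map_zero]) (by
      intro i
      apply thB_inj τM
      rw [map_mul, hevM, hevM, hQ', hQ', hxs, ← hQa, ← hQb]
      exact hyab i) m hm c' (fun j => MvPolynomial.map ψ (f j)) (by
      intro j
      apply thB_inj τM
      rw [map_pow, hws, map_mul, hΘc, haev, hc', hwm]) (by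
      by_contra hcon
      push Not at hcon
      choose d hd using hcon
      have h4 : ∀ᶠ t in (𝒰 : Filter ℕ), ∀ i, X t i = τM (d i) := by
        refine (Filter.eventually_all).2 fun i => ?_
        have h5 := hxs i
        rw [hd i, hgX, thB_const, gb_eq] at h5
        filter_upwards [h5] with t ht
        exact ht.symm
      have h5 : Set.Infinite {t | ∀ i, X t i = τM (d i)} := by
        intro hfin
        exact (Filter.notMem_hyperfilter_of_finite hfin) (h𝒰 ▸ h4)
      obtain ⟨s, hs, t, ht, hst⟩ := h5.nontrivial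
      refine hst (hxinj (funext fun i => hτi ?_))
      have h6 : X s i = τM (d i) := hs i
      have h7 : X t i = τM (d i) := ht i
      exact h6.trans h7.symm)
  have hrep : ∀ᶠ t in (𝒰 : Filter ℕ), ∀ i, τM (rep (K := M) (𝒰 := 𝒰) (xM i) t) = X t i := by
    refine (Filter.eventually_all).2 fun i => ?_
    have h5 := hxs i
    rw [thB_apply, hgX, gb_eq] at h5
    exact h5
  obtain ⟨t, ⟨v, g1, g2, g3, g4⟩, g5⟩ :=
    (@Filter.Eventually.exists ℕ _ (𝒰 : Filter ℕ) 𝒰.neBot (hcur.and hrep))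
  obtain ⟨l, hl⟩ := hXG t
  let : Algebra K M := ψ.toAlgebra
  refine not_gm_of_hasLaurent σ F G ⟨M, inferInstance, inferInstance, inferInstance, v, g1, ?_,
    ⟨l, ?_⟩, g4⟩ h
  · intro i s hs
    have h5 := g2 i s hs
    rw [MvPolynomial.eval_map] at h5
    exact h5
  · intro h0
    apply hl
    have h5 := MvPolynomial.hom_eval₂ (G l) ((algebraMap K M).comp (algebraMap (𝓞 K) K)) τM (v 1)
    rw [h0, map_zero, g3] at h5
    have h6 : τM.comp ((algebraMap K M).comp (algebraMap (𝓞 K) K)) = φ := by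
      rw [← RingHom.comp_assoc]
      have h7 : τM.comp (algebraMap K M) = σ := hψσ
      rw [h7]
    rw [h6] at h5
    have h7 : (X t) = fun i => τM (rep (K := M) (𝒰 := 𝒰) (xM i) t) := funext fun i => (g5 i).symm
    rw [h7]
    exact h5.symm

end Pool.Agent.H21bl.TC
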