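import Mathlib
import Pool.Agent.H21bl.TC.Spl
import Pool.Agent.H21bl.TC.AnR

/-!
The analytic half.
-/

set_option autoImplicit false
set_option linter.unusedSectionVars false

open Finset Filter Topology

namespace Pool.Agent.H21bl.TC

open Pool.Agent.N754.LT Pool.Agent.H21bl Pool.Agent.H21bl.CC
open Pool.Agent.H159R3.NV (Ent ev_ne)
open Pool.Agent.W235.RM (EntireCurvesIn GmCurvesIn)
open Pool.Agent.H21bl.RE (RadFun RadCurvesIn RadType rad_of_gm ent_zeros)
open NumberField
open scoped NumberField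

theorem evE_inj {r : ℕ} (s : Fin r → Entˣ) (hsne : Ind ℂ s) (p : La ℂ r) (hp : ev s p = 0) :
    p = 0 := by
  classical
  let T := p.coeff.support
  let E := T.equivFin
  have h1 := unitE T.card (fun i => mo s (E.symm i).1) (by
    intro i j hij c hc
    have h2 : (E.symm i).1 - (E.symm j).1 ≠ 0 := by
      intro h0
      apply hij
      apply E.symm.injective
      exact Subtype.ext (sub_eq_zero.1 h0)
    apply hsne _ h2 c
    rw [mo_sub, Units.val_mul]
    rw [hc, mul_assoc, Units.mul_inv, mul_one]) (fun i => p.coeff (E.symm i).1) (by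
    rw [← hp, ev_apply]
    rw [← Finset.sum_coe_sort p.coeff.support (fun b => p.coeff b • (mo s b : Ent))]
    rw [← E.symm.sum_comp (fun b : T => p.coeff b.1 • (mo s b.1 : Ent))]
    refine Finset.sum_congr rfl fun i _ => ?_
    rw [Algebra.smul_def])
  refine La_ext fun b => ?_
  by_contra hb
  have hb' : b ∈ T := Finsupp.mem_support_iff.2 hb
  have h2 := congrFun h1 (E ⟨b, hb'⟩)
  simp only [Equiv.symm_apply_apply, Pi.zero_apply] at h2
  exact hb h2

theorem rootE (u : Entˣ) (m : ℕ) (hm : 0 < m) : ∃ v : Entˣ, v ^ m = u := by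
  obtain ⟨g, hg, hgf⟩ := entire_log (u : Ent).2 (unit_ne u)
  have hd : Differentiable ℂ fun z => Complex.exp (g z / m) := (hg.div_const _).cexp
  refine ⟨mkU ⟨fun z => Complex.exp (g z / m), hd⟩ fun z => Complex.exp_ne_zero _, ?_⟩
  apply Units.ext
  apply Subtype.ext
  funext z
  rw [Units.val_pow_eq_pow_val, mkU_val]
  show Complex.exp (g z / m) ^ m = _
  rw [hgf, ← Complex.exp_nat_mul]
  congr 1
  have hm0 : (m : ℂ) ≠ 0 := by exact_mod_cast hm.ne'
  field_simp

/-- entire functions -/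
noncomputable def sysE : Sys ℂ Ent where
  W := ⊤
  I := ⊤
  mem_I := fun _ _ => Algebra.mem_top
  root := fun u _ m hm => by
    obtain ⟨v, hv⟩ := rootE u m hm
    exact ⟨v, Subgroup.mem_top _, hv⟩
  inj := fun _ s _ hs p hp => evE_inj s hs p hp
  key := fun _ hr s _ hs Φ _ FDΦ hΦ he0 y _ hy => not_hindE hr s hs Φ FDΦ hΦ he0 y hy
  keyR := fun _ hr s _ hs Φ _ FDΦ hΦ he2 y _ hy => not_hindER hr s hs Φ FDΦ hΦ he2 y hy

/-- the value at a point -/
noncomputable def evz (z : ℂ) : Ent →ₐ[ℂ] ℂ := (Pi.evalAlgHom ℂ (fun _ : ℂ => ℂ) z).comp Ent.val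

theorem evz_apply (z : ℂ) (f : Ent) : evz z f = (f : ℂ → ℂ) z := rfl

theorem ent_zero_iff (z0 : ℂ) (x : Ent) : x = 0 ↔ ∀ᶠ t in 𝓝[≠] z0, evz t x = 0 := by
  constructor
  · rintro rfl
    exact Eventually.of_forall fun t => rfl
  · intro h
    by_contra hx
    have h1 : (x : ℂ → ℂ) ≠ 0 := fun h => hx (Subtype.ext h)
    obtain ⟨w, hw⟩ := Function.ne_iff.1 h1
    obtain ⟨t, h2, h3⟩ := (h.and (ev_ne x.2 hw z0)).exists
    exact h3 h2

theorem rad_unit (u : Entˣ) : RadFun ((u : Ent) : ℂ → ℂ) := by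
  obtain ⟨g, hg, hgf⟩ := entire_log (u : Ent).2 (unit_ne u)
  have h1 : ((u : Ent) : ℂ → ℂ) = fun z => Complex.exp (g z) := funext hgf
  rw [h1]
  exact RadFun.exp hg

theorem rad_SW {y : Ent} (hy : y ∈ sysE.SW) : RadFun (y : ℂ → ℂ) := by
  unfold Sys.SW at hy
  induction hy using Algebra.adjoin_induction with
  | mem y hy =>
    obtain ⟨u, -, rfl⟩ := hy
    exact rad_unit u
  | algebraMap c => exact RadFun.const c
  | add x y _ _ hx hy => exact RadFun.add hx hy
  | mul x y _ _ hx hy => exact RadFun.mul hx hy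

theorem rad_KS {y : Ent} (hy : y ∈ sysE.KS) : RadFun (y : ℂ → ℂ) := by
  obtain ⟨a, ha, b, hb, ha0, h⟩ := (sysE.mem_KS y).1 hy
  refine RadFun.root one_pos (RadFun.div (rad_SW hb) (rad_SW ha))
    (fun z => (y.2.analyticAt z).meromorphicAt) ((ent_zeros ha0).mono fun z hz => ?_)
  show (a : ℂ → ℂ) z = 0
  by_contra hne
  apply hz
  show (y : ℂ → ℂ) z ^ 1 = (b : ℂ → ℂ) z / (a : ℂ → ℂ) z
  rw [pow_one, eq_div_iff hne, ← h]
  show (y : ℂ → ℂ) z * (a : ℂ → ℂ) z = (a : ℂ → ℂ) z * (y : ℂ → ℂ) z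
  ring

variable {K : Type} [Field K] {n : ℕ} {ι κ : Type}

/-- the analytic half -/
theorem entire_of_gmT (σ : K →+* ℂ)
    (F : ι → MvPolynomial (Fin n) (𝓞 K)) (G : κ → MvPolynomial (Fin n) (𝓞 K))
    (hroot : ∀ i, (MvPolynomial.X i : MvPolynomial (Fin n) K) ∈
      Algebra.adjoin K {f | SplitOver σ F G f})
    (h : GmCurvesIn σ F G) : EntireCurvesIn σ F G := by
  classical
  have hrad := rad_of_gm σ F G h
  intro f hf hF hnc z0 l0
  by_contra hcon
  let : Algebra K ℂ := σ.toAlgebra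
  have hfj : ∀ j, Differentiable ℂ (fun z => f z j) := fun j => by
    rw [differentiable_pi] at hf
    exact hf j
  let x : Fin n → Ent := fun j => ⟨fun z => f z j, hfj j⟩
  have hev : ∀ (z : ℂ) (P : MvPolynomial (Fin n) K), evz z (pv (k := ℂ) K x P) =
      MvPolynomial.eval₂ σ (f z) P := by
    intro z P
    rw [pv_app, pv_self]
    rfl
  have hG : ∀ᶠ t in 𝓝[≠] z0, MvPolynomial.eval₂ (σ.comp (algebraMap (𝓞 K) K)) (f t) (G l0) ≠ 0 := by
    have h1 : Differentiable ℂ fun t => MvPolynomial.eval₂ (σ.comp (algebraMap (𝓞 K) K)) (f t)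
        (G l0) := by
      have h2 : (fun t => MvPolynomial.eval₂ (σ.comp (algebraMap (𝓞 K) K)) (f t) (G l0)) =
          fun t => MvPolynomial.eval (f t) (MvPolynomial.map (σ.comp (algebraMap (𝓞 K) K)) (G l0)) :=
        funext fun t => by rw [MvPolynomial.eval_map]
      rw [h2]
      exact Pool.Agent.H159R3.Exp.differentiable_eval hf _
    exact ev_ne h1 hcon z0
  have hKS : ∀ P ∈ Algebra.adjoin K {f | SplitOver σ F G f}, pv (k := ℂ) K x P ∈ sysE.KS := by
    intro P hP
    induction hP using Algebra.adjoin_induction with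
    | mem P hP =>
      refine coord σ F G sysE (𝓝[≠] z0) (AlgHom.id ℂ Ent) evz (fun y => ent_zero_iff z0 y)
        (fun u _ => ⟨u, Units.ext rfl⟩) x ?_ ?_ ?_ (fun _ => Algebra.mem_top) P hP
      · exact Eventually.of_forall fun t l => hF t l
      · filter_upwards [hG] with t ht
        exact ⟨l0, ht⟩
      · intro Q hQ
        refine ⟨mkU (pv (k := ℂ) K x Q) (fun z => ?_), Subgroup.mem_top _, rfl⟩
        have h1 := hev z Q
        rw [evz_apply] at h1
        rw [h1]
        exact hQ (f z) (hF z)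
    | algebraMap c =>
      have h1 : algebraMap K (MvPolynomial (Fin n) K) c = MvPolynomial.C c := rfl
      have h2 : pv (k := ℂ) K x (MvPolynomial.C c) = algebraMap ℂ Ent (σ c) := by
        unfold pv
        rw [MvPolynomial.eval₂Hom_C]
        rfl
      rw [h1, h2]
      exact sysE.KS.algebraMap_mem _
    | add P Q _ _ hP hQ =>
      rw [map_add]
      exact add_mem hP hQ
    | mul P Q _ _ hP hQ =>
      rw [map_mul]
      exact mul_mem hP hQ
  refine hcon (hrad f ⟨hf, fun z => z, differentiable_id, ⟨0, 1, zero_ne_one⟩, fun j => ?_⟩ hF hnc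
    z0 l0)
  have h1 := rad_KS (hKS _ (hroot j))
  have h2 : ((pv (k := ℂ) K x (MvPolynomial.X j) : Ent) : ℂ → ℂ) = fun z => f z j := by
    have h3 : pv (k := ℂ) K x (MvPolynomial.X j) = x j := by
      unfold pv
      rw [MvPolynomial.eval₂Hom_X']
    rw [h3]
  rw [h2] at h1
  exact h1

end Pool.Agent.H21bl.TC
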